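import Pool.Agent.H986R2.K4.Lap

set_option autoImplicit false

/-!
# A Gaussian integral through a saddle point
-/

namespace Pool.Agent.W186.HZ

open Complex Filter Topology MeasureTheory Set
open Pool.Agent.H986R2.K4.LapAux (core)

/-- the local situation: `F` has no zeros on a ball and its logarithmic derivative is nearly `μ` -/
def Lc (ρ s θ : ℝ) (μ p : ℂ) (F : ℂ → ℂ) : Prop :=
  ∀ w ∈ Metric.ball p ρ, DifferentiableAt ℂ F w ∧ F w ≠ 0 ∧ ‖logDeriv F w - μ‖ ≤ θ * s ^ 2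

/-- the integrand -/
noncomputable def Q (F : ℂ → ℂ) (s : ℝ) (z0 w : ℂ) : ℂ := cexp (-((s : ℂ) ^ 2 * (w - z0) ^ 2 / 2)) * F w

section local_

variable {F : ℂ → ℂ} {p μ : ℂ} {ρ s θ : ℝ}

lemma diffOn (h : Lc ρ s θ μ p F) : DifferentiableOn ℂ F (Metric.ball p ρ) :=
  fun w hw => (h w hw).1.differentiableWithinAt

lemma ld_diffOn (h : Lc ρ s θ μ p F) : DifferentiableOn ℂ (logDeriv F) (Metric.ball p ρ) := by
  have h1 := (diffOn h).deriv Metric.isOpen_ball
  exact h1.div (diffOn h) fun w hw => (h w hw).2.1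

lemma ld_lip (hρ0 : 0 < ρ) (hθ : θ ≤ ρ / 100000) (h : Lc ρ s θ μ p F) {w1 w2 : ℂ}
    (h1 : w1 ∈ Metric.ball p (4 / 5 * ρ)) (h2 : w2 ∈ Metric.ball p (4 / 5 * ρ)) :
    ‖logDeriv F w1 - logDeriv F w2‖ ≤ 1 / 10000 * s ^ 2 * ‖w1 - w2‖ := by
  have hd := ld_diffOn h
  have hsub : Metric.ball p (4 / 5 * ρ) ⊆ Metric.ball p ρ := Metric.ball_subset_ball (by linarith)
  have key : ∀ w ∈ Metric.ball p (4 / 5 * ρ), ‖deriv (logDeriv F) w‖ ≤ 1 / 10000 * s ^ 2 := by
    intro w hw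
    have hcl : Metric.closedBall w (ρ / 10) ⊆ Metric.ball p ρ := by
      intro x hx
      rw [Metric.mem_closedBall] at hx
      rw [Metric.mem_ball] at hw ⊢
      have := dist_triangle x w p
      linarith
    have e : deriv (logDeriv F) w = deriv (fun z => logDeriv F z - μ) w := by
      rw [deriv_sub_const]
    rw [e]
    have hdc : DiffContOnCl ℂ (fun z => logDeriv F z - μ) (Metric.ball w (ρ / 10)) := by
      apply DifferentiableOn.diffContOnCl
      rw [closure_ball w (by positivity)]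
      exact (hd.mono hcl).sub_const _
    have := Complex.norm_deriv_le_of_forall_mem_sphere_norm_le (R := ρ / 10) (C := θ * s ^ 2) (by positivity) hdc
      (fun z hz => (h z (hcl (Metric.sphere_subset_closedBall hz))).2.2)
    refine this.trans ?_
    rw [div_le_iff₀ (by positivity)]
    calc θ * s ^ 2 ≤ (ρ / 100000) * s ^ 2 := by gcongr
      _ = 1 / 10000 * s ^ 2 * (ρ / 10) := by ring
  exact (convex_ball p (4 / 5 * ρ)).norm_image_sub_le_of_norm_deriv_le
    (fun w hw => hd.differentiableAt (Metric.isOpen_ball.mem_nhds (hsub hw))) key h2 h1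

lemma saddle (hρ0 : 0 < ρ) (hs : 0 < s) (hθ0 : 0 < θ) (hθ : θ ≤ ρ / 100000) (h : Lc ρ s θ μ p F) :
    ∃ w0 : ℂ, ‖w0 - p‖ ≤ θ ∧ (s : ℂ) ^ 2 * (w0 - (p - μ / s ^ 2)) = logDeriv F w0 := by
  have hsub : Metric.closedBall p θ ⊆ Metric.ball p (4 / 5 * ρ) :=
    Metric.closedBall_subset_ball (by linarith)
  have hsub' : Metric.ball p (4 / 5 * ρ) ⊆ Metric.ball p ρ := Metric.ball_subset_ball (by linarith)
  have hs2 : (s : ℂ) ^ 2 ≠ 0 := by exact_mod_cast (pow_pos hs 2).ne'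
  have hn : ‖(s : ℂ) ^ 2‖ = s ^ 2 := by
    rw [norm_pow, Complex.norm_real, Real.norm_eq_abs, sq_abs]
  set T : ℂ → ℂ := fun w => p - μ / s ^ 2 + logDeriv F w / s ^ 2 with hT
  have hmaps : MapsTo T (Metric.closedBall p θ) (Metric.closedBall p θ) := by
    intro w hw
    rw [Metric.mem_closedBall, dist_eq_norm]
    have e : T w - p = (logDeriv F w - μ) / s ^ 2 := by
      rw [hT]; field_simp; ring
    rw [e, norm_div, hn, div_le_iff₀ (by positivity)]
    exact (h w (hsub' (hsub hw))).2.2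
  have hlip : ∀ w1 ∈ Metric.closedBall p θ, ∀ w2 ∈ Metric.closedBall p θ,
      ‖T w1 - T w2‖ ≤ 1 / 2 * ‖w1 - w2‖ := by
    intro w1 h1 w2 h2
    have e : T w1 - T w2 = (logDeriv F w1 - logDeriv F w2) / s ^ 2 := by
      rw [hT]; field_simp; ring
    rw [e, norm_div, hn, div_le_iff₀ (by positivity)]
    have hl := ld_lip hρ0 hθ h (hsub h1) (hsub h2)
    have : 0 ≤ s ^ 2 * ‖w1 - w2‖ := by positivity
    nlinarith
  have hcontr : ContractingWith (1 / 2) (hmaps.restrict T (Metric.closedBall p θ) (Metric.closedBall p θ)) := by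
    refine ⟨by norm_num, ?_⟩
    apply LipschitzWith.of_dist_le_mul
    intro x y
    rw [Subtype.dist_eq, Subtype.dist_eq, dist_eq_norm, dist_eq_norm]
    have := hlip x.1 x.2 y.1 y.2
    simpa using this
  obtain ⟨w0, hw0, hfix, _⟩ := hcontr.exists_fixedPoint' Metric.isClosed_closedBall.isComplete hmaps
    (Metric.mem_closedBall_self hθ0.le) (edist_ne_top _ _)
  refine ⟨w0, by rw [Metric.mem_closedBall, dist_eq_norm] at hw0; exact hw0, ?_⟩
  have : p - μ / s ^ 2 + logDeriv F w0 / s ^ 2 = w0 := hfix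
  have h2 : w0 - (p - μ / s ^ 2) = logDeriv F w0 / s ^ 2 := by linear_combination -this
  rw [h2, mul_div_cancel₀ _ hs2]

lemma exp_rep (z0 : ℂ) (h : Lc ρ s θ μ p F) : ∃ H : ℂ → ℂ,
    (∀ w ∈ Metric.ball p ρ, HasDerivAt H (logDeriv F w - s ^ 2 * (w - z0)) w) ∧
    ∀ w1 ∈ Metric.ball p ρ, ∀ w2 ∈ Metric.ball p ρ,
      Q F s z0 w1 = Q F s z0 w2 * cexp (H w1 - H w2) := by
  have hg : DifferentiableOn ℂ (fun w => logDeriv F w - s ^ 2 * (w - z0)) (Metric.ball p ρ) := by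
    apply (ld_diffOn h).sub
    apply Differentiable.differentiableOn
    fun_prop
  obtain ⟨H, hH⟩ := hg.isExactOn_ball
  refine ⟨H, hH, ?_⟩
  have hder : ∀ w ∈ Metric.ball p ρ,
      HasDerivAt (fun w => Q F s z0 w * cexp (-H w)) 0 w := by
    intro w hw
    obtain ⟨hd, hne, _⟩ := h w hw
    have h0 : HasDerivAt (fun w : ℂ => -((s : ℂ) ^ 2 * (w - z0) ^ 2 / 2)) (-((s : ℂ) ^ 2 * (w - z0))) w := by
      have h1 : HasDerivAt (fun w : ℂ => (w - z0) ^ 2) (2 * (w - z0)) w := by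
        have := ((hasDerivAt_id w).sub_const z0).fun_pow 2
        simpa using this
      have h2 := ((h1.const_mul ((s : ℂ) ^ 2)).div_const 2).neg
      refine h2.congr_deriv ?_
      ring
    have h2 : HasDerivAt (fun w => Q F s z0 w * cexp (-H w)) _ w :=
      (h0.cexp.mul hd.hasDerivAt).mul ((hH w hw).neg.cexp)
    refine h2.congr_deriv ?_
    simp only [Pi.neg_apply, Pi.mul_apply]
    rw [logDeriv_apply]
    field_simp
    ring
  have hconst : ∀ w1 ∈ Metric.ball p ρ, ∀ w2 ∈ Metric.ball p ρ,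
      Q F s z0 w1 * cexp (-H w1) = Q F s z0 w2 * cexp (-H w2) := by
    intro w1 h1 w2 h2
    have := (convex_ball p ρ).norm_image_sub_le_of_norm_hasDerivWithin_le (C := 0)
      (fun w hw => (hder w hw).hasDerivWithinAt) (fun w _ => by simp) h2 h1
    rw [zero_mul] at this
    exact sub_eq_zero.1 (norm_eq_zero.1 (le_antisymm this (norm_nonneg _)))
  intro w1 h1 w2 h2
  have := hconst w1 h1 w2 h2
  have e : Q F s z0 w1 = (Q F s z0 w1 * cexp (-H w1)) * cexp (H w1) := by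
    rw [mul_assoc, ← Complex.exp_add]; simp
  rw [e, this, mul_assoc, ← Complex.exp_add]
  congr 2
  ring

theorem sad (hρ0 : 0 < ρ) (hρ : ρ ≤ 1 / 2) (hs : 30000 ≤ s) (hsρ : 5 / ρ ≤ s) (hθ0 : 0 < θ)
    (hθ : θ ≤ ρ / 100000) (h : Lc ρ s θ μ p F) :
    ∃ w0 : ℂ, ‖w0 - p‖ ≤ θ ∧
      (∀ y : ℝ, |y| ≤ ρ / 5 → ‖Q F s (p - μ / s ^ 2) (w0 + y)‖ ≤
        Real.exp (-(s ^ 2 * y ^ 2 / 4)) * ‖Q F s (p - μ / s ^ 2) w0‖) ∧
      1 / 2 / s * ‖Q F s (p - μ / s ^ 2) w0‖ ≤
        ‖∫ y in (-(ρ / 5) : ℝ)..(ρ / 5), Q F s (p - μ / s ^ 2) (w0 + y)‖ := by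
  have hs0 : 0 < s := by linarith
  obtain ⟨w0, hw0, hsad⟩ := saddle hρ0 hs0 hθ0 hθ h
  obtain ⟨z0, hz0⟩ : ∃ z0 : ℂ, z0 = p - μ / s ^ 2 := ⟨_, rfl⟩
  rw [← hz0] at hsad ⊢
  obtain ⟨H, hH, hQ⟩ := exp_rep z0 h
  have hball : ∀ y : ℝ, |y| ≤ ρ / 5 → w0 + y ∈ Metric.ball p (4 / 5 * ρ) := by
    intro y hy
    rw [Metric.mem_ball, dist_eq_norm]
    have e : w0 + (y : ℂ) - p = (w0 - p) + y := by ring
    rw [e]
    calc ‖(w0 - p) + (y : ℂ)‖ ≤ ‖w0 - p‖ + ‖(y : ℂ)‖ := norm_add_le _ _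
      _ ≤ θ + ρ / 5 := by
          rw [Complex.norm_real, Real.norm_eq_abs]
          linarith
      _ < 4 / 5 * ρ := by linarith
  have hsub : Metric.ball p (4 / 5 * ρ) ⊆ Metric.ball p ρ := Metric.ball_subset_ball (by linarith)
  have hw0b : w0 ∈ Metric.ball p (4 / 5 * ρ) := by
    have := hball 0 (by simp; positivity)
    simpa using this
  have hc := core (s := s) (a := ρ / 5) hs (by positivity) (by linarith)
    (by
      rw [div_le_iff₀ hs0]
      rw [div_le_iff₀ hρ0] at hsρ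
      linarith) (m := s ^ 2) le_rfl (by nlinarith)
    (fun y => H (w0 + y) - H w0) (fun y => logDeriv F (w0 + y) - s ^ 2 * (w0 + y - z0))
    (by simp)
    (by
      intro y hy
      have h1 : HasDerivAt (fun y : ℝ => w0 + (y : ℂ)) 1 y :=
        (Complex.ofRealCLM.hasDerivAt (x := y)).const_add w0
      have h2 := HasDerivAt.comp y (hH _ (hsub (hball y hy))) h1
      have h3 := h2.sub_const (H w0)
      refine h3.congr_deriv ?_
      ring)
    (by
      intro y hy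
      have e : logDeriv F (w0 + y) - s ^ 2 * (w0 + y - z0) + ((s ^ 2 : ℝ) : ℂ) * y =
          logDeriv F (w0 + y) - logDeriv F w0 := by
        rw [← hsad]; push_cast; ring
      rw [e]
      refine (ld_lip hρ0 hθ h (hball y hy) hw0b).trans ?_
      have e2 : w0 + (y : ℂ) - w0 = y := by ring
      rw [e2, Complex.norm_real, Real.norm_eq_abs]
      have h0 : 0 ≤ |y| * s ^ 2 := by positivity
      nlinarith [abs_nonneg y])
  have hrep : ∀ y : ℝ, |y| ≤ ρ / 5 → Q F s z0 (w0 + y) = Q F s z0 w0 * cexp (H (w0 + y) - H w0) :=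
    fun y hy => hQ _ (hsub (hball y hy)) _ (hsub hw0b)
  refine ⟨w0, hw0, ?_, ?_⟩
  · intro y hy
    rw [hrep y hy, norm_mul, mul_comm]
    exact mul_le_mul_of_nonneg_right (hc.1 y hy) (norm_nonneg _)
  · have e : ∫ y in (-(ρ / 5) : ℝ)..(ρ / 5), Q F s z0 (w0 + y) =
        Q F s z0 w0 * ∫ y in (-(ρ / 5) : ℝ)..(ρ / 5), cexp (H (w0 + y) - H w0) := by
      rw [← intervalIntegral.integral_const_mul]
      apply intervalIntegral.integral_congr
      intro y hy
      rw [uIcc_of_le (by linarith)] at hy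
      exact hrep y (abs_le.2 hy)
    rw [e, norm_mul, mul_comm]
    exact mul_le_mul_of_nonneg_left hc.2 (norm_nonneg _)

end local_

end Pool.Agent.W186.HZ
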