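import Pool.Agent.W186.HZ.JL2

set_option autoImplicit false

/-!
# No zeros of `XT τ` off the line at height `T` once `2 τ Om T > 2 y`
-/

namespace Pool.Agent.W186.HZ

open Complex Filter Topology MeasureTheory Set
open Pool.Agent.H24R2.JP (XX HH Om)
open Pool.Agent.H986R2.DBN (JT XT)

lemma exlog {k : ℂ → ℂ} {r : ℝ} (hr : 0 < r) (hk : DifferentiableOn ℂ k (Metric.ball 0 r))
    (hk0 : ∀ z ∈ Metric.ball (0 : ℂ) r, k z ≠ 0) (h1 : k 0 = 1) :
    ∃ f : ℂ → ℂ, DifferentiableOn ℂ f (Metric.ball 0 r) ∧ f 0 = 0 ∧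
      ∀ z ∈ Metric.ball (0 : ℂ) r, k z = cexp (f z) := by
  have hd : DifferentiableOn ℂ (logDeriv k) (Metric.ball 0 r) :=
    (hk.deriv Metric.isOpen_ball).div hk hk0
  obtain ⟨G, hG⟩ := hd.isExactOn_ball
  have h0 : (0 : ℂ) ∈ Metric.ball (0 : ℂ) r := Metric.mem_ball_self hr
  refine ⟨fun z => G z - G 0, fun z hz => ((hG z hz).differentiableAt.sub_const _).differentiableWithinAt,
    by simp, ?_⟩
  have hder : ∀ w ∈ Metric.ball (0 : ℂ) r, HasDerivAt (fun w => k w * cexp (-(G w - G 0))) 0 w := by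
    intro w hw
    have hkw := (hk.differentiableAt (Metric.isOpen_ball.mem_nhds hw)).hasDerivAt
    have h2 : HasDerivAt (fun w => k w * cexp (-(G w - G 0))) _ w :=
      hkw.mul (((hG w hw).sub_const (G 0)).neg.cexp)
    refine h2.congr_deriv ?_
    rw [logDeriv_apply]
    have := hk0 w hw
    simp only [Pi.neg_apply]
    field_simp
    ring
  intro z hz
  have := (convex_ball (0 : ℂ) r).norm_image_sub_le_of_norm_hasDerivWithin_le (C := 0)
    (fun w hw => (hder w hw).hasDerivWithinAt) (fun w _ => by simp) h0 hz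
  rw [zero_mul] at this
  have h3 := sub_eq_zero.1 (norm_eq_zero.1 (le_antisymm this (norm_nonneg _)))
  simp only [sub_self, neg_zero, Complex.exp_zero, mul_one, h1] at h3
  have h4 : k z = (k z * cexp (-(G z - G 0))) * cexp (G z - G 0) := by
    rw [mul_assoc, ← Complex.exp_add]; simp
  rw [h4, h3, one_mul]

/-- comparison of `J a` and `J (-a)` -/
lemma compare {J : ℂ → ℂ} {r M A a : ℝ} (hr : 0 < r) (hM : 0 < M) (hJ : ∀ z ∈ Metric.ball (0 : ℂ) r, DifferentiableAt ℂ J z)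
    (hJ0 : ∀ z ∈ Metric.ball (0 : ℂ) r, J z ≠ 0)
    (hb : ∀ z ∈ Metric.ball (0 : ℂ) r, ‖J z‖ ≤ Real.exp (A * z.re + M) * ‖J (-z)‖)
    (ha : 0 < a) (ha2 : a ≤ r / 2) (hA : 4 * M < A * r) : ‖J (a : ℂ)‖ ≠ ‖J (-(a : ℂ))‖ := by
  have hneg : ∀ z ∈ Metric.ball (0 : ℂ) r, -z ∈ Metric.ball (0 : ℂ) r := by
    intro z hz
    rw [mem_ball_zero_iff] at hz ⊢
    rwa [norm_neg]
  obtain ⟨f, hf, hf0, hfk⟩ := exlog (k := fun z => J z / (J (-z) * cexp (A * z))) hr
    (by
      intro z hz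
      apply DifferentiableAt.differentiableWithinAt
      apply (hJ z hz).div
      · apply DifferentiableAt.mul
        · exact (hJ (-z) (hneg z hz)).comp z differentiableAt_id.neg
        · fun_prop
      · exact mul_ne_zero (hJ0 _ (hneg z hz)) (Complex.exp_ne_zero _))
    (fun z hz => div_ne_zero (hJ0 z hz) (mul_ne_zero (hJ0 _ (hneg z hz)) (Complex.exp_ne_zero _)))
    (by
      have := hJ0 0 (Metric.mem_ball_self hr)
      simp [this])
  have hre : ∀ z ∈ Metric.ball (0 : ℂ) r, (f z).re ≤ M := by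
    intro z hz
    have h1 : ‖J z / (J (-z) * cexp (A * z))‖ ≤ Real.exp M := by
      rw [norm_div, norm_mul, Complex.norm_exp, div_le_iff₀ (mul_pos (norm_pos_iff.2 (hJ0 _ (hneg z hz)))
        (Real.exp_pos _)), Complex.re_ofReal_mul]
      refine (hb z hz).trans (le_of_eq ?_)
      rw [Real.exp_add]
      ring
    rw [hfk z hz, Complex.norm_exp] at h1
    exact Real.exp_le_exp.1 h1
  have haz : (a : ℂ) ∈ Metric.ball (0 : ℂ) r := by
    rw [mem_ball_zero_iff, Complex.norm_real, Real.norm_eq_abs, abs_of_pos ha]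
    linarith
  have hbc := borelCaratheodory_zero hM hf (fun z hz => hre z hz) hr haz hf0
  rw [Complex.norm_real, Real.norm_eq_abs, abs_of_pos ha] at hbc
  have h2 : 2 * M * a / (r - a) ≤ 4 * M * a / r := by
    rw [div_le_div_iff₀ (by linarith) hr]
    have : 0 ≤ M * a := by positivity
    nlinarith
  have h3 : -(4 * M * a / r) ≤ (f (a : ℂ)).re := by
    have := (Complex.abs_re_le_norm (f (a : ℂ))).trans (hbc.trans h2)
    rw [abs_le] at this
    exact this.1
  have h4 : J (a : ℂ) = J (-(a : ℂ)) * cexp (A * a) * cexp (f (a : ℂ)) := by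
    rw [← hfk _ haz]
    have h5 := hJ0 _ (hneg _ haz)
    have h6 := Complex.exp_ne_zero ((A : ℂ) * a)
    field_simp
  intro heq
  rw [h4, norm_mul, norm_mul, Complex.norm_exp, Complex.norm_exp, mul_assoc, ← Real.exp_add] at heq
  have h5 : 0 < ‖J (-(a : ℂ))‖ := norm_pos_iff.2 (hJ0 _ (hneg _ haz))
  have h6 : Real.exp (((A : ℂ) * a).re + (f (a : ℂ)).re) = 1 := by
    have h7 : ‖J (-(a : ℂ))‖ * Real.exp (((A : ℂ) * a).re + (f (a : ℂ)).re) = ‖J (-(a : ℂ))‖ * 1 := by
      rw [heq, mul_one]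
    exact mul_left_cancel₀ h5.ne' h7
  rw [Real.exp_eq_one_iff] at h6
  have h7 : ((A : ℂ) * a).re = A * a := by simp
  rw [h7] at h6
  have h8 : 4 * M * a / r < A * a := by
    rw [div_lt_iff₀ hr]
    nlinarith
  linarith

theorem fwd {y : ℝ} (hy0 : 0 ≤ y) (hy1 : y ≤ 1 / 2) (h : CT y) (m X : ℝ) (hm : 2 * y < m) (hX : m ≤ X) :
    ∃ T0 : ℝ, 400 ≤ T0 ∧ ∀ T τ : ℝ, T0 ≤ T → 0 < τ → m ≤ 2 * τ * Om T → 2 * τ * Om T ≤ X →
      ∀ σ : ℝ, 0 < σ → σ ≤ 1 / 2 → XT τ (σ + I * T) ≠ 0 := by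
  have hm0 : 0 < m := by linarith
  obtain ⟨g, hg⟩ : ∃ g : ℝ, g = (m - 2 * y) / 2 := ⟨_, rfl⟩
  have hg0 : 0 < g := by rw [hg]; linarith
  obtain ⟨c, hc0, hc1, hjl⟩ := jl hy0 hy1 h m X 1 g hm0 hX (by norm_num) hg0
  obtain ⟨c1, hc1d⟩ : ∃ c1 : ℝ, c1 = min (min c (g / 2)) (min (m / 4) (g * m / 2)) := ⟨_, rfl⟩
  have hc10 : 0 < c1 := by
    rw [hc1d]; exact lt_min (lt_min hc0 (by linarith)) (lt_min (by linarith) (by positivity))
  have hc1a : c1 ≤ c := by rw [hc1d]; exact (min_le_left _ _).trans (min_le_left _ _)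
  have hc1b : c1 ≤ g / 2 := by rw [hc1d]; exact (min_le_left _ _).trans (min_le_right _ _)
  have hc1c : c1 ≤ m / 4 := by rw [hc1d]; exact (min_le_right _ _).trans (min_le_left _ _)
  have hc1e : c1 ≤ g * m / 2 := by rw [hc1d]; exact (min_le_right _ _).trans (min_le_right _ _)
  obtain ⟨δ, hδ⟩ : ∃ δ : ℝ, δ = c1 / 32 := ⟨_, rfl⟩
  have hδ0 : 0 < δ := by rw [hδ]; positivity
  obtain ⟨T1, hT1, hl⟩ := hjl δ hδ0
  obtain ⟨T2, hT2, hu⟩ := ju hy0 hy1 h m X 1 δ hm0 hX (by norm_num) hδ0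
  obtain ⟨T3, hT3, hJd⟩ := JT_diff
  obtain ⟨T4, hT4, hO⟩ := Om_large (4 * X + 1)
  refine ⟨max (max T1 T2) (max T3 T4), hT1.trans ((le_max_left _ _).trans (le_max_left _ _)), ?_⟩
  intro T τ hT hτ h1 h2 σ hσ0 hσ1 hz
  have g1 : T1 ≤ T := ((le_max_left _ _).trans (le_max_left _ _)).trans hT
  have g2 : T2 ≤ T := ((le_max_right _ _).trans (le_max_left _ _)).trans hT
  have g3 : T3 ≤ T := ((le_max_left _ _).trans (le_max_right _ _)).trans hT
  have g4 : T4 ≤ T := ((le_max_right _ _).trans (le_max_right _ _)).trans hT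
  have hOm := hO T g4
  have hTp : 0 < T := by linarith
  have heq := Pool.Agent.H986R2.DBN.Hnz.norm_JT_eq Pool.Agent.H986R2.DBN.heat Pool.Agent.H24R2.JP.b1 τ T σ hτ hz
  obtain ⟨L, hL⟩ : ∃ L : ℝ, L = Om T := ⟨_, rfl⟩
  have hl' := fun a => hl T τ g1 hτ h1 h2 a
  have hu' := fun a => hu T τ g2 hτ h1 h2 a
  rw [← hL] at h1 h2 hOm
  simp only [← hL] at hl' hu'
  obtain ⟨H, hH⟩ : ∃ H : ℝ, H = ‖HH (I * T)‖ := ⟨_, rfl⟩
  have hHp : 0 < H := by
    have h0 : HH (I * T) ≠ 0 := by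
      apply Pool.Agent.H24R2.JP.StirAux.HH_ne
      simpa using hTp
    rw [hH]; exact norm_pos_iff.2 h0
  simp only [← hH] at hl' hu'
  have hLp : 0 < L := by linarith
  have hτ8 : τ ≤ 1 / 8 := by
    by_contra hcon
    push Not at hcon
    have : 1 / 8 * L ≤ τ * L := by gcongr
    linarith only [this, h2, hOm, hm0, hX]
  have hJd' := fun a => (hJd T τ g3 hτ hτ8 a).2
  have h2τ : 0 < 2 * τ := by positivity
  have hgm : m = 2 * y + 2 * g := by rw [hg]; ring
  clear hl hu hjl hJd hO hz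
  rcases le_or_gt (c1 / 2) σ with hσc | hσc
  · -- far from the line
    have e1 : 2 * τ * (((σ / (2 * τ) : ℝ) : ℂ)).re = σ := by
      rw [Complex.ofReal_re]; field_simp
    have e2 : 2 * τ * (((σ / (2 * τ) : ℝ) : ℂ)).im = 0 := by
      rw [Complex.ofReal_im, mul_zero]
    have a1 := hl' ((σ / (2 * τ) : ℝ) : ℂ) (by rw [e1]; linarith only [hσ1])
      (by rw [e1]; linarith only [h1, hgm, hσ0, hg0])
      (by rw [e1]; linarith only [h1, hgm, hσ0, hg0, hy0]) (by rw [e2, abs_zero]; exact hc0.le)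
    have a2 := hu' (-((σ / (2 * τ) : ℝ) : ℂ)) (by
      rw [Complex.neg_re, mul_neg, e1]; linarith only [hσ0])
    rw [heq] at a1
    have a3 := le_of_mul_le_mul_right (a1.trans a2) hHp
    rw [Real.exp_le_exp, Complex.ofReal_im, Complex.neg_re, Complex.ofReal_re] at a3
    obtain ⟨α, hα⟩ : ∃ α : ℝ, α = σ / (2 * τ) := ⟨_, rfl⟩
    rw [← hα] at a3
    have hα0 : 0 < α := by rw [hα]; positivity
    have hτα : 2 * τ * α = σ := by rw [hα]; field_simp
    rw [max_eq_right (by linarith only [hα0] : -α ≤ 0), zero_mul, add_zero] at a3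
    rcases max_cases (τ * (L + -α) ^ 2) (L * y) with ⟨hmx, -⟩ | ⟨hmx, -⟩
    · rw [hmx] at a3
      have a4 : τ * ((L + α) ^ 2 - 0 ^ 2) - τ * (L + -α) ^ 2 = 2 * (L * σ) := by
        rw [← hτα]; ring
      have a5 : L * (c1 / 2) ≤ L * σ := mul_le_mul_of_nonneg_left hσc hLp.le
      have a6 : δ * L = L * c1 / 32 := by rw [hδ]; ring
      have a7 : 0 < L * c1 := by positivity
      linarith only [a3, a4, a5, a6, a7]
    · rw [hmx] at a3
      have a4 : τ * ((L + α) ^ 2 - 0 ^ 2) = L * (2 * τ * L) / 2 + L * σ + τ * α ^ 2 := by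
        rw [← hτα]; ring
      have a5 : L * (2 * y + 2 * g) ≤ L * (2 * τ * L) := mul_le_mul_of_nonneg_left (by linarith only [h1, hgm]) hLp.le
      have a6 : δ * L ≤ g * L / 8 := by
        have : δ ≤ g / 8 := by rw [hδ]; linarith only [hc1b, hc10]
        calc δ * L ≤ g / 8 * L := mul_le_mul_of_nonneg_right this hLp.le
          _ = _ := by ring
      have a7 : 0 < L * g := by positivity
      have a8 : 0 < L * σ := by positivity
      have a9 : 0 ≤ τ * α ^ 2 := by positivity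
      linarith only [a3, a4, a5, a6, a7, a8, a9]
  · -- near the line
    obtain ⟨r, hr⟩ : ∃ r : ℝ, r = c1 / (2 * τ) := ⟨_, rfl⟩
    have hr0 : 0 < r := by rw [hr]; positivity
    have hτr : 2 * τ * r = c1 := by rw [hr]; field_simp
    have hball : ∀ z ∈ Metric.ball (0 : ℂ) r, |2 * τ * z.re| ≤ c1 ∧ |2 * τ * z.im| ≤ c1 := by
      intro z hz
      rw [mem_ball_zero_iff] at hz
      constructor
      · rw [abs_mul, abs_of_pos h2τ, ← hτr]
        exact mul_le_mul_of_nonneg_left ((Complex.abs_re_le_norm z).trans hz.le) h2τ.le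
      · rw [abs_mul, abs_of_pos h2τ, ← hτr]
        exact mul_le_mul_of_nonneg_left ((Complex.abs_im_le_norm z).trans hz.le) h2τ.le
    have hlow : ∀ z ∈ Metric.ball (0 : ℂ) r,
        Real.exp (τ * ((L + z.re) ^ 2 - z.im ^ 2) - δ * L) * H ≤ ‖JT τ T z‖ := by
      intro z hz
      obtain ⟨b1, b2⟩ := hball z hz
      have b1' := abs_le.1 b1
      refine hl' z ?_ ?_ ?_ (b2.trans hc1a)
      · linarith only [b1'.2, hc1a, hc1]
      · linarith only [b1'.1, h1, hgm, hc1b]
      · linarith only [b1'.1, h1, hgm, hc1b, hy0, hg0]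
    have hne : ∀ z ∈ Metric.ball (0 : ℂ) r, JT τ T z ≠ 0 := by
      intro z hz
      have := hlow z hz
      exact norm_pos_iff.1 (lt_of_lt_of_le (by positivity) this)
    have hup : ∀ z ∈ Metric.ball (0 : ℂ) r, ‖JT τ T z‖ ≤ Real.exp (τ * (L + z.re) ^ 2 + δ * L) * H := by
      intro z hz
      obtain ⟨b1, b2⟩ := hball z hz
      have b1' := abs_le.1 b1
      have b3 := hu' z (by linarith only [b1'.2, hc1a, hc1])
      have b4 : max (τ * (L + z.re) ^ 2) (L * y + max z.re 0 * y) = τ * (L + z.re) ^ 2 := by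
        apply max_eq_left
        have b5 : max z.re 0 * y ≤ c1 / (4 * τ) := by
          have b6 : max z.re 0 ≤ c1 / (2 * τ) := by
            apply max_le
            · rw [le_div_iff₀ h2τ]; linarith only [b1'.2]
            · positivity
          calc max z.re 0 * y ≤ c1 / (2 * τ) * (1 / 2) := by gcongr
            _ = c1 / (4 * τ) := by field_simp; norm_num
        have b6 : c1 / (4 * τ) ≤ g * L / 4 := by
          refine (inv_le hτ hm0 h1 hc10.le).trans ?_
          rw [div_le_div_iff₀ (by positivity) (by norm_num)]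
          have : c1 * L ≤ g * m / 2 * L := mul_le_mul_of_nonneg_right hc1e hLp.le
          linarith only [this]
        have b7 : τ * (L + z.re) ^ 2 = L * (2 * τ * L) / 2 + L * (2 * τ * z.re) + τ * z.re ^ 2 := by ring
        have b8 : L * (2 * y + 2 * g) ≤ L * (2 * τ * L) :=
          mul_le_mul_of_nonneg_left (by linarith only [h1, hgm]) hLp.le
        have b9 : L * (-(g / 2)) ≤ L * (2 * τ * z.re) :=
          mul_le_mul_of_nonneg_left (by linarith only [b1'.1, hc1b]) hLp.le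
        have b10 : 0 ≤ τ * z.re ^ 2 := by positivity
        have b11 : 0 < L * g := by positivity
        rw [b7]
        linarith only [b5, b6, b8, b9, b10, b11]
      rw [b4] at b3
      exact b3
    refine compare (J := JT τ T) (A := 4 * τ * L) (M := 2 * δ * L + c1 ^ 2 / (4 * τ)) (a := σ / (2 * τ)) hr0
      (by positivity) (fun z _ => hJd' z) hne ?_ (by positivity) ?_ ?_ heq
    · intro z hz
      have hz' : -z ∈ Metric.ball (0 : ℂ) r := by
        rw [mem_ball_zero_iff] at hz ⊢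
        rwa [norm_neg]
      have q1 := hup z hz
      have q2 := hlow (-z) hz'
      rw [Complex.neg_re, Complex.neg_im] at q2
      have q3 : τ * z.im ^ 2 ≤ c1 ^ 2 / (4 * τ) := by
        rw [le_div_iff₀ (by positivity)]
        have := (hball z hz).2
        have q4 : (2 * τ * z.im) ^ 2 ≤ c1 ^ 2 := by
          rw [← sq_abs]; gcongr
        linarith only [q4]
      calc ‖JT τ T z‖ ≤ Real.exp (τ * (L + z.re) ^ 2 + δ * L) * H := q1
        _ ≤ Real.exp ((4 * τ * L * z.re + (2 * δ * L + c1 ^ 2 / (4 * τ))) +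
              (τ * ((L + -z.re) ^ 2 - (-z.im) ^ 2) - δ * L)) * H := by
            have : τ * (L + z.re) ^ 2 + δ * L ≤ (4 * τ * L * z.re + (2 * δ * L + c1 ^ 2 / (4 * τ))) +
              (τ * ((L + -z.re) ^ 2 - (-z.im) ^ 2) - δ * L) := by
              have e : τ * ((L + -z.re) ^ 2 - (-z.im) ^ 2) = τ * (L + z.re) ^ 2 - 4 * τ * L * z.re - τ * z.im ^ 2 := by
                ring
              rw [e]
              linarith only [q3]
            gcongr
        _ = Real.exp (4 * τ * L * z.re + (2 * δ * L + c1 ^ 2 / (4 * τ))) *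
              (Real.exp (τ * ((L + -z.re) ^ 2 - (-z.im) ^ 2) - δ * L) * H) := by
            rw [Real.exp_add (4 * τ * L * z.re + (2 * δ * L + c1 ^ 2 / (4 * τ))), mul_assoc]
        _ ≤ _ := by gcongr
    · rw [hr, div_div, div_le_div_iff₀ (by positivity) (by positivity)]
      have : σ * (2 * τ * 2) ≤ c1 / 2 * (2 * τ * 2) := by gcongr
      linarith only [this]
    · have q1 : 4 * τ * L * r = 2 * (L * c1) := by rw [← hτr]; ring
      rw [q1]
      have q2 : c1 ^ 2 / (4 * τ) ≤ L * c1 / 8 := by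
        refine (inv_le hτ hm0 h1 (by positivity)).trans ?_
        rw [div_le_div_iff₀ (by positivity) (by norm_num)]
        have : c1 * L * c1 ≤ c1 * L * (m / 4) := mul_le_mul_of_nonneg_left hc1c (by positivity)
        linarith only [this]
      have q3 : 2 * δ * L = L * c1 / 16 := by rw [hδ]; ring
      have q4 : 0 < L * c1 := by positivity
      linarith only [q2, q3, q4]

end Pool.Agent.W186.HZ
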