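import Pool.Agent.W186.HZ.Bw2
import Pool.Agent.W186.DX.Main
import Pool.Agent.H986R2.DBN.All

set_option autoImplicit false

/-!
# The horizon of reality of the de Bruijn-Newman family
-/

namespace Pool.Agent.W186.HZ

open Complex Filter Topology MeasureTheory Set
open Pool.Agent.H24R2.JP (XX HH Om)
open Pool.Agent.H986R2.DBN (JT XT Ht)
open Pool.Agent.H986R2.K4 (xi)
open Pool.Agent.W186.DX (F F_zero F_half F_xi F_fin F_conj AF xi_zero)

/-- all zeros beyond `exp (κ / t)` are real, for small `t` -/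
def Hor (κ : ℝ) : Prop := ∃ t0 : ℝ, 0 < t0 ∧ ∀ t : ℝ, 0 < t → t < t0 → ∀ z : ℂ, Ht t z = 0 →
  Real.exp (κ / t) ≤ |z.re| → z.im = 0

/-- `θ` is an asymptotic bound for the real parts of the zeros -/
def Asy (θ : ℝ) : Prop := ∀ ε : ℝ, 0 < ε → {s : ℂ | θ + ε < s.re ∧ riemannZeta s = 0}.Finite

lemma Ht_XT {t : ℝ} (ht : 0 ≤ t) (z : ℂ) : Ht t z = 0 ↔ XT (t / 4) (I * z / 2) = 0 := by
  have h := Pool.Agent.H986R2.DBN.classHA t 0 z ht
  rw [iteratedDeriv_zero, iteratedDeriv_zero, pow_zero] at h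
  rw [h]
  constructor
  · intro h1
    rcases mul_eq_zero.1 h1 with h2 | h2
    · norm_num at h2
    · exact h2
  · intro h1
    rw [h1, mul_zero]

lemma XT_strip {τ : ℝ} (hτ : 0 ≤ τ) {w : ℂ} (h : XT τ w = 0) : |w.re| ≤ 1 / 2 := by
  have h1 := (Pool.Agent.H986R2.DBN.b1A τ hτ).2.1 w
  have h2 := Pool.Agent.H24R2.JP.parT (Pool.Agent.H986R2.DBN.FT τ) (Pool.Agent.H986R2.DBN.goodA τ hτ) 0 (w ^ 2)
    (by rw [iteratedDeriv_zero, h1, h])
  have h3 := (Pool.Agent.H986R2.DBN.par_iff (w ^ 2)).1 h2 w rfl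
  have h4 : |w.re| ^ 2 ≤ (1 / 2) ^ 2 := by rw [sq_abs]; linarith
  exact (sq_le_sq₀ (abs_nonneg _) (by norm_num)).1 h4

lemma XT_sym {τ : ℝ} (w : ℂ) (h : XT τ w = 0) :
    XT τ ((|w.re| : ℝ) + I * ((|w.im| : ℝ) : ℂ)) = 0 := by
  have hn := Pool.Agent.H986R2.DBN.KerAux.XT_neg τ
  have hc := Pool.Agent.H986R2.DBN.KerAux.XT_conj τ
  rcases le_total 0 w.re with h1 | h1 <;> rcases le_total 0 w.im with h2 | h2
  · rw [abs_of_nonneg h1, abs_of_nonneg h2]
    have e : ((w.re : ℝ) : ℂ) + I * (w.im : ℂ) = w := by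
      apply Complex.ext <;> simp
    rw [e, h]
  · rw [abs_of_nonneg h1, abs_of_nonpos h2]
    have e : ((w.re : ℝ) : ℂ) + I * ((-w.im : ℝ) : ℂ) = (starRingEnd ℂ) w := by
      apply Complex.ext <;> simp
    rw [e, hc, h, map_zero]
  · rw [abs_of_nonpos h1, abs_of_nonneg h2]
    have e : ((-w.re : ℝ) : ℂ) + I * (w.im : ℂ) = -(starRingEnd ℂ) w := by
      apply Complex.ext <;> simp
    rw [e, hn, hc, h, map_zero]
  · rw [abs_of_nonpos h1, abs_of_nonpos h2]
    have e : ((-w.re : ℝ) : ℂ) + I * ((-w.im : ℝ) : ℂ) = -w := by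
      apply Complex.ext <;> simp
    rw [e, hn, h]

/-- the forward direction -/
lemma fwdA {y : ℝ} (hy0 : 0 ≤ y) (hy1 : y ≤ 1 / 2) (h : CT y) (κ : ℝ) (hκ : 8 * y < κ) : Hor κ := by
  obtain ⟨C, hC, hnz⟩ := Pool.Agent.H986R2.DBN.heatNZA
  obtain ⟨m, hm⟩ : ∃ m : ℝ, m = y + κ / 8 := ⟨_, rfl⟩
  have hm1 : 2 * y < m := by rw [hm]; linarith
  have hm2 : m < κ / 4 := by rw [hm]; linarith
  have hm0 : 0 < m := by linarith
  obtain ⟨T0, hT0, hf⟩ := fwd hy0 hy1 h m (max m C) hm1 (le_max_left _ _)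
  have hκ0 : 0 < κ := by linarith
  refine ⟨min (1 / 2) (min (κ / 4 - m) (κ / (2 * T0))), ?_, ?_⟩
  · exact lt_min (by norm_num) (lt_min (by linarith) (by positivity))
  intro t ht0 ht1 z hz hzr
  have t1 : t < 1 / 2 := ht1.trans_le (min_le_left _ _)
  have t2 : t < κ / 4 - m := ht1.trans_le ((min_le_right _ _).trans (min_le_left _ _))
  have t3 : t < κ / (2 * T0) := ht1.trans_le ((min_le_right _ _).trans (min_le_right _ _))
  obtain ⟨τ, hτ⟩ : ∃ τ : ℝ, τ = t / 4 := ⟨_, rfl⟩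
  have hτ0 : 0 < τ := by rw [hτ]; linarith
  have hτ8 : τ ≤ 1 / 8 := by rw [hτ]; linarith
  rw [Ht_XT ht0.le, ← hτ] at hz
  by_contra hne
  have hwr : (I * z / 2).re = -z.im / 2 := by simp
  have hwi : (I * z / 2).im = z.re / 2 := by simp
  have hst := XT_strip hτ0.le hz
  have hsy := XT_sym _ hz
  rw [hwr] at hst hsy
  rw [hwi] at hsy
  obtain ⟨σ, hσ⟩ : ∃ σ : ℝ, σ = |-z.im / 2| := ⟨_, rfl⟩
  obtain ⟨T, hT⟩ : ∃ T : ℝ, T = |z.re / 2| := ⟨_, rfl⟩
  rw [← hσ] at hst hsy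
  rw [← hT] at hsy
  have hσ0 : 0 < σ := by
    rw [hσ, abs_pos]
    intro h0
    apply hne
    linarith
  have hT1 : Real.exp (κ / t) ≤ 2 * T := by
    rw [hT, abs_div, abs_of_pos (by norm_num : (0 : ℝ) < 2)]
    linarith
  have hTp : 0 < T := by
    have := Real.exp_pos (κ / t)
    linarith
  have hTT0 : T0 ≤ T := by
    have h1 := Real.add_one_le_exp (κ / t)
    have h2 : 2 * T0 < κ / t := by
      rw [lt_div_iff₀ ht0]
      rw [lt_div_iff₀ (by positivity)] at t3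
      linarith
    linarith
  have hlog : κ / t ≤ Real.log 2 + Real.log T := by
    rw [← Real.log_mul (by norm_num) hTp.ne', Real.le_log_iff_exp_le (by positivity)]
    exact hT1
  have hOm : m ≤ 2 * τ * Om T := by
    have e : 2 * τ * Om T = τ * Real.log T := by unfold Om; ring
    rw [e]
    have h1 : τ * (κ / t) ≤ τ * (Real.log 2 + Real.log T) := mul_le_mul_of_nonneg_left hlog hτ0.le
    have e2 : τ * (κ / t) = κ / 4 := by rw [hτ]; field_simp
    rw [e2] at h1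
    have h2 : τ * Real.log 2 ≤ τ * 1 := mul_le_mul_of_nonneg_left (by linarith [Real.log_two_lt_d9]) hτ0.le
    have h3 : τ ≤ t := by rw [hτ]; linarith
    linarith only [h1, h2, h3, t2]
  rcases le_or_gt (2 * τ * Om T) (max m C) with hc | hc
  · exact hf T τ hTT0 hτ0 hOm hc σ hσ0 hst hsy
  · refine hnz τ hτ0 hτ8 σ T hσ0 hst ?_ hsy
    have h1 : C < 2 * τ * Om T := (le_max_right _ _).trans_lt hc
    have e : 2 * τ * Om T = τ * Real.log T := by unfold Om; ring
    rw [e] at h1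
    have h2 : C / τ ≤ Real.log T := by
      rw [div_le_iff₀ hτ0]; linarith
    calc Real.exp (C / τ) ≤ Real.exp (Real.log T) := Real.exp_le_exp.2 h2
      _ = T := Real.exp_log hTp

/-- zeros of `XX` and of zeta -/
lemma af_iff {y : ℝ} (hy : 0 ≤ y) : AF 0 y ↔ Asy (1 / 2 + y) := by
  have hre : ∀ s : ℂ, (s - 1 / 2).re = s.re - 1 / 2 := Pool.Agent.H986R2.K4.XiAux.half_re
  have hkey : ∀ s : ℂ, 1 / 2 < s.re → (F 0 (s - 1 / 2) = 0 ↔ riemannZeta s = 0) := by
    intro s hs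
    rw [← F_xi, iteratedDeriv_zero, xi_zero (by linarith)]
  constructor
  · intro h ε hε
    refine ((h ε hε).image (fun z => z + 1 / 2)).subset ?_
    rintro s ⟨s1, s2⟩
    refine ⟨s - 1 / 2, ⟨?_, (hkey s (by linarith)).2 s2⟩, by simp⟩
    rw [hre]; linarith
  · intro h ε hε
    refine ((h ε hε).image (fun z => z - 1 / 2)).subset ?_
    rintro z ⟨z1, z2⟩
    have e : (z + 1 / 2 - 1 / 2 : ℂ) = z := by ring
    have hz : (z + 1 / 2).re = z.re + 1 / 2 := by
      have := hre (z + 1 / 2)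
      rw [e] at this
      linarith
    refine ⟨z + 1 / 2, ⟨by rw [hz]; linarith, ?_⟩, e⟩
    rw [← hkey _ (by rw [hz]; linarith), e]
    exact z2

lemma asy_one : Asy 1 := by
  intro ε hε
  convert Set.finite_empty (α := ℂ)
  rw [Set.eq_empty_iff_forall_notMem]
  rintro s ⟨s1, s2⟩
  exact riemannZeta_ne_zero_of_one_le_re (by linarith) s2

lemma part_fwd {θ : ℝ} (hθ : 1 / 2 ≤ θ) (h : Asy θ) (κ : ℝ) (hκ : 8 * (θ - 1 / 2) < κ) : Hor κ := by
  rcases lt_or_ge θ 1 with h1 | h1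
  · have hA : AF 0 (θ - 1 / 2) := by
      rw [af_iff (by linarith)]
      have e : 1 / 2 + (θ - 1 / 2) = θ := by ring
      rw [e]; exact h
    exact fwdA (by linarith) (by linarith) (ct_of_AF (by linarith) (by linarith) hA) κ hκ
  · exact fwdA (by norm_num) le_rfl ct_half κ (by linarith)

/-- the backward direction -/
lemma part_bwd {κ : ℝ} (hκ : 0 < κ) (h : Hor κ) : Asy (1 / 2 + κ / 4) := by
  rw [← af_iff (by positivity)]
  intro ε hε
  obtain ⟨t0, ht0, hh⟩ := h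
  obtain ⟨g, hg⟩ : ∃ g : ℝ, g = min ε 1 := ⟨_, rfl⟩
  have hg0 : 0 < g := by rw [hg]; exact lt_min hε one_pos
  have hg1 : g ≤ ε := by rw [hg]; exact min_le_left _ _
  have hg2 : g ≤ 1 := by rw [hg]; exact min_le_right _ _
  obtain ⟨T1, hT1, hb⟩ := bwd (κ / 4) (κ / 4 + g / 2) (g / 2) (by positivity) (by linarith)
    (by linarith) (by linarith)
  obtain ⟨T2, hT2, hO⟩ := Om_large (max (κ / g + 1) (κ / t0 + 1))
  have key : ∀ T : ℝ, max T1 T2 ≤ T → ∀ x : ℝ, κ / 4 + g ≤ x → x ≤ 2 → XX (x + I * T) ≠ 0 := by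
    intro T hT x hx1 hx2
    have g1 : T1 ≤ T := (le_max_left _ _).trans hT
    have g2 : T2 ≤ T := (le_max_right _ _).trans hT
    have hOm := hO T g2
    have hO1 : κ / g + 1 ≤ Om T := (le_max_left _ _).trans hOm
    have hO2 : κ / t0 + 1 ≤ Om T := (le_max_right _ _).trans hOm
    have hT400 : 400 ≤ T := hT2.trans g2
    have hTp : 0 < T := by linarith
    have hl2 := Real.log_two_lt_d9
    have hl2' := Real.log_two_gt_d9
    have elog : Real.log (T / 2) = 2 * Om T - Real.log 2 := by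
      rw [Real.log_div hTp.ne' (by norm_num)]
      unfold Om
      ring
    have hκg : 0 < κ / g := by positivity
    have hκt : 0 < κ / t0 := by positivity
    have hlp : 0 < Real.log (T / 2) := by rw [elog]; linarith
    obtain ⟨t, ht⟩ : ∃ t : ℝ, t = κ / Real.log (T / 2) := ⟨_, rfl⟩
    have htp : 0 < t := by rw [ht]; positivity
    have htt0 : t < t0 := by
      rw [ht, div_lt_iff₀ hlp, elog]
      have : κ = t0 * (κ / t0) := by field_simp
      nlinarith
    have hexp : Real.exp (κ / t) = T / 2 := by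
      have : κ / t = Real.log (T / 2) := by rw [ht]; field_simp
      rw [this, Real.exp_log (by linarith)]
    have e2 : 2 * (t / 4) * Om T = κ / 4 * (2 * Om T / Real.log (T / 2)) := by
      rw [ht]; field_simp
    refine hb T (t / 4) g1 (by linarith) ?_ ?_ ?_ x ?_ hx2
    · rw [e2]
      have : 1 ≤ 2 * Om T / Real.log (T / 2) := by
        rw [le_div_iff₀ hlp, elog]; linarith
      nlinarith
    · rw [e2]
      have h3 : κ / 4 * (2 * Om T / Real.log (T / 2)) = κ / 4 + κ / 4 * (Real.log 2 / Real.log (T / 2)) := by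
        rw [elog]
        rw [elog] at hlp
        field_simp
        ring
      rw [h3]
      have h4 : κ / 4 * (Real.log 2 / Real.log (T / 2)) ≤ g / 2 := by
        rw [← mul_div_assoc, div_le_iff₀ hlp, elog]
        have : κ = g * (κ / g) := by field_simp
        nlinarith
      linarith
    · intro w hw0 hw1 hw2 hw3
      have hz : Ht t (-(2 * I) * w) = 0 := by
        rw [Ht_XT htp.le]
        have e : I * (-(2 * I) * w) / 2 = w := by
          have : I * (-(2 * I) * w) / 2 = -(I * I) * w := by ring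
          rw [this, Complex.I_mul_I]; ring
        rw [e]; exact hw3
      have hzr : (-(2 * I) * w).re = 2 * w.im := by simp
      have hzi : (-(2 * I) * w).im = -(2 * w.re) := by simp
      have h3 := hh t htp htt0 _ hz (by
        rw [hexp, hzr, abs_of_nonneg (by linarith)]
        linarith)
      rw [hzi] at h3
      linarith
    · rw [e2]
      have h3 : κ / 4 * (2 * Om T / Real.log (T / 2)) = κ / 4 + κ / 4 * (Real.log 2 / Real.log (T / 2)) := by
        rw [elog]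
        rw [elog] at hlp
        field_simp
        ring
      rw [h3]
      have h4 : κ / 4 * (Real.log 2 / Real.log (T / 2)) ≤ g / 2 := by
        rw [← mul_div_assoc, div_le_iff₀ hlp, elog]
        have : κ = g * (κ / g) := by field_simp
        nlinarith
      linarith
  refine (F_fin 0 (κ / 4) (1 / 2) (max T1 T2)).subset fun z hz => ?_
  obtain ⟨h1, h2⟩ := hz
  have h3 := (abs_le.1 (F_half h2)).2
  refine ⟨by linarith, h3, ?_, h2⟩
  by_contra hc
  push Not at hc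
  have e0 : ∀ v : ℂ, F 0 v = XX v := fun v => by rw [F_zero]
  rcases le_total 0 z.im with h4 | h4
  · rw [abs_of_nonneg h4] at hc
    apply key z.im hc.le z.re (by linarith) (by linarith)
    have e : ((z.re : ℝ) : ℂ) + I * (z.im : ℂ) = z := by
      apply Complex.ext <;> simp
    rw [e, ← e0]; exact h2
  · rw [abs_of_nonpos h4] at hc
    apply key (-z.im) hc.le z.re (by linarith) (by linarith)
    have e : ((z.re : ℝ) : ℂ) + I * ((-z.im : ℝ) : ℂ) = (starRingEnd ℂ) z := by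
      apply Complex.ext <;> simp
    rw [e, ← e0, F_conj, h2, map_zero]

theorem main :
    (∀ κ : ℝ, 4 < κ → Hor κ) ∧
    (∀ θ : ℝ, 1 / 2 ≤ θ → Asy θ → ∀ κ : ℝ, 8 * (θ - 1 / 2) < κ → Hor κ) ∧
    (∀ κ : ℝ, 0 < κ → Hor κ → Asy (1 / 2 + κ / 4)) ∧
    ((∀ κ : ℝ, 0 < κ → Hor κ) ↔ Asy (1 / 2)) ∧
    (∀ κ : ℝ, 0 < κ → κ < 2 → Hor κ → ∃ θ : ℝ, θ < 1 ∧ ∀ s : ℂ, θ < s.re → riemannZeta s ≠ 0) := by
  refine ⟨fun κ hκ => part_fwd (by norm_num) asy_one κ (by linarith), fun θ hθ h κ hκ => part_fwd hθ h κ hκ,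
    fun κ hκ h => part_bwd hκ h, ⟨fun h => ?_, fun h κ hκ => part_fwd le_rfl h κ (by linarith)⟩, ?_⟩
  · intro ε hε
    have h1 := part_bwd (κ := 2 * ε) (by linarith) (h _ (by linarith)) (ε / 2) (by linarith)
    refine h1.subset ?_
    rintro s ⟨s1, s2⟩
    exact ⟨by linarith, s2⟩
  · intro κ h0 h2 h
    have h1 := part_bwd h0 h
    rw [← af_iff (by positivity)] at h1
    rw [Pool.Agent.W186.DX.q1 0]
    have h3 := h1 ((1 / 2 - κ / 4) / 2) (by linarith)
    refine ⟨1 / 2 + (κ / 4 + (1 / 2 - κ / 4) / 2), by linarith, ?_⟩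
    refine (h3.image (fun z => z + 1 / 2)).subset ?_
    rintro s ⟨s1, s2⟩
    refine ⟨s - 1 / 2, ⟨?_, (F_xi 0 s).1 s2⟩, by simp⟩
    rw [Pool.Agent.H986R2.K4.XiAux.half_re]
    linarith

end Pool.Agent.W186.HZ
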