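import Pool.Agent.H986R2.DBN.Ker

set_option autoImplicit false

/-!
# The backward heat flow: `XX` from `XT τ`
-/

namespace Pool.Agent.W186.HZ

open Complex Filter Topology MeasureTheory Set
open Pool.Agent.H24R2.JP (XX HH Om)
open Pool.Agent.H24R2.JP
open Pool.Agent.H986R2.DBN (XT Cl_w)
open Pool.Agent.Helper242.KK (Ph Ph_even Ph_pos Ph_upper continuous_Ph)

/-- the integrand of the double integral -/
noncomputable def GI (τ : ℝ) (z w0 : ℂ) (y u : ℝ) : ℂ :=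
  cexp (-((w0 + y) ^ 2 / (4 * τ))) *
    (((Ph u * Real.exp (τ * u ^ 2) : ℝ) : ℂ) * cexp ((z + I * (w0 + y)) * u))

lemma GI_cont (τ : ℝ) (z w0 : ℂ) : Continuous (Function.uncurry (GI τ z w0)) := by
  have h1 : Continuous (fun p : ℝ × ℝ => ((Ph p.2 * Real.exp (τ * p.2 ^ 2) : ℝ) : ℂ)) :=
    Complex.continuous_ofReal.comp ((continuous_Ph.comp continuous_snd).mul (by fun_prop))
  have h2 : Continuous (fun p : ℝ × ℝ => cexp (-((w0 + (p.1 : ℂ)) ^ 2 / (4 * (τ : ℂ))))) := by fun_prop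
  have h3 : Continuous (fun p : ℝ × ℝ => cexp ((z + I * (w0 + (p.1 : ℂ))) * (p.2 : ℂ))) := by fun_prop
  exact h2.mul (h1.mul h3)

lemma quad_int {τ : ℝ} (hτ : 0 < τ) (w0 : ℂ) : Integrable (fun y : ℝ => cexp (-((w0 + y) ^ 2 / (4 * τ)))) := by
  have h := integrable_cexp_quadratic' (b := -(1 / (4 * (τ : ℂ)))) (by
    have : (-(1 / (4 * (τ : ℂ)))) = ((-(1 / (4 * τ)) : ℝ) : ℂ) := by push_cast; ring
    rw [this, Complex.ofReal_re]
    have : 0 < 1 / (4 * τ) := by positivity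
    linarith) (-(w0 / (2 * τ))) (-(w0 ^ 2 / (4 * τ)))
  refine h.congr (Eventually.of_forall fun y => ?_)
  simp only
  have hτ' : (τ : ℂ) ≠ 0 := by exact_mod_cast hτ.ne'
  congr 1
  field_simp
  ring

lemma GI_int {τ : ℝ} (hτ : 0 < τ) (z w0 : ℂ) :
    Integrable (Function.uncurry (GI τ z w0)) (volume.prod volume) := by
  have i1 := (quad_int hτ w0).norm
  have i2 := (MomAux.L_integrable (Cl_w τ hτ.le) ((z.re - w0.im : ℝ) : ℂ)).norm
  refine Integrable.mono' (i1.mul_prod i2) (GI_cont τ z w0).aestronglyMeasurable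
    (Eventually.of_forall fun p => ?_)
  obtain ⟨y, u⟩ := p
  simp only [Function.uncurry]
  unfold GI
  rw [norm_mul]
  apply mul_le_mul_of_nonneg_left _ (norm_nonneg _)
  rw [norm_mul, norm_mul]
  apply mul_le_mul_of_nonneg_left _ (norm_nonneg _)
  rw [Complex.norm_exp, Complex.norm_exp]
  apply le_of_eq
  congr 1
  simp [sub_eq_add_neg]

lemma GI_inner {τ : ℝ} (hτ : 0 < τ) (z w0 : ℂ) (u : ℝ) : ∫ y : ℝ, GI τ z w0 y u =
    (Real.pi / (1 / (4 * (τ : ℂ)))) ^ (1 / 2 : ℂ) * (((Ph u : ℝ) : ℂ) * cexp (z * u)) := by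
  have hτ' : (τ : ℂ) ≠ 0 := by exact_mod_cast hτ.ne'
  have e1 : ∀ y : ℝ, GI τ z w0 y u = ((Ph u : ℝ) : ℂ) * cexp (-(1 / (4 * (τ : ℂ))) * (y : ℂ) ^ 2 +
      (-(w0 / (2 * τ)) + I * u) * y + (-(w0 ^ 2 / (4 * τ)) + (z + I * w0) * u + τ * u ^ 2)) := by
    intro y
    unfold GI
    rw [Complex.ofReal_mul, Complex.ofReal_exp]
    have : cexp (-((w0 + y) ^ 2 / (4 * τ))) * ((((Ph u : ℝ) : ℂ) * cexp ((τ * u ^ 2 : ℝ) : ℂ)) *
        cexp ((z + I * (w0 + y)) * u)) = ((Ph u : ℝ) : ℂ) * (cexp (-((w0 + y) ^ 2 / (4 * τ))) *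
        cexp ((τ * u ^ 2 : ℝ) : ℂ) * cexp ((z + I * (w0 + y)) * u)) := by ring
    rw [this, ← Complex.exp_add, ← Complex.exp_add]
    congr 2
    push_cast
    field_simp
    ring
  simp only [e1]
  rw [integral_const_mul, integral_cexp_quadratic (by
    have : (-(1 / (4 * (τ : ℂ)))) = ((-(1 / (4 * τ)) : ℝ) : ℂ) := by push_cast; ring
    rw [this, Complex.ofReal_re]
    have : 0 < 1 / (4 * τ) := by positivity
    linarith)]
  rw [neg_neg]
  have e2 : (-(w0 ^ 2 / (4 * τ)) + (z + I * w0) * u + τ * u ^ 2) -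
      (-(w0 / (2 * τ)) + I * u) ^ 2 / (4 * -(1 / (4 * (τ : ℂ)))) = z * u := by
    field_simp
    ring_nf
    rw [Complex.I_sq]
    ring
  rw [e2]
  ring

/-- the backward heat flow -/
lemma inv_heat {τ : ℝ} (hτ : 0 < τ) (z w0 : ℂ) :
    Integrable (fun y : ℝ => cexp (-((w0 + y) ^ 2 / (4 * τ))) * XT τ (z + I * (w0 + y))) ∧
    ∫ y : ℝ, cexp (-((w0 + y) ^ 2 / (4 * τ))) * XT τ (z + I * (w0 + y)) =
      (Real.pi / (1 / (4 * (τ : ℂ)))) ^ (1 / 2 : ℂ) * XX z := by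
  have hF := GI_int hτ z w0
  have h1 : (fun y : ℝ => cexp (-((w0 + y) ^ 2 / (4 * τ))) * XT τ (z + I * (w0 + y))) =
      fun y => 8 * ∫ u : ℝ, GI τ z w0 y u := by
    funext y
    unfold XT GI
    rw [integral_const_mul]
    ring
  refine ⟨?_, ?_⟩
  · rw [h1]
    exact hF.integral_prod_left.const_mul 8
  · rw [h1, integral_const_mul]
    have h2 : ∫ y : ℝ, ∫ u : ℝ, GI τ z w0 y u = ∫ u : ℝ, ∫ y : ℝ, GI τ z w0 y u :=
      integral_integral_swap hF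
    rw [h2]
    simp only [GI_inner hτ z w0]
    rw [integral_const_mul, MomAux.XX_eq]
    unfold MomAux.L
    ring

/-- trivial bound -/
lemma XT_bd : ∃ C : ℝ, 1 ≤ C ∧ ∀ (τ : ℝ) (w : ℂ), 0 ≤ τ → τ ≤ 1 / 8 → |w.re| ≤ 3 → ‖XT τ w‖ ≤ C := by
  obtain ⟨-, hCl⟩ := Cl_w (1 / 8) (by norm_num)
  obtain ⟨C, hC⟩ := hCl 3
  have hi : Integrable (fun u : ℝ => C * Real.exp (-1 * u ^ 2)) :=
    (integrable_exp_neg_mul_sq one_pos).const_mul C
  refine ⟨max 1 (8 * ∫ u : ℝ, C * Real.exp (-1 * u ^ 2)), le_max_left _ _, ?_⟩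
  intro τ w h0 h1 hw
  refine le_trans ?_ (le_max_right _ _)
  unfold XT
  rw [norm_mul]
  have e8 : ‖(8 : ℂ)‖ = 8 := by norm_num
  rw [e8]
  apply mul_le_mul_of_nonneg_left _ (by norm_num)
  refine norm_integral_le_of_norm_le hi (Eventually.of_forall fun u => ?_)
  refine (MomAux.L_norm_le (fun u => Ph u * Real.exp (τ * u ^ 2)) w u).trans ?_
  refine le_trans ?_ (hC u)
  simp only [abs_mul, abs_of_pos (Real.exp_pos _)]
  have a1 : Real.exp (τ * u ^ 2) ≤ Real.exp (1 / 8 * u ^ 2) := by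
    apply Real.exp_le_exp.2
    exact mul_le_mul_of_nonneg_right h1 (sq_nonneg u)
  have a2 : Real.exp (|w.re| * |u|) ≤ Real.exp (3 * |u|) := by
    apply Real.exp_le_exp.2
    exact mul_le_mul_of_nonneg_right hw (abs_nonneg u)
  gcongr

end Pool.Agent.W186.HZ
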