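import Pool.Agent.W186.HZ.HG
import Pool.Agent.W186.HZ.Inv

set_option autoImplicit false

/-!
# The backward direction: pointwise bounds
-/

namespace Pool.Agent.W186.HZ

open Complex Filter Topology MeasureTheory Set
open Pool.Agent.H24R2.JP (XX HH Om)
open Pool.Agent.H24R2.JP.StirAux
open Pool.Agent.H986R2.DBN (JT XT)

/-- the middle part of an integral -/
lemma whole {f : ℝ → ℂ} {r a B : ℝ} (hf : Integrable f) (hr : 0 < r) (hB : 0 ≤ B)
    (hb : ∀ y : ℝ, r ≤ |y| → ‖f y‖ ≤ B * Real.exp (-(a + y) ^ 2)) :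
    ‖∫ y in (-r)..r, f y‖ ≤ ‖∫ y : ℝ, f y‖ + 2 * B := by
  have hg : Integrable (fun y : ℝ => Real.exp (-(a + y) ^ 2)) := by
    have h1 := (integrable_exp_neg_mul_sq one_pos).comp_add_left a
    refine h1.congr (Eventually.of_forall fun y => ?_)
    simp
  have hgi : ∫ y : ℝ, Real.exp (-(a + y) ^ 2) = Real.sqrt Real.pi := by
    have h1 := integral_add_left_eq_self (μ := (volume : Measure ℝ)) (fun v : ℝ => Real.exp (-v ^ 2)) a
    rw [h1]
    have h2 := integral_gaussian 1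
    rw [div_one] at h2
    rw [← h2]
    refine integral_congr_ae (Eventually.of_forall fun v => ?_)
    simp
  have h1 : ∫ y : ℝ, f y = (∫ y in Ioc (-r) r, f y) + ∫ y in (Ioc (-r) r)ᶜ, f y :=
    (integral_add_compl measurableSet_Ioc hf).symm
  rw [intervalIntegral.integral_of_le (by linarith)]
  have h2 : ∫ y in Ioc (-r) r, f y = (∫ y : ℝ, f y) - ∫ y in (Ioc (-r) r)ᶜ, f y := by
    rw [h1]; ring
  rw [h2]
  refine (norm_sub_le _ _).trans ?_
  apply add_le_add_right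
  have h3 : ‖∫ y in (Ioc (-r) r)ᶜ, f y‖ ≤ ∫ y in (Ioc (-r) r)ᶜ, B * Real.exp (-(a + y) ^ 2) := by
    apply norm_integral_le_of_norm_le (hg.const_mul B).integrableOn
    rw [ae_restrict_iff' measurableSet_Ioc.compl]
    refine Eventually.of_forall fun y hy => hb y ?_
    by_contra hc
    push Not at hc
    rw [abs_lt] at hc
    exact hy ⟨hc.1, hc.2.le⟩
  refine h3.trans ?_
  have h4 : ∫ y in (Ioc (-r) r)ᶜ, B * Real.exp (-(a + y) ^ 2) ≤ ∫ y : ℝ, B * Real.exp (-(a + y) ^ 2) :=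
    setIntegral_le_integral (hg.const_mul B) (Eventually.of_forall fun y => by positivity)
  refine h4.trans ?_
  rw [integral_const_mul, hgi]
  have hπ2 : Real.sqrt Real.pi ≤ 2 := by
    rw [Real.sqrt_le_left (by norm_num)]; linarith [Real.pi_le_four]
  rw [mul_comm]
  exact mul_le_mul_of_nonneg_right hπ2 hB

/-- bounds at all heights between `T/2` and `3T/2` -/
lemma pw (m X ε : ℝ) (hm : 0 < m) (hX : m ≤ X) (hε : 0 < ε) (hε4 : ε ≤ 1 / 4) : ∃ T0 : ℝ, 400 ≤ T0 ∧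
    ∀ T τ : ℝ, T0 ≤ T → 0 < τ → m ≤ 2 * τ * Om T → 2 * τ * Om T ≤ X →
      (∀ w : ℂ, 0 < w.re → T / 2 - 10 ≤ w.im → w.im ≤ 2 * T → XT τ w ≠ 0) →
      ∀ h : ℝ, |h| ≤ T / 2 → ∀ σ : ℝ, ε ≤ σ → σ ≤ 3 →
      ‖logDeriv (XT τ) (σ + I * ((T + h : ℝ) : ℂ)) - (Om T : ℂ)‖ ≤ ε * Om T + 1 ∧
      Real.exp (Om T * σ + τ * Om T ^ 2 - (X + 3) - ε * Om T - |h|) * ‖HH (I * T)‖ ≤
        ‖XT τ (σ + I * ((T + h : ℝ) : ℂ))‖ ∧
      ‖XT τ (σ + I * ((T + h : ℝ) : ℂ))‖ ≤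
        Real.exp (Om T * σ + τ * Om T ^ 2 + (X + 3) + ε * Om T + |h|) * ‖HH (I * T)‖ := by
  obtain ⟨T1, hT1, hw⟩ := wt (m / 2) (2 * X) ε (by linarith) (by linarith) hε hε4
  obtain ⟨T2, hT2, hHm⟩ := HH_move
  obtain ⟨T4, hT4, hO⟩ := Om_large 1
  refine ⟨max (max (2 * T1) (2 * T2)) T4, hT4.trans (le_max_right _ _), ?_⟩
  intro T τ hT hτ h1 h2 hz h hh σ hσ0 hσ1
  have g1 : 2 * T1 ≤ T := ((le_max_left _ _).trans (le_max_left _ _)).trans hT
  have g2 : 2 * T2 ≤ T := ((le_max_right _ _).trans (le_max_left _ _)).trans hT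
  have g4 : T4 ≤ T := (le_max_right _ _).trans hT
  have hO2 := hO T g4
  have hT400 : 400 ≤ T := hT4.trans g4
  obtain ⟨T', hT'⟩ : ∃ T' : ℝ, T' = T + h := ⟨_, rfl⟩
  have hh' := abs_le.1 hh
  have hOn := Om_half (T' := T') hT400 (by rw [hT', add_sub_cancel_left]; exact hh)
  rw [abs_le] at hOn
  obtain ⟨L, hL⟩ : ∃ L : ℝ, L = Om T := ⟨_, rfl⟩
  obtain ⟨L', hL'⟩ : ∃ L' : ℝ, L' = Om T' := ⟨_, rfl⟩
  rw [← hL, ← hL'] at hOn
  rw [← hL] at h1 h2 hO2 ⊢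
  rw [← hT']
  have hτX : τ * L ≤ X / 2 := by linarith only [h2]
  have hτ1 : τ ≤ X / 2 := by
    have : τ * 1 ≤ τ * L := mul_le_mul_of_nonneg_left hO2 hτ.le
    linarith only [this, hτX]
  have h1' : m / 2 ≤ 2 * τ * L' := by
    have : 2 * τ * (1 / 2 * L) ≤ 2 * τ * L' := by
      apply mul_le_mul_of_nonneg_left _ (by positivity)
      linarith only [hOn.1, hO2]
    linarith only [this, h1]
  have h2' : 2 * τ * L' ≤ 2 * X := by
    have : 2 * τ * L' ≤ 2 * τ * (2 * L) := by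
      apply mul_le_mul_of_nonneg_left _ (by positivity)
      linarith only [hOn.2, hO2]
    linarith only [this, h2]
  rw [hL'] at h1' h2'
  obtain ⟨k1, k2, k3⟩ := hw T' τ (by linarith) hτ h1' h2' (by
    intro w hw0 hw1
    rw [abs_le] at hw1
    exact hz w hw0 (by linarith) (by linarith)) σ hσ0 hσ1
  rw [← hL'] at k1 k2 k3
  have m1 := hHm T h (by linarith) (by linarith)
  have m2 := hHm (T + h) (-h) (by linarith) (by linarith)
  rw [← hT', abs_neg, hT', add_neg_cancel_right, ← hT'] at m2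
  rw [← hT'] at m1
  have hH0 : 0 ≤ ‖HH (I * T)‖ := norm_nonneg _
  have hH1 : 0 ≤ ‖HH (I * T')‖ := norm_nonneg _
  have q1 : |τ * (L' ^ 2 - L ^ 2)| ≤ X := by
    have e : τ * (L' ^ 2 - L ^ 2) = (L' - L) * (τ * (L' + L)) := by ring
    have hL'0 : 0 < L' := by linarith only [hOn.1, hO2]
    rw [e, abs_mul, abs_of_pos (by positivity : 0 < τ * (L' + L))]
    have a1 : |L' - L| ≤ 1 / 2 := abs_le.2 ⟨by linarith only [hOn.1], by linarith only [hOn.2]⟩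
    have a2 : τ * (L' + L) ≤ 2 * X := by
      have : τ * (L' + L) ≤ τ * (2 * L + 1) := mul_le_mul_of_nonneg_left (by linarith only [hOn.2]) hτ.le
      linarith only [this, hτX, hτ1, hm, hX]
    calc |L' - L| * (τ * (L' + L)) ≤ 1 / 2 * (2 * X) := by
          apply mul_le_mul a1 a2 (by positivity) (by norm_num)
      _ = X := by ring
  rw [abs_le] at q1
  have hσp : 0 ≤ σ := by linarith only [hσ0, hε]
  have q2 : ε * L' ≤ ε * (L + 1 / 2) := mul_le_mul_of_nonneg_left (by linarith only [hOn.2]) hε.le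
  have q3 : (L' - L) * σ ≤ 1 / 2 * σ := mul_le_mul_of_nonneg_right hOn.2 hσp
  have q4 : -(1 / 2) * σ ≤ (L' - L) * σ := mul_le_mul_of_nonneg_right hOn.1 hσp
  refine ⟨?_, ?_, ?_⟩
  · have e : logDeriv (XT τ) (σ + I * T') - (L : ℂ) = (logDeriv (XT τ) (σ + I * T') - (L' : ℂ)) +
        ((L' - L : ℝ) : ℂ) := by push_cast; ring
    rw [e]
    refine (norm_add_le _ _).trans ?_
    have e2 : ‖((L' - L : ℝ) : ℂ)‖ ≤ 1 / 2 := by
      rw [Complex.norm_real, Real.norm_eq_abs, abs_le]; exact ⟨by linarith only [hOn.1], by linarith only [hOn.2]⟩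
    linarith only [k1, e2, q2, hε4]
  · refine le_trans ?_ k2
    calc Real.exp (L * σ + τ * L ^ 2 - (X + 3) - ε * L - |h|) * ‖HH (I * T)‖
        ≤ Real.exp (L * σ + τ * L ^ 2 - (X + 3) - ε * L - |h|) * (Real.exp |h| * ‖HH (I * T')‖) :=
          mul_le_mul_of_nonneg_left m2 (Real.exp_pos _).le
      _ = Real.exp (L * σ + τ * L ^ 2 - (X + 3) - ε * L) * ‖HH (I * T')‖ := by
          rw [← mul_assoc, ← Real.exp_add]
          congr 2
          ring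
      _ ≤ _ := by
          apply mul_le_mul_of_nonneg_right _ hH1
          apply Real.exp_le_exp.2
          linarith only [q1.1, q2, q4, hσ1, hε4, hε]
  · refine k3.trans ?_
    calc Real.exp (L' * (σ + τ * L' + ε)) * ‖HH (I * T')‖
        ≤ Real.exp (L * σ + τ * L ^ 2 + (X + 3) + ε * L) * (Real.exp |h| * ‖HH (I * T)‖) := by
          apply mul_le_mul _ m1 hH1 (Real.exp_pos _).le
          apply Real.exp_le_exp.2
          linarith only [q1.2, q2, q3, hσ1, hε4, hε]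
      _ = _ := by
          rw [← mul_assoc, ← Real.exp_add]

/-- bound away from the saddle, at moderate distance -/
lemma out_near {m X r0 κ ε τ L b h σ0 N H : ℝ} (hτ : 0 < τ) (hX : 0 < X) (h2 : 2 * τ * L ≤ X)
    (hL : 0 < L) (hr0 : 0 < r0) (hh : r0 ≤ |h|) (hκ : κ = r0 ^ 2 / (20 * X)) (hε : ε ≤ κ / 4)
    (hX3 : X + 3 ≤ κ / 4 * L) (hr1 : 1 + 1 / r0 ≤ 1 / (8 * τ)) (hH : 0 ≤ H)
    (hN : N ≤ Real.exp (L * σ0 + τ * L ^ 2 + (X + 3) + ε * L + |h|) * H) :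
    Real.exp (-((h ^ 2 - b ^ 2) / (4 * τ))) * N ≤
      Real.exp (b ^ 2 / (4 * τ) + L * σ0 + τ * L ^ 2 - 3 * κ * L) * H * Real.exp (-h ^ 2) := by
  have hκ0 : 0 < κ := by rw [hκ]; positivity
  have e1 : 5 * κ * L ≤ h ^ 2 / (8 * τ) := by
    rw [le_div_iff₀ (by positivity), hκ]
    have a1 : r0 ^ 2 ≤ h ^ 2 := by
      rw [← sq_abs h]
      exact pow_le_pow_left₀ hr0.le hh 2
    have a2 : 5 * (r0 ^ 2 / (20 * X)) * L * (8 * τ) = r0 ^ 2 * ((2 * τ * L) / X) := by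
      field_simp
      ring
    rw [a2]
    have a3 : (2 * τ * L) / X ≤ 1 := (div_le_one hX).2 h2
    have a4 : 0 ≤ (2 * τ * L) / X := by positivity
    calc r0 ^ 2 * ((2 * τ * L) / X) ≤ r0 ^ 2 * 1 := mul_le_mul_of_nonneg_left a3 (sq_nonneg _)
      _ ≤ h ^ 2 := by rw [mul_one]; exact a1
  have e2 : h ^ 2 + |h| ≤ h ^ 2 / (8 * τ) := by
    have a1 : |h| ≤ h ^ 2 * (1 / r0) := by
      rw [mul_one_div, le_div_iff₀ hr0, ← sq_abs h, sq]
      exact mul_le_mul_of_nonneg_left hh (abs_nonneg h)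
    calc h ^ 2 + |h| ≤ h ^ 2 * (1 + 1 / r0) := by rw [mul_add, mul_one]; linarith only [a1]
      _ ≤ h ^ 2 * (1 / (8 * τ)) := mul_le_mul_of_nonneg_left hr1 (sq_nonneg _)
      _ = _ := by rw [mul_one_div]
  have e3 : (h ^ 2 - b ^ 2) / (4 * τ) = h ^ 2 / (8 * τ) + h ^ 2 / (8 * τ) - b ^ 2 / (4 * τ) := by
    field_simp
    ring
  calc Real.exp (-((h ^ 2 - b ^ 2) / (4 * τ))) * N
      ≤ Real.exp (-((h ^ 2 - b ^ 2) / (4 * τ))) *
        (Real.exp (L * σ0 + τ * L ^ 2 + (X + 3) + ε * L + |h|) * H) :=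
        mul_le_mul_of_nonneg_left hN (Real.exp_pos _).le
    _ = Real.exp (-((h ^ 2 - b ^ 2) / (4 * τ)) + (L * σ0 + τ * L ^ 2 + (X + 3) + ε * L + |h|)) * H := by
        rw [← mul_assoc, ← Real.exp_add]
    _ ≤ Real.exp (b ^ 2 / (4 * τ) + L * σ0 + τ * L ^ 2 - 3 * κ * L + -h ^ 2) * H := by
        apply mul_le_mul_of_nonneg_right _ hH
        apply Real.exp_le_exp.2
        rw [e3]
        have : ε * L ≤ κ / 4 * L := mul_le_mul_of_nonneg_right hε hL.le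
        have hκL : 0 < κ * L := by positivity
        linarith only [e1, e2, this, hX3, hκL]
    _ = _ := by rw [Real.exp_add _ (-h ^ 2)]; ring

/-- bound away from the saddle, at large distance -/
lemma out_far {X κ K C τ L b h σ0 N H T : ℝ} (hτ : 0 < τ) (hT : 2 ≤ T) (hh : T / 2 ≤ |h|)
    (hL : 0 < L) (hLT : L ≤ T) (hC : 1 ≤ C) (hκ : 0 < κ) (hK : 0 ≤ K) (hσ0 : 0 ≤ σ0)
    (hb1 : 1 + C + 6 * κ + 2 * K ≤ 1 / (4 * τ)) (hH : Real.exp (-(K * T)) ≤ H)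
    (hN : N ≤ C) :
    Real.exp (-((h ^ 2 - b ^ 2) / (4 * τ))) * N ≤
      Real.exp (b ^ 2 / (4 * τ) + L * σ0 + τ * L ^ 2 - 3 * κ * L) * H * Real.exp (-h ^ 2) := by
  have hh1 : 1 ≤ |h| := by linarith only [hT, hh]
  have hh2 : |h| ≤ h ^ 2 := by
    rw [← sq_abs h, sq]
    calc |h| = |h| * 1 := (mul_one _).symm
      _ ≤ |h| * |h| := mul_le_mul_of_nonneg_left hh1 (abs_nonneg _)
  have e1 : h ^ 2 + C + 3 * κ * L + K * T ≤ h ^ 2 / (4 * τ) := by
    have a1 : h ^ 2 * (1 + C + 6 * κ + 2 * K) ≤ h ^ 2 * (1 / (4 * τ)) :=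
      mul_le_mul_of_nonneg_left hb1 (sq_nonneg _)
    rw [mul_one_div] at a1
    have a2 : C * 1 ≤ C * h ^ 2 := mul_le_mul_of_nonneg_left (by linarith only [hh1, hh2]) (by linarith only [hC])
    have a3 : 3 * κ * L ≤ 3 * κ * (2 * h ^ 2) :=
      mul_le_mul_of_nonneg_left (by linarith only [hLT, hh, hh2]) (by positivity)
    have a4 : K * T ≤ K * (2 * h ^ 2) := mul_le_mul_of_nonneg_left (by linarith only [hh, hh2]) hK
    linarith only [a1, a2, a3, a4]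
  have e3 : (h ^ 2 - b ^ 2) / (4 * τ) = h ^ 2 / (4 * τ) - b ^ 2 / (4 * τ) := by ring
  have e4 : C ≤ Real.exp C := by
    have := Real.add_one_le_exp C
    linarith only [this]
  have hLσ : 0 ≤ L * σ0 := by positivity
  have hτL : 0 ≤ τ * L ^ 2 := by positivity
  calc Real.exp (-((h ^ 2 - b ^ 2) / (4 * τ))) * N
      ≤ Real.exp (-((h ^ 2 - b ^ 2) / (4 * τ))) * Real.exp C :=
        mul_le_mul_of_nonneg_left (hN.trans e4) (Real.exp_pos _).le
    _ = Real.exp (-((h ^ 2 - b ^ 2) / (4 * τ)) + C) := by rw [← Real.exp_add]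
    _ ≤ Real.exp ((b ^ 2 / (4 * τ) + L * σ0 + τ * L ^ 2 - 3 * κ * L) + -(K * T) + -h ^ 2) := by
        apply Real.exp_le_exp.2
        rw [e3]
        linarith only [e1, hLσ, hτL]
    _ = Real.exp (b ^ 2 / (4 * τ) + L * σ0 + τ * L ^ 2 - 3 * κ * L) * Real.exp (-(K * T)) * Real.exp (-h ^ 2) := by
        rw [Real.exp_add _ (-h ^ 2), Real.exp_add _ (-(K * T))]
    _ ≤ _ := by
        apply mul_le_mul_of_nonneg_right _ (Real.exp_pos _).le
        exact mul_le_mul_of_nonneg_left hH (Real.exp_pos _).le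

/-- lower bound at the saddle -/
lemma mid {m X κ θ ε τ L a b σ0 N H : ℝ} (hτ : 0 < τ) (hm : 0 < m) (h1 : m ≤ 2 * τ * L)
    (hL : 0 < L) (ha : |a| ≤ θ) (hθ : θ ^ 2 / (2 * m) ≤ κ / 4) (hθ1 : θ ≤ 1) (hε : ε ≤ κ / 4)
    (hX3 : X + 4 ≤ κ / 4 * L) (hκ : 0 < κ) (hH : 0 ≤ H)
    (hN : Real.exp (L * σ0 + τ * L ^ 2 - (X + 3) - ε * L - |a|) * H ≤ N) :
    Real.exp (b ^ 2 / (4 * τ) + L * σ0 + τ * L ^ 2 - κ * L) * H ≤
      Real.exp (-((a ^ 2 - b ^ 2) / (4 * τ))) * N := by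
  have e1 : a ^ 2 / (4 * τ) ≤ κ / 4 * L := by
    have a1 : a ^ 2 ≤ θ ^ 2 := by
      rw [← sq_abs a]
      exact pow_le_pow_left₀ (abs_nonneg _) ha 2
    rw [div_le_iff₀ (by positivity)] at hθ ⊢
    have a2 : κ / 4 * (2 * m) ≤ κ / 4 * (2 * (2 * τ * L)) :=
      mul_le_mul_of_nonneg_left (by linarith only [h1]) (by positivity)
    linarith only [a1, a2, hθ]
  have e3 : (a ^ 2 - b ^ 2) / (4 * τ) = a ^ 2 / (4 * τ) - b ^ 2 / (4 * τ) := by ring
  calc Real.exp (b ^ 2 / (4 * τ) + L * σ0 + τ * L ^ 2 - κ * L) * H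
      ≤ Real.exp (-((a ^ 2 - b ^ 2) / (4 * τ)) + (L * σ0 + τ * L ^ 2 - (X + 3) - ε * L - |a|)) * H := by
        apply mul_le_mul_of_nonneg_right _ hH
        apply Real.exp_le_exp.2
        rw [e3]
        have : ε * L ≤ κ / 4 * L := mul_le_mul_of_nonneg_right hε hL.le
        have hκL : 0 < κ * L := by positivity
        linarith only [e1, this, hX3, hκL, ha, hθ1]
    _ = Real.exp (-((a ^ 2 - b ^ 2) / (4 * τ))) *
        (Real.exp (L * σ0 + τ * L ^ 2 - (X + 3) - ε * L - |a|) * H) := by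
        rw [← mul_assoc, ← Real.exp_add]
    _ ≤ _ := mul_le_mul_of_nonneg_left hN (Real.exp_pos _).le

end Pool.Agent.W186.HZ
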