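import Pool.Agent.W186.HZ.WT
import Pool.Agent.W186.DX.HD

set_option autoImplicit false

/-!
# Growth of the gamma factor downwards
-/

namespace Pool.Agent.W186.HZ

open Complex Filter Topology MeasureTheory Set
open Pool.Agent.H24R2.JP (XX HH Om)
open Pool.Agent.H24R2.JP.StirAux
open Pool.Agent.W186.DX (decay HH_decay)

/-- The imaginary part of the logarithmic derivative of the gamma factor. -/
lemma im_ld_up : ∃ T0 : ℝ, 400 ≤ T0 ∧ ∀ z : ℂ, 0 ≤ z.re → z.re ≤ 3 → T0 ≤ z.im →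
    (logDeriv HH z).im ≤ 1 := by
  refine ⟨400, le_rfl, fun z h0 h3 hT => ?_⟩
  have hpos : 0 < z.im := by linarith
  rw [ld_eq hpos]
  obtain ⟨s, hs⟩ : ∃ s : ℂ, s = (1 / 2 + z) / 2 := ⟨_, rfl⟩
  have hsre : s.re = (1 / 2 + z.re) / 2 := by rw [hs]; simp
  have hsim : s.im = z.im / 2 := by rw [hs]; simp
  have hs0 : 0 < s.re := by rw [hsre]; linarith
  have hs4 : s.re ≤ 4 := by rw [hsre]; linarith
  have hs12 : 12 ≤ s.im := by rw [hsim]; linarith
  have hsim0 : 0 < s.im := by linarith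
  have b1 := H345.Chi.log_close hs0 hs4 hs12
  have b2 := H345.Chi.tsum_er_le hs0 (by linarith : 1 ≤ s.im)
  have hdg := H370.DG.logDeriv_Gamma' hs0
  have b4 : ‖1 / s‖ ≤ 1 / s.im := by
    rw [norm_div, norm_one]
    apply one_div_le_one_div_of_le hsim0
    exact (le_abs_self _).trans (abs_im_le_norm s)
  have b5 : ‖1 / (s + 1)‖ ≤ 1 / s.im := by
    rw [norm_div, norm_one]
    apply one_div_le_one_div_of_le hsim0
    refine le_trans ?_ (abs_im_le_norm (s + 1))
    simp [le_abs_self]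
  have b6 : ‖logDeriv Complex.Gamma s - ((Real.log s.im : ℂ) + (Real.pi / 2 : ℂ) * I)‖ ≤ 13 / s.im := by
    have e : logDeriv Complex.Gamma s - ((Real.log s.im : ℂ) + (Real.pi / 2 : ℂ) * I) =
        (Complex.log (s + 2) - ((Real.log s.im : ℂ) + (Real.pi / 2 : ℂ) * I)) - 1 / s - 1 / (s + 1)
        + ∑' n, H370.DG.er n s := by
      rw [hdg]
      ring
    rw [e]
    refine (norm_add_le _ _).trans ?_
    refine (add_le_add (norm_sub_le _ _) le_rfl).trans ?_
    refine (add_le_add (add_le_add (norm_sub_le _ _) le_rfl) le_rfl).trans ?_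
    calc _ ≤ 9 / s.im + 1 / s.im + 1 / s.im + 2 / s.im := by gcongr
      _ = 13 / s.im := by ring
  have b7 : 13 / s.im ≤ 1 / 15 := by
    rw [div_le_iff₀ hsim0, hsim]
    linarith
  have b8 : (logDeriv Complex.Gamma s).im ≤ Real.pi / 2 + 1 / 15 := by
    have h1 := (Complex.abs_im_le_norm _).trans (b6.trans b7)
    have h2 : (logDeriv Complex.Gamma s - ((Real.log s.im : ℂ) + (Real.pi / 2 : ℂ) * I)).im =
        (logDeriv Complex.Gamma s).im - Real.pi / 2 := by
      simp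
    rw [h2, abs_le] at h1
    linarith [h1.2]
  have b9 : ‖8 * z / (4 * z ^ 2 - 1)‖ ≤ 1 / 100 := by
    have hn : 400 ≤ ‖z‖ := by
      have := Complex.abs_im_le_norm z
      rw [abs_of_pos hpos] at this
      linarith
    rw [norm_div, div_le_iff₀ (norm_pos_iff.2 (quad_ne hpos))]
    have e1 : ‖8 * z‖ = 8 * ‖z‖ := by simp
    have e2 : ‖(4 * z ^ 2 : ℂ)‖ = 4 * ‖z‖ ^ 2 := by simp
    have e3 : ‖(4 * z ^ 2 : ℂ)‖ - ‖(1 : ℂ)‖ ≤ ‖(4 * z ^ 2 - 1 : ℂ)‖ := norm_sub_norm_le _ _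
    rw [e2, norm_one] at e3
    rw [e1]
    nlinarith
  have b10 : |(8 * z / (4 * z ^ 2 - 1)).im| ≤ 1 / 100 := (Complex.abs_im_le_norm _).trans b9
  have b11 : (ld z).im = (8 * z / (4 * z ^ 2 - 1)).im + (logDeriv Complex.Gamma s).im / 2 := by
    unfold ld
    rw [← hs]
    simp only [Complex.add_im, Complex.neg_im, Complex.ofReal_im, Complex.div_ofNat_im]
    ring
  rw [b11]
  rw [abs_le] at b10
  have hpi := Real.pi_lt_d2
  linarith [b10.2]


lemma HH_grow : ∃ T0 : ℝ, 400 ≤ T0 ∧ ∀ T v : ℝ, 0 ≤ v → T0 ≤ T - v →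
    ‖HH (I * ((T - v : ℝ) : ℂ))‖ ≤ Real.exp v * ‖HH (I * T)‖ := by
  obtain ⟨T0, hT0, h⟩ := im_ld_up
  refine ⟨T0, hT0, fun T v hv hT => ?_⟩
  have him : ∀ x : ℝ, (I * (T : ℂ) - I * x).im = T - x := fun x => by simp
  have hre : ∀ x : ℝ, (I * (T : ℂ) - I * x).re = 0 := fun x => by simp
  have key := decay (g := fun x : ℝ => HH (I * T - I * x)) (c := fun x : ℝ => -(I * logDeriv HH (I * T - I * x)))
    (a := -1) (V := v) ?_ ?_ v ⟨hv, le_rfl⟩
  · simp only [ofReal_zero, mul_zero, sub_zero] at key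
    have e : I * ((T - v : ℝ) : ℂ) = I * T - I * v := by push_cast; ring
    rw [e]
    refine key.trans (le_of_eq ?_)
    congr 2
    ring
  · intro x hx
    have hp : 0 < (I * (T : ℂ) - I * x).im := by rw [him]; linarith [hx.2]
    have h1 := HH_deriv hp
    have h2 : HasDerivAt (fun x : ℝ => I * (T : ℂ) - I * (x : ℂ)) (-(I * 1)) x :=
      ((Complex.ofRealCLM.hasDerivAt (x := x)).const_mul I).const_sub (I * (T : ℂ))
    have h4 := HasDerivAt.comp x h1 h2
    refine h4.congr_deriv ?_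
    rw [ld_eq hp]
    ring
  · intro x hx
    have h1 := h (I * T - I * x) (by rw [hre]) (by rw [hre]; norm_num)
      (by rw [him]; linarith [hx.2])
    have e : (-(I * logDeriv HH (I * T - I * x))).re = (logDeriv HH (I * T - I * x)).im := by
      simp
    rw [e]
    linarith

/-- both directions -/
lemma HH_move : ∃ T0 : ℝ, 400 ≤ T0 ∧ ∀ T h : ℝ, T0 ≤ T → T0 ≤ T + h →
    ‖HH (I * ((T + h : ℝ) : ℂ))‖ ≤ Real.exp |h| * ‖HH (I * T)‖ := by
  obtain ⟨T1, hT1, h1⟩ := HH_grow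
  obtain ⟨T2, hT2, h2⟩ := HH_decay
  refine ⟨max T1 T2, hT1.trans (le_max_left _ _), fun T h hT hTh => ?_⟩
  rcases le_total 0 h with hh | hh
  · have := h2 (I * T) h (by simp) (by simp) (by simpa using (le_max_right _ _).trans hT) hh
    have e : I * ((T + h : ℝ) : ℂ) = I * T + I * h := by push_cast; ring
    rw [e]
    refine this.trans ?_
    apply mul_le_mul_of_nonneg_right _ (norm_nonneg _)
    apply Real.exp_le_exp.2
    rw [abs_of_nonneg hh]
    linarith
  · have := h1 T (-h) (by linarith) (by rw [sub_neg_eq_add]; exact (le_max_left _ _).trans hTh)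
    rw [sub_neg_eq_add] at this
    rw [abs_of_nonpos hh]
    exact this

end Pool.Agent.W186.HZ
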