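import Pool.Agent.W186.HZ.JU
import Pool.Agent.W186.HZ.Sad

set_option autoImplicit false

/-!
# Lower bound for `JT`
-/

namespace Pool.Agent.W186.HZ

open Complex Filter Topology MeasureTheory Set
open Pool.Agent.H24R2.JP (XX HH Om)
open Pool.Agent.H986R2.DBN (JT XT)

/-- `-(r-σ)²/4τ + L r = (L σ + τ L²) - (r - σ - 2 τ L)²/4τ` -/
lemma sq_id {τ L σ r : ℝ} (hτ : 0 < τ) : -((r - σ) ^ 2 / (4 * τ)) + L * r =
    (L * σ + τ * L ^ 2) - (r - σ - 2 * τ * L) ^ 2 / (4 * τ) := by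
  field_simp
  ring

/-- the case `r < y` -/
lemma sq_id2 {τ L σ r y : ℝ} (hτ : 0 < τ) : -((r - σ) ^ 2 / (4 * τ)) + L * y =
    (L * σ + τ * L ^ 2) - ((r - σ) ^ 2 + 2 * τ * L * (2 * σ + 2 * τ * L - 2 * y)) / (4 * τ) := by
  field_simp
  ring

/-- pointwise bound away from the saddle point -/
lemma off {τ L σ r y g a X m θ v0 κ : ℝ} (hτ : 0 < τ) (hL : 0 < L) (hX : 0 < X)
    (h2 : 2 * τ * L ≤ X) (hg : 2 * y + g ≤ 2 * σ + 2 * τ * L) (hg0 : 0 ≤ g) (hm : 0 < m) (h1 : m ≤ 2 * τ * L)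
    (ha : 0 < a) (hθ : θ ≤ a / 4) (hv : |v0 - (σ + 2 * τ * L)| ≤ θ) (hr : a ≤ |r - v0|)
    (hκ1 : κ ≤ a ^ 2 / (4 * X)) (hκ2 : κ ≤ g / 2) :
    -((r - σ) ^ 2 / (4 * τ)) + L * max r y ≤ (L * σ + τ * L ^ 2) - κ * L := by
  rcases le_total y r with hyr | hyr
  · rw [max_eq_left hyr, sq_id hτ]
    have h3 : a / 4 * 3 ≤ |r - σ - 2 * τ * L| := by
      have h4 : |r - v0| ≤ |r - σ - 2 * τ * L| + |v0 - (σ + 2 * τ * L)| := by
        have := abs_sub (r - σ - 2 * τ * L) (v0 - (σ + 2 * τ * L))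
        rwa [show r - σ - 2 * τ * L - (v0 - (σ + 2 * τ * L)) = r - v0 by ring] at this
      linarith
    have h5 : a ^ 2 / 2 ≤ (r - σ - 2 * τ * L) ^ 2 := by
      rw [← sq_abs (r - σ - 2 * τ * L)]
      have h6 : (a / 4 * 3) ^ 2 ≤ |r - σ - 2 * τ * L| ^ 2 := by gcongr
      nlinarith
    have h6 : a ^ 2 / 2 * L / (2 * X) ≤ (r - σ - 2 * τ * L) ^ 2 / (4 * τ) :=
      (inv_ge hτ hX h2 (by positivity)).trans (by gcongr)
    have h7 : a ^ 2 / 2 * L / (2 * X) = a ^ 2 / (4 * X) * L := by field_simp; ring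
    rw [h7] at h6
    nlinarith
  · rw [max_eq_right hyr, sq_id2 hτ]
    have h3 : 2 * τ * L * g / (4 * τ) ≤ ((r - σ) ^ 2 + 2 * τ * L * (2 * σ + 2 * τ * L - 2 * y)) / (4 * τ) := by
      apply div_le_div_of_nonneg_right _ (by positivity)
      have h4 : 2 * τ * L * g ≤ 2 * τ * L * (2 * σ + 2 * τ * L - 2 * y) := by
        apply mul_le_mul_of_nonneg_left _ (by positivity)
        linarith
      nlinarith [sq_nonneg (r - σ)]
    have h4 : 2 * τ * L * g / (4 * τ) = g / 2 * L := by field_simp; ring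
    rw [h4] at h3
    nlinarith

lemma re_sq (w : ℂ) : (w ^ 2).re = w.re ^ 2 - w.im ^ 2 := by
  rw [sq, Complex.mul_re]; ring

/-- norm of the integrand -/
lemma Q_norm {τ s : ℝ} (hτ : 0 < τ) (hs : s ^ 2 = 1 / (2 * τ)) (f : ℂ → ℂ) (z w : ℂ) :
    ‖Q f s z w‖ = Real.exp (-(((w.re - z.re) ^ 2 - (w.im - z.im) ^ 2) / (4 * τ))) * ‖f w‖ := by
  unfold Q
  rw [norm_mul, Complex.norm_exp]
  congr 2
  have e : -((s : ℂ) ^ 2 * (w - z) ^ 2 / 2) = ((-(1 / (4 * τ)) : ℝ) : ℂ) * (w - z) ^ 2 := by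
    have h1 : ((s : ℂ)) ^ 2 = ((1 / (2 * τ) : ℝ) : ℂ) := by rw [← hs]; push_cast; ring
    rw [h1]
    have : (τ : ℂ) ≠ 0 := by exact_mod_cast hτ.ne'
    push_cast
    field_simp
    ring
  rw [e, Complex.re_ofReal_mul, re_sq, Complex.sub_re, Complex.sub_im]
  ring

lemma Q_diff {f : ℂ → ℂ} (hf : Differentiable ℂ f) (s : ℝ) (z : ℂ) : Differentiable ℂ (Q f s z) := by
  unfold Q
  fun_prop

/-- relation of `Q` and `Fj` -/
lemma Q_Fj {τ s T : ℝ} (hτ : 0 < τ) (hs : s ^ 2 = 1 / (2 * τ)) (a : ℂ) (r : ℝ) :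
    Q XX s (I * T + 2 * τ * a) (I * T + r) = cexp (-(τ * a ^ 2)) * Fj τ T a r := by
  unfold Q Fj
  rw [← mul_assoc, ← Complex.exp_add]
  congr 2
  have h1 : ((s : ℂ)) ^ 2 = ((1 / (2 * τ) : ℝ) : ℂ) := by rw [← hs]; push_cast; ring
  rw [h1]
  have : (τ : ℂ) ≠ 0 := by exact_mod_cast hτ.ne'
  push_cast
  field_simp
  ring

/-- shifting the contour -/
lemma shift {f : ℂ → ℂ} (hf : Differentiable ℂ f) (T a B : ℝ) (w0 : ℂ) (ha : 0 < a)
    (hB : ∀ x η : ℝ, (x = w0.re - a ∨ x = w0.re + a) → η ∈ uIcc T w0.im → ‖f (x + η * I)‖ ≤ B)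
    (h0 : |w0.im - T| ≤ 1) :
    ‖∫ u in (-a)..a, f (w0 + u)‖ - 2 * B ≤ ‖∫ x in (w0.re - a)..(w0.re + a), f (I * T + x)‖ := by
  have key := Complex.integral_boundary_rect_eq_zero_of_differentiableOn f
    (((w0.re - a : ℝ) : ℂ) + T * I) (((w0.re + a : ℝ) : ℂ) + w0.im * I) hf.differentiableOn
  have r1 : (((w0.re - a : ℝ) : ℂ) + T * I).re = w0.re - a := by simp
  have r2 : (((w0.re - a : ℝ) : ℂ) + T * I).im = T := by simp
  have r3 : (((w0.re + a : ℝ) : ℂ) + w0.im * I).re = w0.re + a := by simp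
  have r4 : (((w0.re + a : ℝ) : ℂ) + w0.im * I).im = w0.im := by simp
  rw [r1, r2, r3, r4] at key
  have e1 : ∫ x in (w0.re - a)..(w0.re + a), f (x + w0.im * I) = ∫ u in (-a)..a, f (w0 + u) := by
    have := intervalIntegral.integral_comp_add_left (a := -a) (b := a)
      (fun x : ℝ => f (x + w0.im * I)) w0.re
    rw [← sub_eq_add_neg] at this
    rw [← this]
    apply intervalIntegral.integral_congr
    intro u _
    simp only
    congr 1
    conv_rhs => rw [← Complex.re_add_im w0]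
    push_cast
    ring
  have e2 : ∫ x in (w0.re - a)..(w0.re + a), f (x + T * I) =
      ∫ x in (w0.re - a)..(w0.re + a), f (I * T + x) := by
    apply intervalIntegral.integral_congr
    intro u _
    simp only
    congr 1
    ring
  rw [e1, e2] at key
  have hv : ∀ x : ℝ, (x = w0.re - a ∨ x = w0.re + a) → ‖∫ y in T..w0.im, f (x + y * I)‖ ≤ B := by
    intro x hx
    have hB0 : 0 ≤ B := (norm_nonneg _).trans (hB x T hx left_mem_uIcc)
    have h1 := intervalIntegral.norm_integral_le_of_norm_le_const (a := T) (b := w0.im) (C := B)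
      (f := fun y : ℝ => f (x + y * I)) (fun y hy => hB x y hx (uIoc_subset_uIcc hy))
    refine h1.trans ?_
    calc B * |w0.im - T| ≤ B * 1 := by gcongr
      _ = B := mul_one B
  have h3 := hv (w0.re + a) (Or.inr rfl)
  have h4 := hv (w0.re - a) (Or.inl rfl)
  have e3 : ∫ u in (-a)..a, f (w0 + u) = (∫ x in (w0.re - a)..(w0.re + a), f (I * T + x)) +
      I • (∫ y in T..w0.im, f (((w0.re + a : ℝ) : ℂ) + y * I)) -
      I • ∫ y in T..w0.im, f (((w0.re - a : ℝ) : ℂ) + y * I) := by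
    linear_combination -key
  rw [e3]
  have h5 : ‖I • (∫ y in T..w0.im, f (((w0.re + a : ℝ) : ℂ) + y * I))‖ ≤ B := by
    rw [norm_smul, Complex.norm_I, one_mul]; exact h3
  have h6 : ‖I • (∫ y in T..w0.im, f (((w0.re - a : ℝ) : ℂ) + y * I))‖ ≤ B := by
    rw [norm_smul, Complex.norm_I, one_mul]; exact h4
  have h7 := norm_sub_le ((∫ x in (w0.re - a)..(w0.re + a), f (I * T + x)) +
      I • (∫ y in T..w0.im, f (((w0.re + a : ℝ) : ℂ) + y * I)))
      (I • ∫ y in T..w0.im, f (((w0.re - a : ℝ) : ℂ) + y * I))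
  have h8 := norm_add_le (∫ x in (w0.re - a)..(w0.re + a), f (I * T + x))
      (I • (∫ y in T..w0.im, f (((w0.re + a : ℝ) : ℂ) + y * I)))
  linarith

end Pool.Agent.W186.HZ
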