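import Pool.Agent.W186.HZ.JL

set_option autoImplicit false

/-!
# Lower bound for `JT`: main lemma
-/

namespace Pool.Agent.W186.HZ

open Complex Filter Topology MeasureTheory Set
open Pool.Agent.H24R2.JP (XX HH Om)
open Pool.Agent.H986R2.DBN (JT XT)

/-- the local situation at the approximate saddle point -/
lemma lc_of {y ρ θ X ε2 R T τ s σ b : ℝ} {z p : ℂ} (hτ : 0 < τ) (hs : s ^ 2 = 1 / (2 * τ))
    (hX : 0 < X) (h2 : 2 * τ * Om T ≤ X) (hθ : 0 ≤ θ) (hε2 : ε2 ≤ θ / X) (hO : 0 ≤ Om T)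
    (hL : ∀ u : ℂ, y + ε2 ≤ u.re → u.re ≤ R → |u.im| ≤ 1 →
      XX (I * T + u) ≠ 0 ∧ ‖logDeriv XX (I * T + u) - (Om T : ℂ)‖ ≤ ε2 * Om T)
    (hp : p = z + ((2 * τ * Om T : ℝ) : ℂ)) (hzr : z.re = σ) (hzi : z.im = T + b) (hb : |b| + ρ ≤ 1)
    (h3 : y + ε2 ≤ σ + 2 * τ * Om T - ρ) (h4 : σ + 2 * τ * Om T + ρ ≤ R) : Lc ρ s θ (Om T : ℂ) p XX := by
  intro w hw
  rw [Metric.mem_ball, dist_eq_norm] at hw
  have hpr : p.re = σ + 2 * τ * Om T := by rw [hp, Complex.add_re, Complex.ofReal_re, hzr]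
  have hpi : p.im = T + b := by rw [hp, Complex.add_im, Complex.ofReal_im, hzi, add_zero]
  have e1 : I * (T : ℂ) + (w - I * T) = w := by ring
  have hre : (w - I * (T : ℂ)).re = w.re := by simp
  have him : (w - I * (T : ℂ)).im = w.im - T := by simp
  have a1 := (Complex.abs_re_le_norm (w - p)).trans hw.le
  have a2 := (Complex.abs_im_le_norm (w - p)).trans hw.le
  rw [Complex.sub_re, hpr, abs_le] at a1
  rw [Complex.sub_im, hpi] at a2
  have a3 : |w.im - T| ≤ 1 := by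
    have : w.im - T = (w.im - (T + b)) + b := by ring
    rw [this]
    exact (abs_add_le _ _).trans (by linarith)
  obtain ⟨b1, b2⟩ := hL (w - I * T) (by rw [hre]; linarith [a1.1]) (by rw [hre]; linarith [a1.2])
    (by rw [him]; exact a3)
  rw [e1] at b1 b2
  refine ⟨Pool.Agent.H24R2.JP.B1h.XX_diff w, b1, b2.trans ?_⟩
  rw [hs]
  calc ε2 * Om T ≤ θ / X * Om T := mul_le_mul_of_nonneg_right hε2 hO
    _ ≤ θ * (1 / (2 * τ)) := by
      rw [div_mul_eq_mul_div, mul_one_div, div_le_div_iff₀ hX (by positivity)]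
      nlinarith

/-- final numerical step -/
lemma fin_num {L E κ ε1 H I J : ℝ} (hH : 0 < H) (hκ : 0 < κ) (hε1 : 0 < ε1) (hε : 16 * ε1 ≤ κ)
    (hL1 : 8 ≤ κ * L) (hL2 : 1 ≤ ε1 * L)
    (hI : Real.exp (E - 3 * ε1 * L) * H - 3 * (Real.exp (E - κ * L / 2) * H) ≤ J) (hJ : J ≤ I) :
    Real.exp (E - 4 * ε1 * L) * H ≤ I := by
  refine le_trans ?_ hJ
  refine le_trans ?_ hI
  have h1 : Real.exp (E - κ * L / 2) ≤ Real.exp (E - 3 * ε1 * L) * (1 / 6) := by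
    have e : Real.exp (E - κ * L / 2) = Real.exp (E - 3 * ε1 * L) * Real.exp (-(κ * L / 2 - 3 * ε1 * L)) := by
      rw [← Real.exp_add]; congr 1; ring
    rw [e]
    apply mul_le_mul_of_nonneg_left _ (Real.exp_pos _).le
    have h2 : 2 ≤ κ * L / 2 - 3 * ε1 * L := by nlinarith
    have h3 : Real.exp (-(κ * L / 2 - 3 * ε1 * L)) ≤ Real.exp (-2) := Real.exp_le_exp.2 (by linarith)
    refine h3.trans ?_
    rw [Real.exp_neg, ← one_div]
    apply one_div_le_one_div_of_le (by norm_num)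
    have h4 : Real.exp 2 = Real.exp 1 ^ 2 := by rw [← Real.exp_nat_mul]; norm_num
    rw [h4]
    have := Real.exp_one_gt_d9
    nlinarith
  have h2 : Real.exp (E - 4 * ε1 * L) ≤ Real.exp (E - 3 * ε1 * L) * (1 / 2) := by
    have e : Real.exp (E - 4 * ε1 * L) = Real.exp (E - 3 * ε1 * L) * Real.exp (-(ε1 * L)) := by
      rw [← Real.exp_add]; congr 1; ring
    rw [e]
    apply mul_le_mul_of_nonneg_left _ (Real.exp_pos _).le
    have h3 : Real.exp (-(ε1 * L)) ≤ Real.exp (-1) := Real.exp_le_exp.2 (by linarith)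
    refine h3.trans ?_
    rw [Real.exp_neg, ← one_div]
    apply one_div_le_one_div_of_le (by norm_num)
    have := Real.exp_one_gt_d9
    linarith
  have h3 := Real.exp_pos (E - 3 * ε1 * L)
  nlinarith

lemma main_term {m θ ε1 ε2 τ L σ s H : ℝ} {z w0 : ℂ} (hτ : 0 < τ) (hm : 0 < m)
    (h1 : m ≤ 2 * τ * L) (hL : 0 < L) (hθ0 : 0 < θ) (hθ3 : θ ≤ ε1 / 3) (hθ4 : θ ≤ 2 * m)
    (hε21 : ε2 ≤ ε1) (hs2 : s ^ 2 = 1 / (2 * τ)) (hs1 : 1 ≤ s) (hsL2 : s ^ 2 ≤ L / m)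
    (hgr : 2 * L / m ≤ Real.exp (ε1 * L)) (hzr : z.re = σ)
    (hv1 : |w0.re - (σ + 2 * τ * L)| ≤ θ)
    (s3 : Real.exp (L * (w0.re - ε2)) * H ≤ ‖XX w0‖) (hH : 0 ≤ H) :
    Real.exp ((L * σ + τ * L ^ 2) - 3 * ε1 * L) * H ≤ 1 / 2 / s * ‖Q XX s z w0‖ := by
  have hsp : 0 < s := by linarith
  have hv1' := abs_le.1 hv1
  rw [Q_norm hτ hs2]
  have q1 : ((w0.re - z.re) ^ 2 - (w0.im - z.im) ^ 2) / (4 * τ) ≤ τ * L ^ 2 + 2 * θ * L := by
    rw [hzr]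
    have q2 : (w0.re - σ) ^ 2 - (w0.im - z.im) ^ 2 ≤ (2 * τ * L + θ) ^ 2 := by
      have q3 : (w0.re - σ) ^ 2 ≤ (2 * τ * L + θ) ^ 2 := by
        have : 0 < 2 * τ * L := by positivity
        apply sq_le_sq'
        · linarith only [hv1'.1, this]
        · linarith only [hv1'.2]
      have := sq_nonneg (w0.im - z.im)
      linarith only [q3, this]
    have q4 : (2 * τ * L + θ) ^ 2 / (4 * τ) = τ * L ^ 2 + θ * L + θ ^ 2 / (4 * τ) := by
      field_simp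
      ring
    have q5 : θ ^ 2 / (4 * τ) ≤ θ * L := by
      refine (inv_le hτ hm h1 (by positivity)).trans ?_
      rw [div_le_iff₀ (by positivity)]
      have : θ * θ ≤ θ * (2 * m) := mul_le_mul_of_nonneg_left hθ4 hθ0.le
      have h3 : θ * θ * L ≤ θ * (2 * m) * L := mul_le_mul_of_nonneg_right this hL.le
      linarith only [h3]
    calc ((w0.re - σ) ^ 2 - (w0.im - z.im) ^ 2) / (4 * τ) ≤ (2 * τ * L + θ) ^ 2 / (4 * τ) := by
          gcongr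
      _ ≤ _ := by rw [q4]; linarith only [q5]
  have q6 : Real.exp (-(ε1 * L)) ≤ 1 / 2 / s := by
    rw [Real.exp_neg, ← one_div, div_div]
    apply one_div_le_one_div_of_le (by positivity)
    refine le_trans ?_ hgr
    have : s * 1 ≤ s * s := mul_le_mul_of_nonneg_left hs1 hsp.le
    calc 2 * s ≤ 2 * s ^ 2 := by linarith only [this]
      _ ≤ 2 * (L / m) := by linarith only [hsL2]
      _ = 2 * L / m := by ring
  calc Real.exp ((L * σ + τ * L ^ 2) - 3 * ε1 * L) * H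
      ≤ Real.exp (-(ε1 * L) + (-(τ * L ^ 2 + 2 * θ * L) + L * (w0.re - ε2))) * H := by
        have : (L * σ + τ * L ^ 2) - 3 * ε1 * L ≤ -(ε1 * L) + (-(τ * L ^ 2 + 2 * θ * L) + L * (w0.re - ε2)) := by
          have e1 : L * (σ + 2 * τ * L - θ) ≤ L * w0.re := by
            apply mul_le_mul_of_nonneg_left _ hL.le
            linarith only [hv1'.1]
          have e2 : L * ε2 ≤ L * ε1 := mul_le_mul_of_nonneg_left hε21 hL.le
          have e3 : L * (3 * θ) ≤ L * ε1 := mul_le_mul_of_nonneg_left (by linarith only [hθ3]) hL.le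
          have e4 : L * (σ + 2 * τ * L - θ) = L * σ + 2 * (τ * L ^ 2) - L * θ := by ring
          linarith only [e1, e2, e3, e4]
        gcongr
    _ = Real.exp (-(ε1 * L)) * (Real.exp (-(τ * L ^ 2 + 2 * θ * L)) * (Real.exp (L * (w0.re - ε2)) * H)) := by
        rw [Real.exp_add, Real.exp_add]; ring
    _ ≤ 1 / 2 / s * (Real.exp (-(((w0.re - z.re) ^ 2 - (w0.im - z.im) ^ 2) / (4 * τ))) * ‖XX w0‖) := by
        gcongr

lemma pt_near {y m X g κ c θ ε1 a0 τ L σ s H : ℝ} {z w0 w : ℂ} (hτ : 0 < τ) (hm : 0 < m) (hX : 0 < X)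
    (h1 : m ≤ 2 * τ * L) (h2 : 2 * τ * L ≤ X) (hL : 0 < L) (hs2 : s ^ 2 = 1 / (2 * τ))
    (hg : 2 * y + g ≤ 2 * σ + 2 * τ * L) (hg0 : 0 ≤ g) (ha : 0 < a0) (hθ : θ ≤ a0 / 4)
    (hv1 : |w0.re - (σ + 2 * τ * L)| ≤ θ) (hr : a0 ≤ |w.re - w0.re|) (hκ0 : 0 < κ)
    (hκ1 : κ ≤ a0 ^ 2 / (4 * X)) (hκ2 : κ ≤ g / 2) (hε12 : ε1 ≤ κ / 16)
    (hc4 : c ^ 2 / (4 * τ) ≤ κ / 16 * L) (hzr : z.re = σ) (him : |w.im - z.im| ≤ c)
    (hb : ‖XX w‖ ≤ Real.exp (L * (max w.re y + ε1)) * H) (hH : 0 ≤ H) :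
    ‖Q XX s z w‖ ≤ Real.exp ((L * σ + τ * L ^ 2) - 3 / 4 * κ * L) * H := by
  rw [Q_norm hτ hs2, hzr]
  have hoff := off (r := w.re) (y := y) hτ hL hX h2 hg hg0 hm h1 ha hθ hv1 hr hκ1 hκ2
  have hη2 : (w.im - z.im) ^ 2 / (4 * τ) ≤ κ / 16 * L := by
    refine le_trans ?_ hc4
    have : (w.im - z.im) ^ 2 ≤ c ^ 2 := by
      rw [← sq_abs]; gcongr
    gcongr
  calc Real.exp (-(((w.re - σ) ^ 2 - (w.im - z.im) ^ 2) / (4 * τ))) * ‖XX w‖
      ≤ Real.exp (-(((w.re - σ) ^ 2 - (w.im - z.im) ^ 2) / (4 * τ))) *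
        (Real.exp (L * (max w.re y + ε1)) * H) := by gcongr
    _ = Real.exp (-(((w.re - σ) ^ 2 - (w.im - z.im) ^ 2) / (4 * τ)) + L * (max w.re y + ε1)) * H := by
        rw [← mul_assoc, ← Real.exp_add]
    _ ≤ _ := by
        have e4 : -(((w.re - σ) ^ 2 - (w.im - z.im) ^ 2) / (4 * τ)) =
            -((w.re - σ) ^ 2 / (4 * τ)) + (w.im - z.im) ^ 2 / (4 * τ) := by ring
        have e5 : L * ε1 ≤ L * (κ / 16) := mul_le_mul_of_nonneg_left hε12 hL.le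
        have e6 : 0 < κ * L := by positivity
        have : -(((w.re - σ) ^ 2 - (w.im - z.im) ^ 2) / (4 * τ)) + L * (max w.re y + ε1) ≤
            (L * σ + τ * L ^ 2) - 3 / 4 * κ * L := by
          rw [e4]
          linarith only [hoff, hη2, e5, e6]
        gcongr

lemma pt_far {κ c τ L b E s H T r : ℝ} {a : ℂ} (hτ : 0 < τ) (hL : 0 < L) (hs2 : s ^ 2 = 1 / (2 * τ))
    (hκ0 : 0 < κ) (hκ3 : κ ≤ 1) (hE : 0 ≤ E) (hb : b = 2 * τ * a.im) (hbc : |b| ≤ c)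
    (hc4 : c ^ 2 / (4 * τ) ≤ κ / 16 * L) (hH : 0 ≤ H)
    (ht : Real.exp (-(r ^ 2 / (4 * τ)) + a.re * r) * ‖XX (I * T + r)‖ ≤ Real.exp (-L - r) * H) :
    ‖Q XX s (I * T + 2 * τ * a) (I * T + r)‖ ≤ Real.exp (E - κ * L / 2) * H * Real.exp (-r) := by
  rw [Q_Fj hτ hs2 a r, norm_mul, Fj_norm, Complex.norm_exp]
  have e2 : (-((τ : ℂ) * a ^ 2)).re = -(τ * (a.re ^ 2 - a.im ^ 2)) := by
    rw [Complex.neg_re, Complex.re_ofReal_mul, re_sq]
  rw [e2]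
  have e3 : -(τ * (a.re ^ 2 - a.im ^ 2)) ≤ κ / 16 * L := by
    refine le_trans ?_ hc4
    have h3 : -(τ * (a.re ^ 2 - a.im ^ 2)) ≤ b ^ 2 / (4 * τ) := by
      rw [hb, le_div_iff₀ (by positivity)]
      nlinarith only [sq_nonneg (τ * a.re)]
    refine h3.trans ?_
    have : b ^ 2 ≤ c ^ 2 := by
      rw [← sq_abs]; gcongr
    gcongr
  calc Real.exp (-(τ * (a.re ^ 2 - a.im ^ 2))) *
        (Real.exp (-(r ^ 2 / (4 * τ)) + a.re * r) * ‖XX (I * T + r)‖)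
      ≤ Real.exp (κ / 16 * L) * (Real.exp (-L - r) * H) := by gcongr
    _ = Real.exp (κ / 16 * L + (-L - r)) * H := by rw [← mul_assoc, ← Real.exp_add]
    _ ≤ Real.exp (E - κ * L / 2 + -r) * H := by
        have e6 : κ * L ≤ 1 * L := mul_le_mul_of_nonneg_right hκ3 hL.le
        have : κ / 16 * L + (-L - r) ≤ E - κ * L / 2 + -r := by linarith only [e6, hE, hL]
        gcongr
    _ = _ := by rw [Real.exp_add]; ring

/-- the lower bound for the half-line integral of a function which is small away from a segment -/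
lemma half {f : ℝ → ℂ} {v a B : ℝ} (hf : IntegrableOn f (Ioi 0)) (hv : a < v) (ha : 0 < a) (hB : 0 ≤ B)
    (hb : ∀ r : ℝ, 0 < r → a ≤ |r - v| → ‖f r‖ ≤ B * Real.exp (-r)) :
    ‖∫ r in (v - a)..(v + a), f r‖ - B ≤ ‖∫ r in Ioi (0 : ℝ), f r‖ := by
  have hsubset : Ioc (v - a) (v + a) ⊆ Ioi (0 : ℝ) := fun r hr => by
    have : 0 < v - a := by linarith
    exact this.trans hr.1
  have hdiff := integral_diff (μ := volume) (f := f)
    (s := Ioi (0 : ℝ)) (t := Ioc (v - a) (v + a)) measurableSet_Ioc hf hsubset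
  have hbd : ∀ r ∈ Ioi (0 : ℝ) \ Ioc (v - a) (v + a), ‖f r‖ ≤ B * Real.exp (-r) := by
    rintro r ⟨hr0, hr1⟩
    refine hb r hr0 ?_
    by_contra hcon
    push Not at hcon
    rw [abs_lt] at hcon
    exact hr1 ⟨by linarith [hcon.1], by linarith [hcon.2]⟩
  have hmeas : MeasurableSet (Ioi (0 : ℝ) \ Ioc (v - a) (v + a)) :=
    measurableSet_Ioi.diff measurableSet_Ioc
  have hi := (expint.1.mono_set (diff_subset (s := Ioi (0 : ℝ)) (t := Ioc (v - a) (v + a)))).const_mul B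
  have h6 := norm_integral_le_of_norm_le hi ((ae_restrict_mem hmeas).mono hbd)
  have hrest : ‖∫ r in Ioi (0 : ℝ) \ Ioc (v - a) (v + a), f r‖ ≤ B := by
    refine h6.trans ?_
    rw [integral_const_mul]
    have h7 : ∫ r in Ioi (0 : ℝ) \ Ioc (v - a) (v + a), Real.exp (-r) ≤ 1 := by
      rw [← expint.2]
      exact setIntegral_mono_set expint.1 (Eventually.of_forall fun r => (Real.exp_pos _).le)
        (HasSubset.Subset.eventuallyLE diff_subset)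
    nlinarith
  have hIoc : ∫ r in Ioc (v - a) (v + a), f r = ∫ r in (v - a)..(v + a), f r :=
    (intervalIntegral.integral_of_le (by linarith)).symm
  rw [hIoc] at hdiff
  have h9 : ∫ r in (v - a)..(v + a), f r = (∫ r in Ioi (0 : ℝ), f r) -
      ∫ r in Ioi (0 : ℝ) \ Ioc (v - a) (v + a), f r := by
    rw [hdiff]; ring
  rw [h9]
  have := norm_sub_le (∫ r in Ioi (0 : ℝ), f r) (∫ r in Ioi (0 : ℝ) \ Ioc (v - a) (v + a), f r)
  linarith

/-- All estimates at one height. -/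
lemma core_step {y m X g κ c θ ε1 ε2 R0 R ρ a0 T τ L σ b s H : ℝ} {a z w0 : ℂ} (hτ : 0 < τ)
    (hm : 0 < m) (hX : 0 < X) (h1 : m ≤ 2 * τ * L) (h2 : 2 * τ * L ≤ X) (hL : 0 < L)
    (hs2 : s ^ 2 = 1 / (2 * τ)) (hs1 : 1 ≤ s) (hsL2 : s ^ 2 ≤ L / m) (hg : 2 * y + g ≤ 2 * σ + 2 * τ * L)
    (hg0 : 0 < g) (hg2 : y + g ≤ σ + 2 * τ * L) (hy0 : 0 ≤ y)
    (hρ0 : 0 < ρ) (hρ1 : ρ ≤ g / 2) (hρ2 : ρ ≤ 1 / 2)
    (ha0 : a0 = ρ / 5) (hκ0 : 0 < κ) (hκ3 : κ ≤ 1) (hκ1 : κ ≤ a0 ^ 2 / (4 * X)) (hκ2 : κ ≤ g / 2)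
    (hc1 : c ≤ 1 / 4) (hc4 : c ^ 2 / (4 * τ) ≤ κ / 16 * L) (hε10 : 0 < ε1) (hε12 : ε1 ≤ κ / 16)
    (hθ0 : 0 < θ) (hθ1 : θ ≤ ρ / 100000) (hθ2 : θ ≤ c) (hθ3 : θ ≤ ε1 / 3) (hθ4 : θ ≤ 2 * m)
    (hε21 : ε2 ≤ ε1) (hgr : 2 * L / m ≤ Real.exp (ε1 * L)) (hH : 0 < H)
    (hz : z = I * T + 2 * τ * a) (hσ : σ = 2 * τ * a.re) (hb : b = 2 * τ * a.im) (hbc : |b| ≤ c)
    (hzr : z.re = σ) (hzi : z.im = T + b) (hR0R : R0 ≤ R) (hR : σ + 2 * τ * L + 1 ≤ R)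
    (hL3 : 4 * (R + 1) ≤ κ * L) (hL4 : 1 ≤ ε1 * L)
    (hv1 : |w0.re - (σ + 2 * τ * L)| ≤ θ) (hv2 : |w0.im - (T + b)| ≤ θ)
    (s3 : Real.exp (L * (w0.re - ε2)) * H ≤ ‖XX w0‖)
    (hw2 : 1 / 2 / s * ‖Q XX s z w0‖ ≤ ‖∫ u in (-a0)..a0, Q XX s z (w0 + u)‖)
    (hp : ∀ w : ℂ, 0 ≤ w.re → w.re ≤ R → |w.im - T| ≤ 1 → ‖XX w‖ ≤ Real.exp (L * (max w.re y + ε1)) * H)
    (ht : ∀ r : ℝ, R0 ≤ r →
      Real.exp (-(r ^ 2 / (4 * τ)) + a.re * r) * ‖XX (I * T + r)‖ ≤ Real.exp (-L - r) * H)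
    (hJi : IntegrableOn (Fj τ T a) (Ioi 0)) :
    Real.exp ((L * σ + τ * L ^ 2) - 4 * ε1 * L) * H ≤ ‖cexp (-(τ * a ^ 2)) * JT τ T a‖ := by
  have hv1' := abs_le.1 hv1
  have hv2' := abs_le.1 hv2
  have hbc' := abs_le.1 hbc
  have ha00 : 0 < a0 := by rw [ha0]; positivity
  obtain ⟨E, hE⟩ : ∃ E : ℝ, E = L * σ + τ * L ^ 2 := ⟨_, rfl⟩
  have hx0 : 0 < 2 * τ * L := by positivity
  have hEp : 0 ≤ E := by
    rw [hE]
    have e1 : L * σ + τ * L ^ 2 = L * (2 * σ + 2 * τ * L) / 2 := by ring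
    rw [e1]
    have : 0 ≤ 2 * σ + 2 * τ * L := by linarith only [hg, hg0, hy0]
    positivity
  have hmain := (main_term hτ hm h1 hL hθ0 hθ3 hθ4 hε21 hs2 hs1 hsL2 hgr hzr hv1 s3 hH.le).trans hw2
  rw [← hE] at hmain ⊢
  have hθa : θ ≤ a0 / 4 := by rw [ha0]; linarith only [hθ1, hρ0]
  have hva1 : y ≤ w0.re - a0 := by rw [ha0]; linarith only [hv1'.1, hg2, hρ1, hρ0, hθ1]
  have hva3 : a0 < w0.re := by rw [ha0]; linarith only [hv1'.1, hg2, hρ1, hρ0, hθ1, hy0]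
  have hva2 : w0.re + a0 ≤ R := by rw [ha0]; linarith only [hv1'.2, hR, hρ2, hθ1]
  have himb : |w0.im - T| ≤ 1 := by
    rw [abs_le]
    constructor <;> linarith only [hv2'.1, hv2'.2, hbc'.1, hbc'.2, hθ2, hc1]
  have hnear : ∀ w : ℂ, 0 ≤ w.re → w.re ≤ R → |w.im - z.im| ≤ c → a0 ≤ |w.re - w0.re| →
      ‖Q XX s z w‖ ≤ Real.exp (E - 3 / 4 * κ * L) * H := by
    intro w q1 q2 q3 q4
    have q5 : |w.im - T| ≤ 1 := by
      rw [hzi, abs_le] at q3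
      rw [abs_le]
      constructor <;> linarith only [q3.1, q3.2, hbc'.1, hbc'.2, hc1]
    rw [hE]
    exact pt_near hτ hm hX h1 h2 hL hs2 hg hg0.le ha00 hθa hv1 q4 hκ0 hκ1 hκ2 hε12 hc4 hzr q3
      (hp w q1 q2 q5) hH.le
  have hκL : 0 < κ * L := by positivity
  have hmono : Real.exp (E - 3 / 4 * κ * L) * H ≤ Real.exp (E - κ * L / 2) * H := by
    have : E - 3 / 4 * κ * L ≤ E - κ * L / 2 := by linarith only [hκL]
    gcongr
  have hvert : ∀ x η : ℝ, (x = w0.re - a0 ∨ x = w0.re + a0) → η ∈ uIcc T w0.im →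
      ‖Q XX s z (x + η * I)‖ ≤ Real.exp (E - κ * L / 2) * H := by
    intro x η hx hη
    have e1 : ((x : ℂ) + η * I).re = x := by simp
    have e2 : ((x : ℂ) + η * I).im = η := by simp
    have hxy : 0 ≤ x := by
      rcases hx with rfl | rfl
      · linarith only [hva1, hy0]
      · linarith only [hva3, ha00]
    have hxR : x ≤ R := by
      rcases hx with rfl | rfl
      · linarith only [hva2, ha00]
      · linarith only [hva2]
    refine (hnear _ (by rw [e1]; exact hxy) (by rw [e1]; exact hxR) ?_ ?_).trans hmono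
    · rw [e2, hzi, abs_le]
      rw [mem_uIcc] at hη
      rcases hη with hη | hη
      · constructor <;> linarith only [hη.1, hη.2, hv2'.1, hv2'.2, hbc'.1, hbc'.2, hθ2]
      · constructor <;> linarith only [hη.1, hη.2, hv2'.1, hv2'.2, hbc'.1, hbc'.2, hθ2]
    · rw [e1]
      rcases hx with rfl | rfl
      · rw [sub_sub_cancel_left, abs_neg, abs_of_pos ha00]
      · rw [add_sub_cancel_left, abs_of_pos ha00]
  have hshift := shift (Q_diff Pool.Agent.H24R2.JP.B1h.XX_diff s z) T a0 _ w0 ha00 hvert himb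
  have hJ : ∫ r in Ioi (0 : ℝ), Q XX s z (I * T + r) = cexp (-(τ * a ^ 2)) * JT τ T a := by
    have e : JT τ T a = ∫ r in Ioi (0 : ℝ), Fj τ T a r := rfl
    rw [e, ← integral_const_mul]
    refine integral_congr_ae (Eventually.of_forall fun r => ?_)
    rw [hz]
    exact Q_Fj hτ hs2 a r
  have hQi : IntegrableOn (fun r : ℝ => Q XX s z (I * T + r)) (Ioi 0) := by
    have := hJi.const_mul (cexp (-(τ * a ^ 2)))
    refine this.congr (Eventually.of_forall fun r => ?_)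
    rw [hz]
    exact (Q_Fj hτ hs2 a r).symm
  have hB0 : 0 ≤ Real.exp (E - κ * L / 2) * H := by positivity
  have hhalf := half hQi hva3 ha00 hB0 (by
    intro r hr0 hra
    rcases le_or_gt r R0 with hrR | hrR
    · have e1 : (I * (T : ℂ) + r).re = r := by simp
      have e2 : (I * (T : ℂ) + r).im = T := by simp
      have h5 := hnear (I * T + r) (by rw [e1]; exact hr0.le) (by rw [e1]; exact hrR.trans hR0R)
        (by rw [e2, hzi, sub_add_cancel_left, abs_neg]; exact hbc) (by rw [e1]; exact hra)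
      refine h5.trans ?_
      have e3 : Real.exp (E - κ * L / 2) * H * Real.exp (-r) = Real.exp (E - κ * L / 2 + -r) * H := by
        rw [Real.exp_add]; ring
      rw [e3]
      have : E - 3 / 4 * κ * L ≤ E - κ * L / 2 + -r := by linarith only [hL3, hrR, hR0R]
      gcongr
    · rw [hz]
      exact pt_far hτ hL hs2 hκ0 hκ3 hEp hb hbc hc4 hH.le (ht r hrR.le))
  rw [hJ] at hhalf
  refine fin_num hH hκ0 hε10 (by linarith only [hε12]) ?_ hL4 (J := ‖∫ r in (w0.re - a0)..(w0.re + a0),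
      Q XX s z (I * T + r)‖ - Real.exp (E - κ * L / 2) * H) ?_ hhalf
  · have : 1 ≤ R := by linarith only [hR, hg2, hy0, hg0]
    linarith only [hL3, this]
  · linarith only [hmain, hshift]

lemma jl {y : ℝ} (hy0 : 0 ≤ y) (hy1 : y ≤ 1 / 2) (h : CT y) (m X C g : ℝ) (hm : 0 < m) (hX : m ≤ X)
    (hC : 0 ≤ C) (hg : 0 < g) : ∃ c : ℝ, 0 < c ∧ c ≤ 1 / 4 ∧ ∀ δ : ℝ, 0 < δ → ∃ T0 : ℝ, 400 ≤ T0 ∧
    ∀ T τ : ℝ, T0 ≤ T → 0 < τ → m ≤ 2 * τ * Om T → 2 * τ * Om T ≤ X → ∀ a : ℂ, 2 * τ * a.re ≤ C →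
      2 * y + g ≤ 2 * (2 * τ * a.re) + 2 * τ * Om T → y + g ≤ 2 * τ * a.re + 2 * τ * Om T →
      |2 * τ * a.im| ≤ c →
      Real.exp (τ * ((Om T + a.re) ^ 2 - a.im ^ 2) - δ * Om T) * ‖HH (I * T)‖ ≤ ‖JT τ T a‖ := by
  have hXp : 0 < X := by linarith
  -- constants
  obtain ⟨ρ, hρ⟩ : ∃ ρ : ℝ, ρ = min (g / 2) (1 / 2) := ⟨_, rfl⟩
  have hρ0 : 0 < ρ := by rw [hρ]; exact lt_min (by linarith) (by norm_num)
  have hρ1 : ρ ≤ g / 2 := by rw [hρ]; exact min_le_left _ _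
  have hρ2 : ρ ≤ 1 / 2 := by rw [hρ]; exact min_le_right _ _
  obtain ⟨a0, ha0⟩ : ∃ a0 : ℝ, a0 = ρ / 5 := ⟨_, rfl⟩
  have ha00 : 0 < a0 := by rw [ha0]; positivity
  obtain ⟨κ, hκ⟩ : ∃ κ : ℝ, κ = min (min (a0 ^ 2 / (4 * X)) (g / 2)) 1 := ⟨_, rfl⟩
  have hκ0 : 0 < κ := by rw [hκ]; exact lt_min (lt_min (by positivity) (by linarith)) one_pos
  have hκ1 : κ ≤ a0 ^ 2 / (4 * X) := by rw [hκ]; exact (min_le_left _ _).trans (min_le_left _ _)
  have hκ2 : κ ≤ g / 2 := by rw [hκ]; exact (min_le_left _ _).trans (min_le_right _ _)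
  have hκ3 : κ ≤ 1 := by rw [hκ]; exact min_le_right _ _
  obtain ⟨c, hc⟩ : ∃ c : ℝ, c = min (1 / 4) (κ * m / 8) := ⟨_, rfl⟩
  have hc0 : 0 < c := by rw [hc]; exact lt_min (by norm_num) (by positivity)
  have hc1 : c ≤ 1 / 4 := by rw [hc]; exact min_le_left _ _
  have hc2 : c ≤ κ * m / 8 := by rw [hc]; exact min_le_right _ _
  refine ⟨c, hc0, hc1, ?_⟩
  intro δ hδ
  obtain ⟨ε1, hε1⟩ : ∃ ε1 : ℝ, ε1 = min (min (δ / 8) (κ / 16)) (g / 2) := ⟨_, rfl⟩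
  have hε10 : 0 < ε1 := by rw [hε1]; exact lt_min (lt_min (by linarith) (by linarith)) (by linarith)
  have hε11 : ε1 ≤ δ / 8 := by rw [hε1]; exact (min_le_left _ _).trans (min_le_left _ _)
  have hε12 : ε1 ≤ κ / 16 := by rw [hε1]; exact (min_le_left _ _).trans (min_le_right _ _)
  have hε13 : ε1 ≤ g / 2 := by rw [hε1]; exact min_le_right _ _
  obtain ⟨θ, hθ⟩ : ∃ θ : ℝ, θ = min (min (ρ / 100000) c) (min (ε1 / 3) (2 * m)) := ⟨_, rfl⟩
  have hθ0 : 0 < θ := by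
    rw [hθ]; exact lt_min (lt_min (by positivity) hc0) (lt_min (by linarith) (by linarith))
  have hθ1 : θ ≤ ρ / 100000 := by rw [hθ]; exact (min_le_left _ _).trans (min_le_left _ _)
  have hθ2 : θ ≤ c := by rw [hθ]; exact (min_le_left _ _).trans (min_le_right _ _)
  have hθ3 : θ ≤ ε1 / 3 := by rw [hθ]; exact (min_le_right _ _).trans (min_le_left _ _)
  have hθ4 : θ ≤ 2 * m := by rw [hθ]; exact (min_le_right _ _).trans (min_le_right _ _)
  obtain ⟨ε2, hε2⟩ : ∃ ε2 : ℝ, ε2 = min ε1 (θ / X) := ⟨_, rfl⟩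
  have hε20 : 0 < ε2 := by rw [hε2]; exact lt_min hε10 (by positivity)
  have hε21 : ε2 ≤ ε1 := by rw [hε2]; exact min_le_left _ _
  have hε22 : ε2 ≤ θ / X := by rw [hε2]; exact min_le_right _ _
  obtain ⟨R0, T1, hR0, hT1, ht⟩ := tail m X C hm hX hC
  obtain ⟨R, hR⟩ : ∃ R : ℝ, R = max R0 (C + X + 2) := ⟨_, rfl⟩
  have hRR0 : R0 ≤ R := by rw [hR]; exact le_max_left _ _
  have hRCX : C + X + 2 ≤ R := by rw [hR]; exact le_max_right _ _
  obtain ⟨T2, hT2, hp⟩ := prof hy0 hy1 h ε1 R hε10 (hR0.trans hRR0)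
  obtain ⟨T3, hT3, hl⟩ := profL hy0 h ε2 R hε20 (hR0.trans hRR0)
  obtain ⟨T5, hT5, hJd⟩ := JT_diff
  obtain ⟨T6, hT6⟩ : ∃ T6 : ℝ, ∀ t : ℝ, T6 ≤ t → 2 * Om t / m ≤ Real.exp (ε1 * Om t) := by
    have h1 : Tendsto (fun x : ℝ => Real.exp (ε1 * x) / x) atTop atTop := by
      have := tendsto_exp_mul_div_rpow_atTop 1 ε1 hε10
      simpa using this
    have h2 := (h1.comp Om_tendsto).eventually_ge_atTop (2 / m)
    obtain ⟨t3, ht3⟩ := Filter.eventually_atTop.1 (h2.and (Om_tendsto.eventually_gt_atTop 0))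
    refine ⟨t3, fun t ht => ?_⟩
    obtain ⟨h3, h4⟩ := ht3 t ht
    simp only [Function.comp] at h3
    rw [le_div_iff₀ h4] at h3
    calc 2 * Om t / m = 2 / m * Om t := by ring
      _ ≤ _ := h3
  obtain ⟨T4, hT4, hO⟩ := Om_large (max (max (4 * X + 1) (X * (30000 ^ 2 + 25 / ρ ^ 2)))
    (max (4 / κ * (R + 1)) (1 / ε1)))
  refine ⟨max (max (max T1 T2) (max T3 T4)) (max T5 T6), ?_, ?_⟩
  · exact hT5.trans ((le_max_left _ _).trans (le_max_right _ _))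
  intro T τ hT hτ h1 h2 a haC hag1 hag2 hac
  have g0 : max (max T1 T2) (max T3 T4) ≤ T := (le_max_left _ _).trans hT
  have g1 : T1 ≤ T := ((le_max_left _ _).trans (le_max_left _ _)).trans g0
  have g2 : T2 ≤ T := ((le_max_right _ _).trans (le_max_left _ _)).trans g0
  have g3 : T3 ≤ T := ((le_max_left _ _).trans (le_max_right _ _)).trans g0
  have g4 : T4 ≤ T := ((le_max_right _ _).trans (le_max_right _ _)).trans g0
  have g5 : T5 ≤ T := ((le_max_left _ _).trans (le_max_right _ _)).trans hT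
  have g6 : T6 ≤ T := ((le_max_right _ _).trans (le_max_right _ _)).trans hT
  have hTp : 0 < T := by linarith only [hT1, g1]
  have hOm := hO T g4
  have hOm1 : 4 * X + 1 ≤ Om T := ((le_max_left _ _).trans (le_max_left _ _)).trans hOm
  have hOm2 : X * (30000 ^ 2 + 25 / ρ ^ 2) ≤ Om T := ((le_max_right _ _).trans (le_max_left _ _)).trans hOm
  have hOm3 : 4 / κ * (R + 1) ≤ Om T := ((le_max_left _ _).trans (le_max_right _ _)).trans hOm
  have hOm4 : 1 / ε1 ≤ Om T := ((le_max_right _ _).trans (le_max_right _ _)).trans hOm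
  clear hOm
  have hgr := hT6 T g6
  have hLp : 0 < Om T := by linarith only [hOm1, hXp]
  have hOm3' : 4 * (R + 1) ≤ κ * Om T := by
    rw [div_mul_eq_mul_div, div_le_iff₀ hκ0] at hOm3
    linarith only [hOm3]
  have hOm4' : 1 ≤ ε1 * Om T := by
    rw [div_le_iff₀ hε10] at hOm4
    linarith only [hOm4]
  have hτ8 : τ ≤ 1 / 8 := by
    by_contra hcon
    push Not at hcon
    have : 1 / 8 * Om T ≤ τ * Om T := by gcongr
    linarith only [this, h2, hOm1, hXp]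
  obtain ⟨hJi, -⟩ := hJd T τ g5 hτ hτ8 a
  obtain ⟨s, hs⟩ : ∃ s : ℝ, s = Real.sqrt (1 / (2 * τ)) := ⟨_, rfl⟩
  have hs2 : s ^ 2 = 1 / (2 * τ) := by rw [hs]; exact Real.sq_sqrt (by positivity)
  have hs0 : 0 ≤ s := by rw [hs]; exact Real.sqrt_nonneg _
  have hsL : Om T / X ≤ s ^ 2 := by
    rw [hs2, div_le_div_iff₀ hXp (by positivity)]; linarith only [h2]
  have hsL2 : s ^ 2 ≤ Om T / m := by
    rw [hs2, div_le_div_iff₀ (by positivity) hm]; linarith only [h1]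
  have hs3 : 30000 ^ 2 + 25 / ρ ^ 2 ≤ s ^ 2 := by
    refine le_trans ?_ hsL
    rw [le_div_iff₀ hXp]; linarith only [hOm2]
  have hs4 : 30000 ≤ s := by
    have h0 : (0 : ℝ) ≤ 25 / ρ ^ 2 := by positivity
    exact (sq_le_sq₀ (by norm_num) hs0).1 (by linarith only [h0, hs3])
  have hs5 : 5 / ρ ≤ s := by
    refine (sq_le_sq₀ (by positivity) hs0).1 ?_
    rw [div_pow]
    have e : (5 : ℝ) ^ 2 = 25 := by norm_num
    rw [e]
    linarith only [hs3]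
  have hs1 : 1 ≤ s := by linarith only [hs4]
  obtain ⟨σ, hσ⟩ : ∃ σ : ℝ, σ = 2 * τ * a.re := ⟨_, rfl⟩
  obtain ⟨b, hb⟩ : ∃ b : ℝ, b = 2 * τ * a.im := ⟨_, rfl⟩
  obtain ⟨z, hz⟩ : ∃ z : ℂ, z = I * T + 2 * τ * a := ⟨_, rfl⟩
  obtain ⟨p, hpd⟩ : ∃ p : ℂ, p = z + ((2 * τ * Om T : ℝ) : ℂ) := ⟨_, rfl⟩
  have hzr : z.re = σ := by rw [hz, hσ]; simp [Complex.mul_re]
  have hzi : z.im = T + b := by rw [hz, hb]; simp [Complex.mul_im]
  rw [← hσ] at haC hag1 hag2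
  rw [← hb] at hac
  have hρb : |b| + ρ ≤ 1 := by linarith only [hac, hc1, hρ2]
  have hq1 : y + ε2 ≤ σ + 2 * τ * Om T - ρ := by linarith only [hag2, hρ1, hε21, hε13]
  have hq2 : σ + 2 * τ * Om T + ρ ≤ R := by linarith only [haC, h2, hρ2, hRCX]
  have hLc : Lc ρ s θ (Om T : ℂ) p XX := lc_of (R := R) (y := y) hτ hs2 hXp h2 hθ0.le hε22 hLp.le
    (fun u h1 h2 h3 => ⟨(hl T g3 u h1 h2 h3).1, (hl T g3 u h1 h2 h3).2.1⟩) hpd hzr hzi hρb hq1 hq2
  obtain ⟨w0, hw0, -, hw2⟩ := sad hρ0 hρ2 hs4 hs5 hθ0 hθ1 hLc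
  have hzz : p - (Om T : ℂ) / (s : ℂ) ^ 2 = z := by
    have e1 : ((s : ℂ)) ^ 2 = ((1 / (2 * τ) : ℝ) : ℂ) := by rw [← hs2]; push_cast; ring
    rw [e1, hpd]
    have : (τ : ℂ) ≠ 0 := by exact_mod_cast hτ.ne'
    push_cast
    field_simp
    ring
  rw [hzz, ← ha0] at hw2
  have hpr : p.re = σ + 2 * τ * Om T := by rw [hpd, Complex.add_re, Complex.ofReal_re, hzr]
  have hpi : p.im = T + b := by rw [hpd, Complex.add_im, Complex.ofReal_im, hzi, add_zero]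
  have hv1 : |w0.re - (σ + 2 * τ * Om T)| ≤ θ := by
    have := (Complex.abs_re_le_norm (w0 - p)).trans hw0
    rwa [Complex.sub_re, hpr] at this
  have hv2 : |w0.im - (T + b)| ≤ θ := by
    have := (Complex.abs_im_le_norm (w0 - p)).trans hw0
    rwa [Complex.sub_im, hpi] at this
  have hv1' := abs_le.1 hv1
  have hv2' := abs_le.1 hv2
  have hac' := abs_le.1 hac
  have hre0 : (w0 - I * (T : ℂ)).re = w0.re := by simp
  have him0 : (w0 - I * (T : ℂ)).im = w0.im - T := by simp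
  have himb : |w0.im - T| ≤ 1 := by
    rw [abs_le]; constructor <;> linarith only [hv2'.1, hv2'.2, hac'.1, hac'.2, hθ2, hc1]
  obtain ⟨s1, -, s3, -⟩ := hl T g3 (w0 - I * T)
    (by rw [hre0]; linarith only [hv1'.1, hq1, hρ0, hθ1])
    (by rw [hre0]; linarith only [hv1'.2, hq2, hρ0, hθ1]) (by rw [him0]; exact himb)
  rw [show I * (T : ℂ) + (w0 - I * T) = w0 by ring] at s1 s3
  rw [hre0] at s3
  have hHp : 0 < ‖HH (I * T)‖ := by
    have h0 : HH (I * T) ≠ 0 := by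
      apply Pool.Agent.H24R2.JP.StirAux.HH_ne
      simpa using hTp
    exact norm_pos_iff.2 h0
  have hc4 : c ^ 2 / (4 * τ) ≤ κ / 16 * Om T := by
    refine (inv_le hτ hm h1 (by positivity)).trans ?_
    rw [div_le_iff₀ (by positivity)]
    have e1 : c ^ 2 ≤ κ * m / 8 := by
      have : c * c ≤ 1 * (κ * m / 8) := mul_le_mul (by linarith only [hc1]) hc2 hc0.le (by norm_num)
      linarith only [this]
    have e2 : c ^ 2 * Om T ≤ κ * m / 8 * Om T := mul_le_mul_of_nonneg_right e1 hLp.le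
    linarith only [e2]
  have hfin := core_step (a := a) (w0 := w0) (z := z) (R0 := R0) (R := R) (T := T) (L := Om T) (b := b)
    hτ hm hXp h1 h2 hLp hs2 hs1 hsL2
    (by linarith only [hag1] : 2 * y + g ≤ 2 * σ + 2 * τ * Om T) hg
    (by linarith only [hag2] : y + g ≤ σ + 2 * τ * Om T) hy0 hρ0 hρ1 hρ2 ha0 hκ0 hκ3 hκ1 hκ2 hc1 hc4 hε10 hε12
    hθ0 hθ1 hθ2 hθ3 hθ4 hε21 hgr hHp hz hσ hb hac hzr hzi hRR0
    (by linarith only [haC, h2, hRCX]) hOm3' hOm4' hv1 hv2 s3 hw2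
    (by
      intro w q1 q2 q3
      have e1 : (w - I * (T : ℂ)).re = w.re := by simp
      have e2 : (w - I * (T : ℂ)).im = w.im - T := by simp
      have h5 := hp T g2 (w - I * T) (by rw [e1]; exact q1) (by rw [e1]; exact q2)
        (by rw [e2]; exact q3)
      rw [show I * (T : ℂ) + (w - I * T) = w by ring, e1] at h5
      exact h5)
    (fun r hr => ht T τ a.re r g1 hτ h1 h2 (by rw [← hσ]; exact haC) hr) hJi
  rw [norm_mul, Complex.norm_exp] at hfin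
  have e2 : (-((τ : ℂ) * a ^ 2)).re = -(τ * (a.re ^ 2 - a.im ^ 2)) := by
    rw [Complex.neg_re, Complex.re_ofReal_mul, re_sq]
  rw [e2] at hfin
  have e5 : ‖JT τ T a‖ = Real.exp (τ * (a.re ^ 2 - a.im ^ 2)) *
      (Real.exp (-(τ * (a.re ^ 2 - a.im ^ 2))) * ‖JT τ T a‖) := by
    rw [← mul_assoc, ← Real.exp_add]; simp
  rw [e5]
  calc Real.exp (τ * ((Om T + a.re) ^ 2 - a.im ^ 2) - δ * Om T) * ‖HH (I * T)‖
      ≤ Real.exp (τ * (a.re ^ 2 - a.im ^ 2) + ((Om T * σ + τ * Om T ^ 2) - 4 * ε1 * Om T)) * ‖HH (I * T)‖ := by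
        have e6 : τ * ((Om T + a.re) ^ 2 - a.im ^ 2) = τ * (a.re ^ 2 - a.im ^ 2) + (Om T * σ + τ * Om T ^ 2) := by
          rw [hσ]; ring
        have e7 : 8 * ε1 * Om T ≤ δ * Om T := mul_le_mul_of_nonneg_right (by linarith only [hε11]) hLp.le
        have e8 : 0 < ε1 * Om T := by positivity
        have : τ * ((Om T + a.re) ^ 2 - a.im ^ 2) - δ * Om T ≤
            τ * (a.re ^ 2 - a.im ^ 2) + ((Om T * σ + τ * Om T ^ 2) - 4 * ε1 * Om T) := by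
          rw [e6]
          linarith only [e7, e8]
        gcongr
    _ = Real.exp (τ * (a.re ^ 2 - a.im ^ 2)) *
        (Real.exp ((Om T * σ + τ * Om T ^ 2) - 4 * ε1 * Om T) * ‖HH (I * T)‖) := by
        rw [Real.exp_add, mul_assoc]
    _ ≤ _ := by gcongr

end Pool.Agent.W186.HZ
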