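import Pool.Agent.W186.HZ.Jt

set_option autoImplicit false

namespace Pool.Agent.W186.HZ

open Complex Filter Topology MeasureTheory Set
open Pool.Agent.H24R2.JP (XX HH Om)
open Pool.Agent.H986R2.DBN (JT XT)

lemma expint : IntegrableOn (fun r : ℝ => Real.exp (-r)) (Ioi 0) ∧ ∫ r in Ioi (0 : ℝ), Real.exp (-r) = 1 := by
  refine ⟨?_, integral_exp_neg_Ioi_zero⟩
  have := exp_neg_integrableOn_Ioi 0 (b := 1) one_pos
  simpa using this

lemma quad_max {τ L α r : ℝ} (hτ : 0 < τ) : -(r ^ 2 / (4 * τ)) + α * r + L * r ≤ τ * (L + α) ^ 2 := by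
  have h : 0 ≤ (2 * τ * (L + α) - r) ^ 2 / (4 * τ) := by positivity
  have e : (2 * τ * (L + α) - r) ^ 2 / (4 * τ) = τ * (L + α) ^ 2 - (α * r + L * r) + r ^ 2 / (4 * τ) := by
    field_simp
    ring
  linarith

lemma ju {y : ℝ} (hy0 : 0 ≤ y) (hy1 : y ≤ 1 / 2) (h : CT y) (m X C ε : ℝ) (hm : 0 < m) (hX : m ≤ X)
    (hC : 0 ≤ C) (hε : 0 < ε) : ∃ T0 : ℝ, 400 ≤ T0 ∧
    ∀ T τ : ℝ, T0 ≤ T → 0 < τ → m ≤ 2 * τ * Om T → 2 * τ * Om T ≤ X → ∀ a : ℂ, 2 * τ * a.re ≤ C →
      ‖JT τ T a‖ ≤ Real.exp (max (τ * (Om T + a.re) ^ 2) (Om T * y + max a.re 0 * y) + ε * Om T) *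
        ‖HH (I * T)‖ := by
  obtain ⟨R0, T1, hR0, hT1, ht⟩ := tail m X C hm hX hC
  obtain ⟨T2, hT2, hp⟩ := prof hy0 hy1 h (ε / 2) R0 (by linarith) hR0
  obtain ⟨T4, hT4, hO⟩ := Om_large (max (2 * R0 / ε) (4 * X + 1))
  refine ⟨max (max T1 T2) T4, hT4.trans (le_max_right _ _), ?_⟩
  intro T τ hT hτ h1 h2 a ha
  have g1 : T1 ≤ T := ((le_max_left _ _).trans (le_max_left _ _)).trans hT
  have g2 : T2 ≤ T := ((le_max_right _ _).trans (le_max_left _ _)).trans hT
  have g4 : T4 ≤ T := (le_max_right _ _).trans hT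
  have hOm := hO T g4
  have hOm1 : 2 * R0 / ε ≤ Om T := (le_max_left _ _).trans hOm
  have hOm2 : 4 * X + 1 ≤ Om T := (le_max_right _ _).trans hOm
  rw [div_le_iff₀ hε] at hOm1
  have hXp : 0 < X := by linarith
  obtain ⟨L, hL⟩ : ∃ L : ℝ, L = Om T := ⟨_, rfl⟩
  have ht' := fun r hr => ht T τ a.re r g1 hτ h1 h2 ha hr
  have hp' := fun (r : ℝ) (hr0 : 0 ≤ r) (hr1 : r ≤ R0) => hp T g2 (r : ℂ) (by simpa using hr0)
    (by simpa using hr1) (by simp)
  rw [← hL] at h1 h2 hOm1 hOm2 ht' hp' ⊢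
  have hLp : 0 < L := by linarith
  obtain ⟨M, hM⟩ : ∃ M : ℝ, M = max (τ * (L + a.re) ^ 2) (L * y + max a.re 0 * y) := ⟨_, rfl⟩
  rw [← hM]
  have hM1 : τ * (L + a.re) ^ 2 ≤ M := by rw [hM]; exact le_max_left _ _
  have hM2 : L * y + max a.re 0 * y ≤ M := by rw [hM]; exact le_max_right _ _
  have hM0 : 0 ≤ M := le_trans (by positivity) hM1
  have hb : ∀ r : ℝ, 0 < r → ‖Fj τ T a r‖ ≤ Real.exp (M + ε * L) * ‖HH (I * T)‖ * Real.exp (-r) := by
    intro r hr
    rw [Fj_norm]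
    rcases le_or_gt r R0 with hrR | hrR
    · have h3 := hp' r hr.le hrR
      rw [Complex.ofReal_re] at h3
      have h4 : -(r ^ 2 / (4 * τ)) + a.re * r + L * max r y ≤ M := by
        rcases le_total y r with hyr | hyr
        · rw [max_eq_left hyr]
          exact (quad_max hτ).trans hM1
        · rw [max_eq_right hyr]
          have h5 : a.re * r ≤ max a.re 0 * y := by
            calc a.re * r ≤ max a.re 0 * r := mul_le_mul_of_nonneg_right (le_max_left _ _) hr.le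
              _ ≤ max a.re 0 * y := mul_le_mul_of_nonneg_left hyr (le_max_right _ _)
          have h6 : 0 ≤ r ^ 2 / (4 * τ) := by positivity
          linarith
      calc Real.exp (-(r ^ 2 / (4 * τ)) + a.re * r) * ‖XX (I * T + r)‖
          ≤ Real.exp (-(r ^ 2 / (4 * τ)) + a.re * r) *
            (Real.exp (L * (max r y + ε / 2)) * ‖HH (I * T)‖) := by gcongr
        _ = Real.exp (-(r ^ 2 / (4 * τ)) + a.re * r + L * (max r y + ε / 2)) * ‖HH (I * T)‖ := by
            rw [← mul_assoc, ← Real.exp_add]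
        _ ≤ Real.exp (M + ε * L + -r) * ‖HH (I * T)‖ := by
            have : -(r ^ 2 / (4 * τ)) + a.re * r + L * (max r y + ε / 2) ≤ M + ε * L + -r := by
              nlinarith
            gcongr
        _ = _ := by rw [Real.exp_add]; ring
    · refine (ht' r hrR.le).trans ?_
      rw [mul_assoc, mul_comm ‖HH (I * T)‖, ← mul_assoc, ← Real.exp_add]
      have : -L - r ≤ M + ε * L + -r := by nlinarith
      gcongr
  have hint := expint.1.const_mul (Real.exp (M + ε * L) * ‖HH (I * T)‖)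
  have h7 : ‖JT τ T a‖ ≤ ∫ r in Ioi (0 : ℝ), Real.exp (M + ε * L) * ‖HH (I * T)‖ * Real.exp (-r) := by
    have e : JT τ T a = ∫ r in Ioi (0 : ℝ), Fj τ T a r := rfl
    rw [e]
    exact norm_integral_le_of_norm_le hint
      ((ae_restrict_mem measurableSet_Ioi).mono fun r hr => hb r hr)
  rw [integral_const_mul, expint.2, mul_one] at h7
  exact h7

end Pool.Agent.W186.HZ
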