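import Pool.Agent.W186.HZ.Prof
import Pool.Agent.H986R2.DBN.All

set_option autoImplicit false

/-!
# The half-line integrals `JT`
-/

namespace Pool.Agent.W186.HZ

open Complex Filter Topology MeasureTheory Set
open Pool.Agent.H24R2.JP (XX HH Om)
open Pool.Agent.H986R2.DBN (JT XT)

lemma inv_le {τ lam m A : ℝ} (hτ : 0 < τ) (hm : 0 < m) (h1 : m ≤ 2 * τ * lam) (hA : 0 ≤ A) :
    A / (4 * τ) ≤ A * lam / (2 * m) := by
  rw [div_le_div_iff₀ (by positivity) (by positivity)]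
  nlinarith

lemma inv_ge {τ lam X A : ℝ} (hτ : 0 < τ) (hX : 0 < X) (h2 : 2 * τ * lam ≤ X) (hA : 0 ≤ A) :
    A * lam / (2 * X) ≤ A / (4 * τ) := by
  rw [div_le_div_iff₀ (by positivity) (by positivity)]
  nlinarith

lemma crudeX : ∃ K T0 : ℝ, 1 ≤ K ∧ 400 ≤ T0 ∧ ∀ T r : ℝ, T0 ≤ T → 0 < r →
    ‖XX (I * T + r)‖ ≤ Real.exp (K * Om T + (Om T + K) * r + r ^ 2 / 2) * ‖HH (I * T)‖ := by
  obtain ⟨K1, T1, hK1, hT1, h1⟩ := Pool.Agent.H986R2.DBN.stir2
  obtain ⟨K2, T2, hK2, hT2, h2⟩ := Pool.Agent.H986R2.DBN.xbA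
  obtain ⟨K, hKd⟩ : ∃ K : ℝ, K = max K1 K2 := ⟨_, rfl⟩
  have hK : 1 ≤ K := by rw [hKd]; exact hK1.trans (le_max_left _ _)
  obtain ⟨c, hc⟩ : ∃ c : ℝ, c = K * (16 * K ^ 4) ^ (7 / 4 : ℝ) := ⟨_, rfl⟩
  have hc0 : 0 ≤ c := by rw [hc]; positivity
  refine ⟨4 + K + 1 + c, max (max T1 T2) (max 400 (16 * (16 * K ^ 4))), by linarith,
    (le_max_left _ _).trans (le_max_right _ _), ?_⟩
  intro T r hT hr
  have ht1 : T1 ≤ T := le_trans ((le_max_left _ _).trans (le_max_left _ _)) hT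
  have ht2 : T2 ≤ T := le_trans ((le_max_right _ _).trans (le_max_left _ _)) hT
  have ht3 : 400 ≤ T := le_trans ((le_max_left _ _).trans (le_max_right _ _)) hT
  have ht4 : 16 * (16 * K ^ 4) ≤ T := le_trans ((le_max_right _ _).trans (le_max_right _ _)) hT
  have D := Pool.Agent.H986R2.DBN.Jst.dat hK1 (fun t ht => ⟨(h1 t ht).1, (h1 t ht).2.1⟩) h2 ht1 ht2
    (by linarith) (by rw [← hKd]; exact ht4)
  rw [← hKd] at D
  have hTp : 0 < T := by linarith
  have hlog : 1 ≤ Real.log T := by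
    rw [Real.le_log_iff_exp_le hTp]
    have := Real.exp_one_lt_d9
    linarith
  have hOd : Om T = Real.log T / 2 := rfl
  have hO : 0 ≤ Om T := by rw [hOd]; linarith
  have h3 := Pool.Agent.H986R2.DBN.Jst.crude D hO hr
  rw [← hc] at h3
  refine h3.trans ?_
  have hT2 : T ^ 2 = Real.exp (4 * Om T) := by
    have : Real.exp (4 * Om T) = Real.exp (Real.log T) ^ 2 := by
      rw [← Real.exp_nat_mul]; congr 1; rw [hOd]; push_cast; ring
    rw [this, Real.exp_log hTp]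
  have hK' : K * T ^ 2 + 1 ≤ Real.exp ((4 + K + 1) * Om T) := by
    have e1 : K + 1 ≤ Real.exp ((K + 1) * (Om T)) := by
      have h4 : 2 * (K + 1) * Om T ≤ 2 * (Real.exp ((K + 1) * Om T) - 1) := by
        have := Real.add_one_le_exp ((K + 1) * Om T)
        linarith
      have h5 : 1 ≤ 2 * Om T := by rw [hOd]; linarith
      have h6 : 5 / 2 ≤ Om T := by
        have h7 : Real.exp 5 ≤ 400 := by
          have h8 : Real.exp 5 = Real.exp 1 ^ 5 := by rw [← Real.exp_nat_mul]; norm_num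
          rw [h8]
          have h9 := Real.exp_one_lt_d9
          calc Real.exp 1 ^ 5 ≤ (2.7182818286 : ℝ) ^ 5 := by gcongr
            _ ≤ 400 := by norm_num
        have : 5 ≤ Real.log T := by
          rw [Real.le_log_iff_exp_le hTp]; linarith
        rw [hOd]; linarith
      nlinarith
    have e2 : 1 ≤ Real.exp (4 * Om T) := Real.one_le_exp (by linarith)
    calc K * T ^ 2 + 1 ≤ (K + 1) * Real.exp (4 * Om T) := by rw [hT2]; nlinarith
      _ ≤ Real.exp ((K + 1) * Om T) * Real.exp (4 * Om T) := by gcongr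
      _ = _ := by rw [← Real.exp_add]; congr 1; ring
  have e3 : (K * T ^ 2 * ‖HH (I * T)‖ + ‖HH (I * T)‖) = (K * T ^ 2 + 1) * ‖HH (I * T)‖ := by ring
  rw [e3]
  have hc1 : Real.exp c ≤ Real.exp (c * Om T) := by
    apply Real.exp_le_exp.2
    have h6 : 1 ≤ Om T := by
      have h7 : Real.exp 2 ≤ 400 := by
        have h8 : Real.exp 2 = Real.exp 1 ^ 2 := by rw [← Real.exp_nat_mul]; norm_num
        rw [h8]
        have h9 := Real.exp_one_lt_d9
        calc Real.exp 1 ^ 2 ≤ (2.7182818286 : ℝ) ^ 2 := by gcongr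
          _ ≤ 400 := by norm_num
      have : 2 ≤ Real.log T := by
        rw [Real.le_log_iff_exp_le hTp]; linarith
      rw [hOd]; linarith
    nlinarith
  calc (K * T ^ 2 + 1) * ‖HH (I * T)‖ * Real.exp c * Real.exp ((Om T + K) * r + r ^ 2 / 2)
      ≤ Real.exp ((4 + K + 1) * Om T) * ‖HH (I * T)‖ *
        Real.exp (c * Om T) * Real.exp ((Om T + K) * r + r ^ 2 / 2) := by gcongr
    _ = Real.exp ((4 + K + 1 + c) * Om T + (Om T + K) * r + r ^ 2 / 2) * ‖HH (I * T)‖ := by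
        have e5 : Real.exp ((4 + K + 1 + c) * Om T + (Om T + K) * r + r ^ 2 / 2) =
            Real.exp ((4 + K + 1) * Om T) * Real.exp (c * Om T) *
              Real.exp ((Om T + K) * r + r ^ 2 / 2) := by
          rw [← Real.exp_add, ← Real.exp_add]
          congr 1
          ring
        rw [e5]
        ring
    _ ≤ _ := by
        have : (4 + K + 1 + c) * Om T + (Om T + K) * r + r ^ 2 / 2 ≤
            (4 + K + 1 + c) * Om T + (Om T + (4 + K + 1 + c)) * r + r ^ 2 / 2 := by nlinarith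
        have := Real.exp_le_exp.2 this
        gcongr

/-- integrand -/
noncomputable def Fj (τ T : ℝ) (a : ℂ) (r : ℝ) : ℂ := cexp (-(r : ℂ) ^ 2 / (4 * τ) + a * r) * XX (I * T + r)

lemma Fj_norm (τ T : ℝ) (a : ℂ) (r : ℝ) :
    ‖Fj τ T a r‖ = Real.exp (-(r ^ 2 / (4 * τ)) + a.re * r) * ‖XX (I * T + r)‖ := by
  unfold Fj
  rw [norm_mul, Pool.Agent.H986R2.DBN.Jst.g_norm]
  unfold Pool.Agent.H986R2.DBN.Jst.g
  congr 2
  ring

lemma Fj_cont (τ T : ℝ) (a : ℂ) : Continuous (Fj τ T a) := by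
  have := Pool.Agent.H986R2.DBN.Jst.XX_cont
  unfold Fj
  fun_prop

/-- `JT` is entire -/
lemma JT_diff : ∃ T0 : ℝ, 400 ≤ T0 ∧ ∀ T τ : ℝ, T0 ≤ T → 0 < τ → τ ≤ 1 / 8 → ∀ a : ℂ,
    IntegrableOn (Fj τ T a) (Ioi 0) ∧ DifferentiableAt ℂ (JT τ T) a := by
  obtain ⟨K, T0, hK, hT0, hcr⟩ := crudeX
  refine ⟨T0, hT0, ?_⟩
  intro T τ hT hτ hτ8 a
  have hb : ∀ (x : ℂ) (r : ℝ), 0 < r → ‖Fj τ T x r‖ ≤
      Real.exp (K * Om T) * ‖HH (I * T)‖ * Pool.Agent.H986R2.DBN.Jst.g (1 / 6) (x.re + (Om T + K)) r := by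
    intro x r hr
    rw [Fj_norm]
    have h4 : 2 * r ^ 2 ≤ r ^ 2 / (4 * τ) := by
      rw [le_div_iff₀ (by positivity)]
      nlinarith [sq_nonneg r]
    calc Real.exp (-(r ^ 2 / (4 * τ)) + x.re * r) * ‖XX (I * T + r)‖
        ≤ Real.exp (-(2 * r ^ 2) + x.re * r) *
          (Real.exp (K * Om T + (Om T + K) * r + r ^ 2 / 2) * ‖HH (I * T)‖) := by
          have := hcr T r hT hr
          gcongr
      _ = _ := by
          unfold Pool.Agent.H986R2.DBN.Jst.g
          rw [mul_comm (Real.exp (K * Om T)), mul_assoc, ← Real.exp_add, ← mul_assoc, mul_comm,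
            ← Real.exp_add]
          congr 2
          ring
  have hi : ∀ x : ℂ, IntegrableOn (Fj τ T x) (Ioi 0) := by
    intro x
    refine Integrable.mono' (((Pool.Agent.H986R2.DBN.Jst.gauss_r (1 / 6) (by norm_num)
      (x.re + (Om T + K))).1.const_mul (Real.exp (K * Om T) * ‖HH (I * T)‖)).integrableOn)
      (Fj_cont τ T x).aestronglyMeasurable.restrict ?_
    exact (ae_restrict_mem measurableSet_Ioi).mono fun r hr => hb x r hr
  refine ⟨hi a, ?_⟩
  have key := hasDerivAt_integral_of_dominated_loc_of_deriv_le (μ := volume.restrict (Set.Ioi (0:ℝ)))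
    (F := Fj τ T) (F' := fun a r => (r : ℂ) * Fj τ T a r) (x₀ := a) (s := Metric.ball a 1)
    (bound := fun r => Real.exp (K * Om T) * ‖HH (I * T)‖ *
      Pool.Agent.H986R2.DBN.Jst.g (1 / 6) (|a.re| + 1 + (Om T + K) + 1) r)
    (Metric.ball_mem_nhds a one_pos)
    (Filter.Eventually.of_forall fun x => (Fj_cont τ T x).aestronglyMeasurable)
    (hi a)
    ((continuous_ofReal.mul (Fj_cont τ T a)).aestronglyMeasurable)
    ?_ (((Pool.Agent.H986R2.DBN.Jst.gauss_r (1 / 6) (by norm_num) _).1.const_mul _).integrableOn) ?_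
  · exact key.2.differentiableAt
  · refine (ae_restrict_mem measurableSet_Ioi).mono fun r hr x hx => ?_
    have hr0 : 0 < r := hr
    rw [norm_mul, Complex.norm_real, Real.norm_of_nonneg hr0.le]
    have b2 : x.re ≤ |a.re| + 1 := by
      have h3 : |(x - a).re| ≤ 1 := (abs_re_le_norm _).trans (mem_ball_iff_norm.1 hx).le
      rw [sub_re] at h3
      have h4 := (abs_le.1 h3).2
      have h5 := le_abs_self a.re
      linarith
    have b4 : r ≤ Real.exp r := by
      have := Real.add_one_le_exp r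
      linarith
    have hH := norm_nonneg (HH (I * T))
    calc r * ‖Fj τ T x r‖ ≤ Real.exp r * (Real.exp (K * Om T) * ‖HH (I * T)‖ *
          Pool.Agent.H986R2.DBN.Jst.g (1 / 6) (x.re + (Om T + K)) r) := by
          have := hb x r hr0
          gcongr
      _ = Real.exp (K * Om T) * ‖HH (I * T)‖ *
          (Real.exp r * Pool.Agent.H986R2.DBN.Jst.g (1 / 6) (x.re + (Om T + K)) r) := by ring
      _ ≤ _ := by
          have h6 : Real.exp r * Pool.Agent.H986R2.DBN.Jst.g (1 / 6) (x.re + (Om T + K)) r ≤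
              Pool.Agent.H986R2.DBN.Jst.g (1 / 6) (|a.re| + 1 + (Om T + K) + 1) r := by
            unfold Pool.Agent.H986R2.DBN.Jst.g
            rw [← Real.exp_add]
            apply Real.exp_le_exp.2
            nlinarith
          gcongr
  · refine Filter.Eventually.of_forall fun r x _ => ?_
    unfold Fj
    have d1 : HasDerivAt (fun x : ℂ => -(r : ℂ) ^ 2 / (4 * τ) + x * r) (r : ℂ) x := by
      have := ((hasDerivAt_id x).mul_const (r : ℂ)).const_add (-(r : ℂ) ^ 2 / (4 * τ))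
      simpa using this
    have d2 := (d1.cexp).mul_const (XX (I * T + r))
    refine d2.congr_deriv ?_
    ring

/-- the far tail -/
lemma tail (m X C : ℝ) (hm : 0 < m) (hX : m ≤ X) (hC : 0 ≤ C) : ∃ R0 T0 : ℝ, 1 ≤ R0 ∧ 400 ≤ T0 ∧
    ∀ T τ α r : ℝ, T0 ≤ T → 0 < τ → m ≤ 2 * τ * Om T → 2 * τ * Om T ≤ X → 2 * τ * α ≤ C → R0 ≤ r →
      Real.exp (-(r ^ 2 / (4 * τ)) + α * r) * ‖XX (I * T + r)‖ ≤
        Real.exp (-(Om T) - r) * ‖HH (I * T)‖ := by
  obtain ⟨K, T1, hK, hT1, hcr⟩ := crudeX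
  have hXp : 0 < X := by linarith
  obtain ⟨T2, hT2, hO⟩ := Om_large (4 * X + K + 1)
  obtain ⟨B, hB⟩ : ∃ B : ℝ, B = C / m + 4 + K := ⟨_, rfl⟩
  have hB0 : 5 ≤ B := by
    rw [hB]
    have : 0 ≤ C / m := by positivity
    linarith
  refine ⟨max 1 (8 * X * B), max T1 T2, le_max_left _ _, hT1.trans (le_max_left _ _), ?_⟩
  intro T τ α r hT hτ h1 h2 hα hr
  have g1 : T1 ≤ T := (le_max_left _ _).trans hT
  have g2 : T2 ≤ T := (le_max_right _ _).trans hT
  have hOm := hO T g2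
  have hr1 : 1 ≤ r := (le_max_left _ _).trans hr
  have hr2 : 8 * X * B ≤ r := (le_max_right _ _).trans hr
  have hcr' := hcr T r g1 (by linarith)
  obtain ⟨L, hL⟩ : ∃ L : ℝ, L = Om T := ⟨_, rfl⟩
  rw [← hL] at h1 h2 hOm hcr' ⊢
  have hLp : 0 < L := by linarith
  have hαb : α ≤ C / m * L := by
    -- α ≤ C / (2 τ) ≤ C L / m
    have h3 : α ≤ C / (2 * τ) := by
      rw [le_div_iff₀ (by positivity)]; linarith
    refine h3.trans ?_
    rw [div_mul_eq_mul_div, div_le_div_iff₀ (by positivity) hm]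
    nlinarith
  have hq : r ^ 2 * L / (2 * X) ≤ r ^ 2 / (4 * τ) := inv_ge hτ hXp h2 (by positivity)
  have hexp : -(r ^ 2 / (4 * τ)) + α * r + (K * L + (L + K) * r + r ^ 2 / 2) ≤ -L - r := by
    have a1 : α * r ≤ C / m * L * r := by gcongr
    have a2 : r ^ 2 / 2 ≤ r ^ 2 * L / (8 * X) := by
      rw [div_le_div_iff₀ (by norm_num) (by positivity)]
      nlinarith [sq_nonneg r]
    have a3 : r ^ 2 * L / (2 * X) = r ^ 2 * L / (8 * X) + 3 * (r ^ 2 * L / (8 * X)) := by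
      field_simp
      ring
    have a4 : B * L * r ≤ r ^ 2 * L / (8 * X) := by
      rw [le_div_iff₀ (by positivity)]
      have : 8 * X * B * (L * r) ≤ r * (L * r) := by gcongr
      nlinarith
    have a5 : K * r ≤ L * r := by
      have : K ≤ L := by linarith
      gcongr
    have a6 : K * L ≤ K * L * r := le_mul_of_one_le_right (by positivity) hr1
    have a7 : B * L * r = C / m * L * r + 4 * (L * r) + K * L * r := by rw [hB]; ring
    have a8 : L ≤ L * r := le_mul_of_one_le_right hLp.le hr1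
    have a9 : r ≤ L * r := by
      have : 1 ≤ L := by linarith
      nlinarith
    have a10 : 0 ≤ B * L * r := by positivity
    linarith
  calc Real.exp (-(r ^ 2 / (4 * τ)) + α * r) * ‖XX (I * T + r)‖
      ≤ Real.exp (-(r ^ 2 / (4 * τ)) + α * r) *
        (Real.exp (K * L + (L + K) * r + r ^ 2 / 2) * ‖HH (I * T)‖) := by gcongr
    _ = Real.exp (-(r ^ 2 / (4 * τ)) + α * r + (K * L + (L + K) * r + r ^ 2 / 2)) * ‖HH (I * T)‖ := by
        rw [← mul_assoc, ← Real.exp_add]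
    _ ≤ _ := by gcongr

end Pool.Agent.W186.HZ
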