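import Pool.Agent.W186.DX.Sets
import Pool.Agent.H986R2.K4.PL
import Pool.Agent.H986R2.K4.HHb

set_option autoImplicit false

/-!
# Size of `XX` near height `T`, to the right of the imaginary axis
-/

namespace Pool.Agent.W186.HZ

open Complex Filter Topology MeasureTheory Set
open Pool.Agent.H24R2.JP (XX HH Om)
open Pool.Agent.W186.DX (F F_zero Wd zf base0 AF NZ HH_compare)

/-- control to the right of `y` at all large heights -/
def CT (y : ℝ) : Prop := ∀ ε R : ℝ, 0 < ε → ε ≤ 1 → 1 ≤ R → ∃ T0 : ℝ, 400 ≤ T0 ∧ ∀ t : ℝ, T0 ≤ t →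
  Wd 0 y ε R t

lemma ct_half : CT (1 / 2) := fun ε R h _ hR => base0 ε R h hR

lemma ct_of_AF {y : ℝ} (hy : 0 ≤ y) (hy1 : y < 1 / 2) (h : AF 0 y) : CT y := by
  intro ε R hε hε1 hR
  obtain ⟨ε', he⟩ : ∃ ε' : ℝ, ε' = min (ε / 2) (1 / 2 - y) := ⟨_, rfl⟩
  have he0 : 0 < ε' := by rw [he]; exact lt_min (by linarith) (by linarith)
  have he1 : ε' ≤ ε / 2 := by rw [he]; exact min_le_left _ _
  have he2 : ε' ≤ 1 / 2 - y := by rw [he]; exact min_le_right _ _
  obtain ⟨T1, hT1, hz⟩ := zf 0 (y + ε') ε' R (by linarith) (by linarith) he0 (by linarith) hR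
  obtain ⟨T2, hT2, hn⟩ := h.NZ ε' 10 he0 (by norm_num)
  refine ⟨max T1 T2, hT1.trans (le_max_left _ _), fun t ht => ?_⟩
  have g1 : T1 ≤ t := (le_max_left _ _).trans ht
  have g2 : T2 ≤ t := (le_max_right _ _).trans ht
  have hl : 1 ≤ Real.log t := by
    rw [Real.le_log_iff_exp_le (by linarith)]
    have := Real.exp_one_lt_d9
    linarith
  have hw := hz t g1 fun z hz1 hz2 => hn t g2 z hz1 (by linarith)
  intro z h1 h2 h3
  obtain ⟨a1, a2, a3, a4⟩ := hw z (by linarith) h2 h3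
  have hO : 0 ≤ Om t := by unfold Om; linarith
  refine ⟨a1, a2.trans (by nlinarith), le_trans ?_ a3, a4.trans ?_⟩
  · have : Real.exp (-(ε * Real.log t)) ≤ Real.exp (-(ε' * Real.log t)) :=
      Real.exp_le_exp.2 (by nlinarith)
    gcongr
  · have : Real.exp (ε' * Real.log t) ≤ Real.exp (ε * Real.log t) :=
      Real.exp_le_exp.2 (by nlinarith)
    gcongr

lemma Om_tendsto : Tendsto Om atTop atTop := by
  have : Om = fun t => Real.log t / 2 := by funext t; rfl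
  rw [this]
  exact Real.tendsto_log_atTop.atTop_div_const (by norm_num)

lemma Om_large (c : ℝ) : ∃ T0 : ℝ, 400 ≤ T0 ∧ ∀ t : ℝ, T0 ≤ t → c ≤ Om t := by
  obtain ⟨T0, h⟩ := Filter.eventually_atTop.1 (Om_tendsto.eventually_ge_atTop c)
  exact ⟨max T0 400, le_max_right _ _, fun t ht => h t ((le_max_left _ _).trans ht)⟩

lemma log_near {t t' : ℝ} (ht : 400 ≤ t) (h : |t' - t| ≤ 1) :
    0 ≤ Real.log t' ∧ Real.log t' ≤ 2 * Om t + 1 := by
  rw [abs_le] at h
  have h1 : 0 < t' := by linarith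
  refine ⟨Real.log_nonneg (by linarith), ?_⟩
  have a1 : Real.log t' ≤ Real.log (2 * t) := Real.log_le_log h1 (by linarith)
  rw [Real.log_mul (by norm_num) (by linarith)] at a1
  have := Real.log_two_lt_d9
  unfold Om
  linarith

/-- bounds to the right of `y + ε` -/
lemma profL {y : ℝ} (hy0 : 0 ≤ y) (h : CT y) (ε R : ℝ) (hε : 0 < ε) (hR : 1 ≤ R) :
    ∃ T0 : ℝ, 400 ≤ T0 ∧ ∀ T : ℝ, T0 ≤ T → ∀ u : ℂ, y + ε ≤ u.re → u.re ≤ R → |u.im| ≤ 1 →
      XX (I * T + u) ≠ 0 ∧ ‖logDeriv XX (I * T + u) - (Om T : ℂ)‖ ≤ ε * Om T ∧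
      Real.exp (Om T * (u.re - ε)) * ‖HH (I * T)‖ ≤ ‖XX (I * T + u)‖ ∧
      ‖XX (I * T + u)‖ ≤ Real.exp (Om T * (u.re + ε)) * ‖HH (I * T)‖ := by
  obtain ⟨ε0, he⟩ : ∃ ε0 : ℝ, ε0 = min (ε / 8) 1 := ⟨_, rfl⟩
  have he0 : 0 < ε0 := by rw [he]; exact lt_min (by linarith) one_pos
  have he1 : ε0 ≤ ε / 8 := by rw [he]; exact min_le_left _ _
  have he2 : ε0 ≤ 1 := by rw [he]; exact min_le_right _ _
  obtain ⟨T1, hT1, hW⟩ := h ε0 R he0 he2 hR
  obtain ⟨K, hK, hH⟩ := Pool.Agent.H986R2.K4.hh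
  obtain ⟨T2, hT2, hH2⟩ := hH (R + 1) (by linarith)
  obtain ⟨T3, hT3, hO⟩ := Om_large ((2 + K * (R + 1)) * 8 / ε)
  refine ⟨max (max (T1 + 1) T2) T3, hT3.trans (le_max_right _ _), ?_⟩
  intro T hT u hu0 hu1 hu2
  have g1 : T1 + 1 ≤ T := ((le_max_left _ _).trans (le_max_left _ _)).trans hT
  have g2 : T2 ≤ T := ((le_max_right _ _).trans (le_max_left _ _)).trans hT
  have g3 : T3 ≤ T := (le_max_right _ _).trans hT
  have hOm := hO T g3
  rw [div_le_iff₀ hε] at hOm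
  have hT400 : 400 ≤ T := hT3.trans g3
  have hR1 : 0 ≤ K * (R + 1) := by positivity
  have hOp : 0 < Om T := by
    by_contra hc
    push Not at hc
    nlinarith
  have him : (I * (T : ℂ) + u).im = T + u.im := by simp
  have hre : (I * (T : ℂ) + u).re = u.re := by simp
  have hu2' := abs_le.1 hu2
  have hnear : |T + u.im - T| ≤ 1 := by rwa [add_sub_cancel_left]
  obtain ⟨l1, l2⟩ := log_near hT400 hnear
  obtain ⟨a1, a2, a3, a4⟩ := hW (T + u.im) (by linarith) (I * T + u) (by rw [hre]; linarith)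
    (by rw [hre]; exact hu1) him
  rw [F_zero] at a1 a2 a3 a4
  have hun : ‖u‖ ≤ R + 1 := by
    refine (Complex.norm_le_abs_re_add_abs_im u).trans ?_
    rw [abs_of_nonneg (by linarith : (0 : ℝ) ≤ u.re)]
    linarith
  obtain ⟨-, b1, -, b3, b4⟩ := hH2 T u g2 hun
  have hOn := Pool.Agent.W186.DX.Om_near hT400 hnear
  rw [abs_le] at hOn
  have e8 : 8 * ε0 * Om T ≤ ε * Om T := by nlinarith
  refine ⟨a1, ?_, ?_, ?_⟩
  · have e : logDeriv XX (I * T + u) - (Om T : ℂ) =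
        (logDeriv XX (I * T + u) - (Om (T + u.im) : ℂ)) + ((Om (T + u.im) - Om T : ℝ) : ℂ) := by
      push_cast; ring
    rw [e]
    refine (norm_add_le _ _).trans ?_
    have e2 : ‖((Om (T + u.im) - Om T : ℝ) : ℂ)‖ ≤ 1 := by
      rw [Complex.norm_real, Real.norm_eq_abs, abs_le]; exact hOn
    nlinarith
  · refine le_trans ?_ a3
    have h5 : Real.exp (Om T * u.re - K * (R + 1)) * ‖HH (I * T)‖ ≤ ‖HH (I * T + u)‖ := b3
    calc Real.exp (Om T * (u.re - ε)) * ‖HH (I * T)‖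
        ≤ Real.exp (-(ε0 * Real.log (T + u.im)) + (Om T * u.re - K * (R + 1))) * ‖HH (I * T)‖ := by
          have : Om T * (u.re - ε) ≤ -(ε0 * Real.log (T + u.im)) + (Om T * u.re - K * (R + 1)) := by
            nlinarith
          have := Real.exp_le_exp.2 this
          gcongr
      _ = Real.exp (-(ε0 * Real.log (T + u.im))) *
          (Real.exp (Om T * u.re - K * (R + 1)) * ‖HH (I * T)‖) := by
          rw [Real.exp_add]; ring
      _ ≤ _ := by gcongr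
  · refine a4.trans ?_
    have h5 : ‖HH (I * T + u)‖ ≤ Real.exp (Om T * u.re + K * (R + 1)) * ‖HH (I * T)‖ := b4
    calc Real.exp (ε0 * Real.log (T + u.im)) * ‖HH (I * T + u)‖
        ≤ Real.exp (ε0 * Real.log (T + u.im)) *
          (Real.exp (Om T * u.re + K * (R + 1)) * ‖HH (I * T)‖) := by gcongr
      _ = Real.exp (ε0 * Real.log (T + u.im) + (Om T * u.re + K * (R + 1))) * ‖HH (I * T)‖ := by
          rw [← mul_assoc, ← Real.exp_add]
      _ ≤ _ := by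
          have : ε0 * Real.log (T + u.im) + (Om T * u.re + K * (R + 1)) ≤ Om T * (u.re + ε) := by
            nlinarith
          have := Real.exp_le_exp.2 this
          gcongr

/-- upper bound in the whole right half-plane -/
lemma prof {y : ℝ} (hy0 : 0 ≤ y) (hy1 : y ≤ 1 / 2) (h : CT y) (ε R : ℝ) (hε : 0 < ε) (hR : 1 ≤ R) :
    ∃ T0 : ℝ, 400 ≤ T0 ∧ ∀ T : ℝ, T0 ≤ T → ∀ u : ℂ, 0 ≤ u.re → u.re ≤ R → |u.im| ≤ 1 →
      ‖XX (I * T + u)‖ ≤ Real.exp (Om T * (max u.re y + ε)) * ‖HH (I * T)‖ := by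
  obtain ⟨ε0, he⟩ : ∃ ε0 : ℝ, ε0 = min (ε / 8) (1 / 4) := ⟨_, rfl⟩
  have he0 : 0 < ε0 := by rw [he]; exact lt_min (by linarith) (by norm_num)
  have he1 : ε0 ≤ ε / 8 := by rw [he]; exact min_le_left _ _
  have he2 : ε0 ≤ 1 / 4 := by rw [he]; exact min_le_right _ _
  obtain ⟨T1, hT1, hL⟩ := profL hy0 h ε0 R he0 hR
  obtain ⟨T2, hT2, hW⟩ := h ε0 1 he0 (by linarith) le_rfl
  have hζ : ∀ t : ℝ, T2 ≤ t → ‖riemannZeta (1 / 2 + (y + ε0 : ℝ) + t * I)‖ ≤ 1 * t ^ ε0 := by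
    intro t ht
    have him : (((y + ε0 : ℝ) : ℂ) + t * I).im = t := by simp
    have hre : (((y + ε0 : ℝ) : ℂ) + t * I).re = y + ε0 := by simp
    obtain ⟨a1, -, -, a4⟩ := hW t ht (((y + ε0 : ℝ) : ℂ) + t * I) (by rw [hre]) (by rw [hre]; linarith) him
    rw [F_zero, Pool.Agent.H24R2.JP.zetaS.1 _ (by rw [him]; linarith)] at a1 a4
    have hH : HH (((y + ε0 : ℝ) : ℂ) + t * I) ≠ 0 := left_ne_zero_of_mul a1
    rw [norm_mul] at a4
    have a5 := le_of_mul_le_mul_right ((le_of_eq (mul_comm _ _)).trans a4) (norm_pos_iff.2 hH)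
    have e1 : (1 / 2 + (((y + ε0 : ℝ) : ℂ) + t * I)) = 1 / 2 + (y + ε0 : ℝ) + t * I := by ring
    rw [e1] at a5
    rw [one_mul, Real.rpow_def_of_pos (by linarith), mul_comm (Real.log t)]
    exact a5
  obtain ⟨C, T3, hC, hT3, hP⟩ := Pool.Agent.H986R2.K4.pl Pool.Agent.H986R2.K4.hh (y + ε0) ε0 1 T2 1 (by linarith) (by linarith)
    he0.le (by linarith) one_pos (by linarith) le_rfl hζ
  obtain ⟨T4, hT4, hO⟩ := Om_large (|Real.log C| * 8 / ε)
  refine ⟨max (max T1 T3) T4, hT4.trans (le_max_right _ _), ?_⟩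
  intro T hT u hu0 hu1 hu2
  have g1 : T1 ≤ T := ((le_max_left _ _).trans (le_max_left _ _)).trans hT
  have g3 : T3 ≤ T := ((le_max_right _ _).trans (le_max_left _ _)).trans hT
  have g4 : T4 ≤ T := (le_max_right _ _).trans hT
  have hOm := hO T g4
  rw [div_le_iff₀ hε] at hOm
  have hTp : 0 < T := by linarith
  have hOp : 0 ≤ Om T := by
    unfold Om
    have := Real.log_nonneg (show (1 : ℝ) ≤ T by linarith)
    linarith
  rcases le_or_gt u.re (y + ε0) with h1 | h1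
  · have h2 := hP T u g3 (by rw [abs_of_nonneg hu0]; exact h1) hu2
    refine h2.trans ?_
    have hCe : C = Real.exp (Real.log C) := (Real.exp_log hC).symm
    have hTe : T ^ ε0 = Real.exp (2 * Om T * ε0) := by
      rw [Real.rpow_def_of_pos hTp]
      unfold Om
      congr 1
      ring
    rw [hTe, hCe, ← mul_assoc, ← Real.exp_add, ← Real.exp_add]
    have h3 : Real.log C + 2 * Om T * ε0 + (y + ε0) * Om T ≤ Om T * (max u.re y + ε) := by
      have := le_abs_self (Real.log C)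
      have := le_max_right u.re y
      nlinarith
    have := Real.exp_le_exp.2 h3
    gcongr
  · obtain ⟨-, -, -, b⟩ := hL T g1 u h1.le hu1 hu2
    refine b.trans ?_
    have h3 : Om T * (u.re + ε0) ≤ Om T * (max u.re y + ε) := by
      have := le_max_left u.re y
      nlinarith
    have := Real.exp_le_exp.2 h3
    gcongr

end Pool.Agent.W186.HZ
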