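import Pool.Agent.W186.HZ.XTB
import Pool.Agent.H986R2.K4.SAB

set_option autoImplicit false

/-!
# Size of `XT τ` to the right of the line in a zero-free window
-/

namespace Pool.Agent.W186.HZ

open Complex Filter Topology MeasureTheory Set
open Pool.Agent.H24R2.JP (XX HH Om)
open Pool.Agent.H24R2.JP.StirAux
open Pool.Agent.H986R2.DBN (JT XT)

lemma Om_half {T T' : ℝ} (hT : 400 ≤ T) (h : |T' - T| ≤ T / 2) : |Om T' - Om T| ≤ 1 / 2 := by
  rw [abs_le] at h
  have h1 : 0 < T' := by linarith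
  have h2 := Real.log_two_lt_d9
  have a1 : Real.log T' ≤ Real.log (2 * T) := Real.log_le_log h1 (by linarith)
  rw [Real.log_mul (by norm_num) (by linarith)] at a1
  have a2 : Real.log T ≤ Real.log (2 * T') := Real.log_le_log (by linarith) (by linarith)
  rw [Real.log_mul (by norm_num) (by linarith)] at a2
  rw [abs_le]
  unfold Om
  constructor <;> linarith

/-- the normalised function -/
noncomputable def gW (τ T : ℝ) (u : ℂ) : ℂ :=
  XT τ (I * T + u) / (HH (I * T + u) * (Real.exp (τ * Om T ^ 2) : ℂ))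

lemma gW_deriv {τ T : ℝ} (hτ : 0 ≤ τ) {u : ℂ} (hu : 0 < T + u.im) (hne : XT τ (I * T + u) ≠ 0) :
    DifferentiableAt ℂ (gW τ T) u ∧
      logDeriv (gW τ T) u = logDeriv (XT τ) (I * T + u) - logDeriv HH (I * T + u) := by
  have him : 0 < (I * (T : ℂ) + u).im := by simpa using hu
  have hHH := HH_ne him
  have hX : HasDerivAt (fun u : ℂ => XT τ (I * T + u)) (deriv (XT τ) (I * T + u)) u := by
    have := ((Pool.Agent.H986R2.DBN.KerAux.hasDerivAt_XT hτ (I * T + u)).hasDerivAt).comp_const_add (I * T) u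
    exact this
  have hH : HasDerivAt (fun u : ℂ => HH (I * T + u)) (deriv HH (I * T + u)) u := by
    have := ((HH_diff him).hasDerivAt).comp_const_add (I * T) u
    exact this
  have hc : ((Real.exp (τ * Om T ^ 2) : ℝ) : ℂ) ≠ 0 := by
    rw [Complex.ofReal_ne_zero]; exact (Real.exp_pos _).ne'
  obtain ⟨c, hcc⟩ : ∃ c : ℂ, c = ((Real.exp (τ * Om T ^ 2) : ℝ) : ℂ) := ⟨_, rfl⟩
  have hg := hX.div (hH.mul_const ((Real.exp (τ * Om T ^ 2) : ℝ) : ℂ)) (mul_ne_zero hHH hc)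
  have hgW : gW τ T = fun u => XT τ (I * T + u) / (HH (I * T + u) * ((Real.exp (τ * Om T ^ 2) : ℝ) : ℂ)) := rfl
  have hg' : HasDerivAt (gW τ T) _ u := hg
  refine ⟨hg'.differentiableAt, ?_⟩
  rw [logDeriv_apply, hg'.deriv, logDeriv_apply, logDeriv_apply, hgW]
  rw [← hcc] at hc ⊢
  field_simp

lemma gW_norm (τ T : ℝ) (u : ℂ) : ‖gW τ T u‖ = ‖XT τ (I * T + u)‖ / (‖HH (I * T + u)‖ * Real.exp (τ * Om T ^ 2)) := by
  unfold gW
  rw [norm_div, norm_mul, Complex.norm_real, Real.norm_eq_abs, abs_of_pos (Real.exp_pos _)]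

/-- bounds for a quotient -/
lemma quo_le {A B a b e x y H : ℝ} (hA : A ≤ Real.exp a * H) (hB : Real.exp b * H ≤ B) (hH : 0 < H)
    (h : a - b - e ≤ x) (hy : y = Real.exp e) : A / (B * y) ≤ Real.exp x := by
  have hB0 : 0 < B := lt_of_lt_of_le (mul_pos (Real.exp_pos _) hH) hB
  rw [hy, div_le_iff₀ (mul_pos hB0 (Real.exp_pos _))]
  refine hA.trans ?_
  calc Real.exp a * H ≤ Real.exp (x + (b + e)) * H := by
        have : a ≤ x + (b + e) := by linarith only [h]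
        exact mul_le_mul_of_nonneg_right (Real.exp_le_exp.2 this) hH.le
    _ = Real.exp x * (Real.exp b * H * Real.exp e) := by rw [Real.exp_add, Real.exp_add]; ring
    _ ≤ Real.exp x * (B * Real.exp e) := by
        apply mul_le_mul_of_nonneg_left _ (Real.exp_pos _).le
        exact mul_le_mul_of_nonneg_right hB (Real.exp_pos _).le

lemma quo_ge {A B a b e x y H : ℝ} (hA : Real.exp a * H ≤ A) (hB : B ≤ Real.exp b * H) (hB0 : 0 < B)
    (h : x ≤ a - b - e) (hH : 0 < H) (hy : y = Real.exp e) : Real.exp x ≤ A / (B * y) := by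
  rw [hy, le_div_iff₀ (mul_pos hB0 (Real.exp_pos _))]
  refine le_trans ?_ hA
  calc Real.exp x * (B * Real.exp e) ≤ Real.exp x * (Real.exp b * H * Real.exp e) := by
        apply mul_le_mul_of_nonneg_left _ (Real.exp_pos _).le
        exact mul_le_mul_of_nonneg_right hB (Real.exp_pos _).le
    _ = Real.exp (x + (b + e)) * H := by rw [Real.exp_add, Real.exp_add]; ring
    _ ≤ Real.exp a * H := by
        have : x + (b + e) ≤ a := by linarith only [h]
        exact mul_le_mul_of_nonneg_right (Real.exp_le_exp.2 this) hH.le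

/-- the bounds for `gW` -/
lemma gW_bounds (m X : ℝ) (hm : 0 < m) (hX : m ≤ X) : ∃ K0 : ℝ, 0 < K0 ∧ ∀ ε : ℝ, 0 < ε → ∃ T0 : ℝ, 400 ≤ T0 ∧
    ∀ T τ : ℝ, T0 ≤ T → 0 < τ → m ≤ 2 * τ * Om T → 2 * τ * Om T ≤ X → ∀ u : ℂ, 0 < u.re → u.re ≤ 10 → |u.im| ≤ 10 →
      ‖gW τ T u‖ ≤ Real.exp (K0 * Om T) ∧
      (3 / 2 ≤ u.re → Real.exp (-(ε * Om T)) ≤ ‖gW τ T u‖ ∧ ‖gW τ T u‖ ≤ Real.exp (ε * Om T)) := by
  obtain ⟨K, T1, hK, hT1, hcr⟩ := xt_crude (m / 2) (2 * X) (by linarith) (by linarith)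
  refine ⟨K + 1, by linarith, ?_⟩
  intro ε hε
  obtain ⟨T2, hT2, hba⟩ := xt_base (m / 2) (2 * X) (ε / 4) (by linarith) (by linarith) (by linarith)
  obtain ⟨KH, hKH, hHH⟩ := Pool.Agent.H986R2.K4.hh
  obtain ⟨T3, hT3, hH⟩ := hHH 10 (by norm_num)
  obtain ⟨T4, hT4, hO⟩ := Om_large (max (max (K + 10 * KH) 1) ((X + ε + 10 * KH) * (2 / ε)))
  refine ⟨max (max (T1 + 10) (T2 + 10)) (max (T3 + 10) T4),
    hT4.trans ((le_max_right _ _).trans (le_max_right _ _)), ?_⟩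
  intro T τ hT hτ h1 h2 u hu0 hu1 hu2
  have g1 : T1 + 10 ≤ T := ((le_max_left _ _).trans (le_max_left _ _)).trans hT
  have g2 : T2 + 10 ≤ T := ((le_max_right _ _).trans (le_max_left _ _)).trans hT
  have g3 : T3 + 10 ≤ T := ((le_max_left _ _).trans (le_max_right _ _)).trans hT
  have g4 : T4 ≤ T := ((le_max_right _ _).trans (le_max_right _ _)).trans hT
  have hOm := hO T g4
  have hO1 : K + 10 * KH ≤ Om T := ((le_max_left _ _).trans (le_max_left _ _)).trans hOm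
  have hO2 : 1 ≤ Om T := ((le_max_right _ _).trans (le_max_left _ _)).trans hOm
  have hO3 : (X + ε + 10 * KH) * (2 / ε) ≤ Om T := (le_max_right _ _).trans hOm
  have hO3' : (X + ε + 10 * KH) ≤ ε / 2 * Om T := by
    have := mul_le_mul_of_nonneg_left hO3 (by positivity : 0 ≤ ε / 2)
    refine le_trans (le_of_eq ?_) this
    field_simp
  have hT400 : 400 ≤ T := hT4.trans g4
  have hu2' := abs_le.1 hu2
  obtain ⟨T', hT'⟩ : ∃ T' : ℝ, T' = T + u.im := ⟨_, rfl⟩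
  obtain ⟨σ, hσ⟩ : ∃ σ : ℝ, σ = u.re := ⟨_, rfl⟩
  have hOn := Om_half (T' := T') hT400 (by rw [hT', abs_le]; constructor <;> linarith)
  rw [abs_le] at hOn
  have ew : I * (T : ℂ) + u = (σ : ℂ) + I * T' := by
    apply Complex.ext <;> simp [hσ, hT']
  obtain ⟨L, hL⟩ : ∃ L : ℝ, L = Om T := ⟨_, rfl⟩
  obtain ⟨L', hL'⟩ : ∃ L' : ℝ, L' = Om T' := ⟨_, rfl⟩
  rw [← hL, ← hL'] at hOn
  rw [← hL] at h1 h2 hO1 hO2 hO3' ⊢
  have hτX : τ * L ≤ X / 2 := by linarith only [h2]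
  have hτ1 : τ ≤ X / 2 := by
    have : τ * 1 ≤ τ * L := mul_le_mul_of_nonneg_left hO2 hτ.le
    linarith only [this, hτX]
  have h1' : m / 2 ≤ 2 * τ * L' := by
    have : 2 * τ * (1 / 2 * L) ≤ 2 * τ * L' := by
      apply mul_le_mul_of_nonneg_left _ (by positivity)
      linarith only [hOn.1, hO2]
    linarith only [this, h1]
  have h2' : 2 * τ * L' ≤ 2 * X := by
    have : 2 * τ * L' ≤ 2 * τ * (2 * L) := by
      apply mul_le_mul_of_nonneg_left _ (by positivity)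
      linarith only [hOn.2, hO2]
    linarith only [this, h2]
  rw [hL'] at h1' h2'
  have c1 := hcr T' τ (by linarith) hτ h1' h2' σ (by rw [hσ]; exact hu0.le) (by rw [hσ]; exact hu1)
  have c2 := hba T' τ (by linarith) hτ h1' h2' σ
  obtain ⟨d1, d2, -, d3, d4⟩ := hH T' (σ : ℂ) (by linarith) (by
    rw [Complex.norm_real, Real.norm_eq_abs, abs_of_pos (by rw [hσ]; exact hu0), hσ]; exact hu1)
  rw [add_comm (I * (T' : ℂ)) (σ : ℂ), Complex.ofReal_re] at d3 d4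
  rw [add_comm (I * (T' : ℂ)) (σ : ℂ)] at d1 d2
  rw [← hL'] at c1 c2 d3 d4
  obtain ⟨-, e2, -, -, -⟩ := hH T' 0 (by linarith) (by simp)
  rw [add_zero] at e2
  have hHp : 0 < ‖HH (I * T')‖ := norm_pos_iff.2 e2
  rw [gW_norm, ew, ← hL]
  have hσ0 : 0 ≤ σ := by rw [hσ]; exact hu0.le
  have hL'0 : 0 < L' := by linarith only [hOn.1, hO2]
  have hLσ : 0 ≤ L' * σ := by positivity
  have hτL : 0 ≤ τ * L ^ 2 := by positivity
  constructor
  · refine quo_le c1 d3 hHp ?_ rfl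
    have : K * L' ≤ K * (L + 1) := mul_le_mul_of_nonneg_left (by linarith only [hOn.2]) (by linarith only [hK])
    linarith only [this, hO1, hLσ, hτL]
  · intro hu3
    obtain ⟨f1, f2⟩ := c2 (by rw [hσ]; exact hu3) (by rw [hσ]; exact hu1)
    have q1 : |τ * (L' ^ 2 - L ^ 2)| ≤ X := by
      have e : τ * (L' ^ 2 - L ^ 2) = (L' - L) * (τ * (L' + L)) := by ring
      rw [e, abs_mul, abs_of_pos (by positivity : 0 < τ * (L' + L))]
      have a1 : |L' - L| ≤ 1 / 2 := abs_le.2 ⟨by linarith only [hOn.1], by linarith only [hOn.2]⟩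
      have a2 : τ * (L' + L) ≤ 2 * X := by
        have : τ * (L' + L) ≤ τ * (2 * L + 1) := mul_le_mul_of_nonneg_left (by linarith only [hOn.2]) hτ.le
        linarith only [this, hτX, hτ1, hm, hX]
      calc |L' - L| * (τ * (L' + L)) ≤ 1 / 2 * (2 * X) := by
            apply mul_le_mul a1 a2 (by positivity) (by norm_num)
        _ = X := by ring
    rw [abs_le] at q1
    have q2 : ε / 4 * L' ≤ ε / 4 * (L + 1) := mul_le_mul_of_nonneg_left (by linarith only [hOn.2]) (by linarith only [hε])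
    have q3 : 0 ≤ ε * L := mul_nonneg hε.le (by linarith only [hO2])
    constructor
    · refine quo_ge f1 d4 (norm_pos_iff.2 d2) ?_ hHp rfl
      linarith only [q1.1, q2, hO3', hε, q3, hKH]
    · refine quo_le f2 d3 hHp ?_ rfl
      linarith only [q1.2, q2, hO3', hε, q3, hKH]

lemma wt (m X ε : ℝ) (hm : 0 < m) (hX : m ≤ X) (hε : 0 < ε) (hε4 : ε ≤ 1 / 4) : ∃ T0 : ℝ, 400 ≤ T0 ∧
    ∀ T τ : ℝ, T0 ≤ T → 0 < τ → m ≤ 2 * τ * Om T → 2 * τ * Om T ≤ X →
      (∀ w : ℂ, 0 < w.re → |w.im - T| ≤ 10 → XT τ w ≠ 0) → ∀ σ : ℝ, ε ≤ σ → σ ≤ 3 →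
      ‖logDeriv (XT τ) (σ + I * T) - (Om T : ℂ)‖ ≤ ε * Om T ∧
      Real.exp (Om T * (σ + τ * Om T - ε)) * ‖HH (I * T)‖ ≤ ‖XT τ (σ + I * T)‖ ∧
      ‖XT τ (σ + I * T)‖ ≤ Real.exp (Om T * (σ + τ * Om T + ε)) * ‖HH (I * T)‖ := by
  obtain ⟨K0, hK0, hgb⟩ := gW_bounds m X hm hX
  obtain ⟨ε', hε', hsab⟩ := Pool.Agent.H986R2.K4.sab ε (ε / 2) K0 hε hε4 (by linarith) hK0
  obtain ⟨T1, hT1, hb⟩ := hgb ε' hε'
  obtain ⟨KH, hKH, hHH⟩ := Pool.Agent.H986R2.K4.hh
  obtain ⟨T3, hT3, hH⟩ := hHH 10 (by norm_num)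
  obtain ⟨T4, hT4, hO⟩ := Om_large (max 1 (10 * KH * (2 / ε)))
  refine ⟨max T1 (max T3 T4), hT1.trans (le_max_left _ _), ?_⟩
  intro T τ hT hτ h1 h2 hz σ hσ0 hσ1
  have g1 : T1 ≤ T := (le_max_left _ _).trans hT
  have g3 : T3 ≤ T := ((le_max_left _ _).trans (le_max_right _ _)).trans hT
  have g4 : T4 ≤ T := ((le_max_right _ _).trans (le_max_right _ _)).trans hT
  have hOm := hO T g4
  have hO2 : 1 ≤ Om T := (le_max_left _ _).trans hOm
  have hO3 : 10 * KH * (2 / ε) ≤ Om T := (le_max_right _ _).trans hOm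
  have hO3' : 10 * KH ≤ ε / 2 * Om T := by
    have := mul_le_mul_of_nonneg_left hO3 (by positivity : 0 ≤ ε / 2)
    refine le_trans (le_of_eq ?_) this
    field_simp
  have hT400 : 400 ≤ T := hT4.trans g4
  have hne : ∀ u : ℂ, 0 < u.re → |u.im| ≤ 10 → XT τ (I * T + u) ≠ 0 := by
    intro u hu0 hu1
    apply hz
    · simpa using hu0
    · simpa using hu1
  have key := hsab (Om T) (gW τ T) hO2 (by
    intro u hu0 hu1 hu2
    have hn := hne u hu0 hu2
    have hu2' := abs_le.1 hu2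
    have hp : 0 < T + u.im := by linarith
    refine ⟨(gW_deriv hτ.le hp hn).1, ?_, (hb T τ g1 hτ h1 h2 u hu0 hu1 hu2).1⟩
    rw [← norm_pos_iff, gW_norm]
    have him : 0 < (I * (T : ℂ) + u).im := by simpa using hp
    have := norm_pos_iff.2 (HH_ne him)
    have := norm_pos_iff.2 hn
    positivity) (by
    intro u hu0 hu1 hu2
    exact (hb T τ g1 hτ h1 h2 u (by linarith) hu1 hu2).2 hu0) (σ : ℂ) (by simpa using hσ0)
    (by simpa using hσ1) (by simp)
  obtain ⟨k1, k2, k3⟩ := key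
  have hn := hne (σ : ℂ) (by simpa using (by linarith : 0 < σ)) (by simp)
  have hσT : 0 < T + (σ : ℂ).im := by simp; linarith
  rw [(gW_deriv hτ.le hσT hn).2] at k1
  rw [gW_norm] at k2 k3
  obtain ⟨d1, d2, d0, d3, d4⟩ := hH T (σ : ℂ) g3 (by
    rw [Complex.norm_real, Real.norm_eq_abs, abs_of_pos (by linarith)]; linarith)
  obtain ⟨-, e2, -, -, -⟩ := hH T 0 g3 (by simp)
  rw [add_zero] at e2
  have hHp : 0 < ‖HH (I * T)‖ := norm_pos_iff.2 e2
  have hHu := norm_pos_iff.2 d2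
  rw [Complex.ofReal_re] at d3 d4
  rw [add_comm (σ : ℂ)]
  refine ⟨?_, ?_, ?_⟩
  · have e : logDeriv (XT τ) (I * T + σ) - (Om T : ℂ) = (logDeriv (XT τ) (I * T + σ) - logDeriv HH (I * T + σ)) +
        (logDeriv HH (I * T + σ) - (Om T : ℂ)) := by ring
    rw [e]
    refine (norm_add_le _ _).trans ?_
    linarith only [k1, d0, hO3', hKH]
  · rw [le_div_iff₀ (mul_pos hHu (Real.exp_pos _))] at k2
    refine le_trans ?_ k2
    calc Real.exp (Om T * (σ + τ * Om T - ε)) * ‖HH (I * T)‖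
        ≤ Real.exp (-(ε / 2 * Om T) + ((Om T * σ - KH * 10) + τ * Om T ^ 2)) * ‖HH (I * T)‖ := by
          apply mul_le_mul_of_nonneg_right _ hHp.le
          apply Real.exp_le_exp.2
          linarith only [hO3']
      _ = Real.exp (-(ε / 2 * Om T)) * (Real.exp (Om T * σ - KH * 10) * ‖HH (I * T)‖ * Real.exp (τ * Om T ^ 2)) := by
          rw [Real.exp_add (-(ε / 2 * Om T)), Real.exp_add (Om T * σ - KH * 10)]; ring
      _ ≤ _ := by
          apply mul_le_mul_of_nonneg_left _ (Real.exp_pos _).le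
          exact mul_le_mul_of_nonneg_right d3 (Real.exp_pos _).le
  · rw [div_le_iff₀ (mul_pos hHu (Real.exp_pos _))] at k3
    refine k3.trans ?_
    calc Real.exp (ε / 2 * Om T) * (‖HH (I * T + σ)‖ * Real.exp (τ * Om T ^ 2))
        ≤ Real.exp (ε / 2 * Om T) * (Real.exp (Om T * σ + KH * 10) * ‖HH (I * T)‖ * Real.exp (τ * Om T ^ 2)) := by
          apply mul_le_mul_of_nonneg_left _ (Real.exp_pos _).le
          exact mul_le_mul_of_nonneg_right d4 (Real.exp_pos _).le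
      _ = Real.exp (ε / 2 * Om T + ((Om T * σ + KH * 10) + τ * Om T ^ 2)) * ‖HH (I * T)‖ := by
          rw [Real.exp_add (ε / 2 * Om T), Real.exp_add (Om T * σ + KH * 10)]; ring
      _ ≤ _ := by
          apply mul_le_mul_of_nonneg_right _ hHp.le
          apply Real.exp_le_exp.2
          linarith only [hO3']

end Pool.Agent.W186.HZ
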