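import Pool.Agent.W186.HZ.Fwd

set_option autoImplicit false

/-!
# Size of the heat flow `XT τ` to the right
-/

namespace Pool.Agent.W186.HZ

open Complex Filter Topology MeasureTheory Set
open Pool.Agent.H24R2.JP (XX HH Om)
open Pool.Agent.H986R2.DBN (JT XT)

lemma XT_norm (τ T σ : ℝ) (hτ : 0 < τ) : ‖XT τ (σ + I * T)‖ =
    1 / Real.sqrt Real.pi * (2 * Real.sqrt τ)⁻¹ * (Real.exp (-(τ * (σ / (2 * τ)) ^ 2)) *
      ‖JT τ T ((σ / (2 * τ) : ℝ) : ℂ) + (starRingEnd ℂ) (JT τ T (-((σ / (2 * τ) : ℝ) : ℂ)))‖) := by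
  rw [(Pool.Agent.H986R2.DBN.Hnz.g_int Pool.Agent.H986R2.DBN.heat τ T σ hτ).2,
    Pool.Agent.H986R2.DBN.Hnz.integral_g Pool.Agent.H986R2.DBN.heat Pool.Agent.H24R2.JP.b1 τ T σ hτ]
  have h0 : 0 < Real.sqrt Real.pi := Real.sqrt_pos.2 Real.pi_pos
  have h1 : 0 < Real.sqrt τ := Real.sqrt_pos.2 hτ
  rw [norm_mul, norm_smul, norm_mul, Complex.norm_real, Complex.norm_real, Real.norm_eq_abs,
    Real.norm_eq_abs, Real.norm_eq_abs, abs_abs, abs_of_pos (by positivity : 0 < 1 / Real.sqrt Real.pi),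
    abs_of_pos (by positivity : 0 < (2 * Real.sqrt τ)⁻¹), abs_of_pos (Real.exp_pos _), mul_assoc]
  congr 3
  have : -σ ^ 2 / (4 * τ) = -(τ * (σ / (2 * τ)) ^ 2) := by
    field_simp
    ring
  rw [this]

/-- the constant in front -/
lemma pre {m X ε : ℝ} (hm : 0 < m) (hX : m ≤ X) (hε : 0 < ε) : ∃ T0 : ℝ, 400 ≤ T0 ∧
    ∀ T τ : ℝ, T0 ≤ T → 0 < τ → m ≤ 2 * τ * Om T → 2 * τ * Om T ≤ X →
      τ ≤ 1 / 8 ∧ Real.exp (-(ε * Om T)) ≤ 1 / Real.sqrt Real.pi * (2 * Real.sqrt τ)⁻¹ ∧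
      1 / Real.sqrt Real.pi * (2 * Real.sqrt τ)⁻¹ ≤ Real.exp (ε * Om T) := by
  obtain ⟨T6, hT6⟩ : ∃ T6 : ℝ, ∀ t : ℝ, T6 ≤ t → 2 * Om t / m ≤ Real.exp (ε * Om t) := by
    have h1 : Tendsto (fun x : ℝ => Real.exp (ε * x) / x) atTop atTop := by
      have := tendsto_exp_mul_div_rpow_atTop 1 ε hε
      simpa using this
    have h2 := (h1.comp Om_tendsto).eventually_ge_atTop (2 / m)
    obtain ⟨t3, ht3⟩ := Filter.eventually_atTop.1 (h2.and (Om_tendsto.eventually_gt_atTop 0))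
    refine ⟨t3, fun t ht => ?_⟩
    obtain ⟨h3, h4⟩ := ht3 t ht
    simp only [Function.comp] at h3
    rw [le_div_iff₀ h4] at h3
    calc 2 * Om t / m = 2 / m * Om t := by ring
      _ ≤ _ := h3
  obtain ⟨T4, hT4, hO⟩ := Om_large (max (4 * X + 1) (1 / ε))
  refine ⟨max T6 T4, hT4.trans (le_max_right _ _), ?_⟩
  intro T τ hT hτ h1 h2
  have g6 : T6 ≤ T := (le_max_left _ _).trans hT
  have g4 : T4 ≤ T := (le_max_right _ _).trans hT
  have hOm := hO T g4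
  have hOm1 : 4 * X + 1 ≤ Om T := (le_max_left _ _).trans hOm
  have hOm2 : 1 / ε ≤ Om T := (le_max_right _ _).trans hOm
  rw [div_le_iff₀ hε] at hOm2
  have hgr := hT6 T g6
  have hLp : 0 < Om T := by linarith only [hOm1, hm, hX]
  have hτ8 : τ ≤ 1 / 8 := by
    by_contra hcon
    push Not at hcon
    have : 1 / 8 * Om T ≤ τ * Om T := by gcongr
    linarith only [this, h2, hOm1, hm, hX]
  have hπ : 0 < Real.sqrt Real.pi := Real.sqrt_pos.2 Real.pi_pos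
  have hst : 0 < Real.sqrt τ := Real.sqrt_pos.2 hτ
  have hπ1 : 1 ≤ Real.sqrt Real.pi := by
    rw [Real.one_le_sqrt]; linarith [Real.pi_gt_three]
  have hπ2 : Real.sqrt Real.pi ≤ 2 := by
    rw [Real.sqrt_le_left (by norm_num)]; linarith [Real.pi_le_four]
  have hs1 : Real.sqrt τ ≤ 1 / 2 := by
    rw [Real.sqrt_le_left (by norm_num)]; linarith
  have hs2 : τ ≤ Real.sqrt τ := by
    have := Real.mul_self_sqrt hτ.le
    nlinarith
  have e : 1 / Real.sqrt Real.pi * (2 * Real.sqrt τ)⁻¹ = 1 / (Real.sqrt Real.pi * (2 * Real.sqrt τ)) := by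
    field_simp
  refine ⟨hτ8, ?_, ?_⟩
  · rw [e]
    have h3 : Real.exp (-(ε * Om T)) ≤ Real.exp (-1) := Real.exp_le_exp.2 (by linarith only [hOm2])
    refine h3.trans ?_
    rw [Real.exp_neg, ← one_div]
    apply one_div_le_one_div_of_le (by positivity)
    have h4 : Real.sqrt Real.pi * (2 * Real.sqrt τ) ≤ 2 * (2 * (1 / 2)) := by gcongr
    have := Real.exp_one_gt_d9
    linarith
  · rw [e]
    refine le_trans ?_ hgr
    rw [div_le_div_iff₀ (by positivity) hm]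
    have h4 : 1 * (2 * τ) ≤ Real.sqrt Real.pi * (2 * Real.sqrt τ) := by gcongr
    have h5 : 1 * (2 * τ) * Om T ≤ Real.sqrt Real.pi * (2 * Real.sqrt τ) * Om T := by gcongr
    linarith only [h1, h4, h5, mul_pos (mul_pos hπ (mul_pos two_pos hst)) hLp]

lemma xt_base (m X ε : ℝ) (hm : 0 < m) (hX : m ≤ X) (hε : 0 < ε) : ∃ T0 : ℝ, 400 ≤ T0 ∧
    ∀ T τ : ℝ, T0 ≤ T → 0 < τ → m ≤ 2 * τ * Om T → 2 * τ * Om T ≤ X → ∀ σ : ℝ, 3 / 2 ≤ σ → σ ≤ 10 →
      Real.exp (Om T * (σ + τ * Om T - ε)) * ‖HH (I * T)‖ ≤ ‖XT τ (σ + I * T)‖ ∧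
      ‖XT τ (σ + I * T)‖ ≤ Real.exp (Om T * (σ + τ * Om T + ε)) * ‖HH (I * T)‖ := by
  obtain ⟨δ, hδ⟩ : ∃ δ : ℝ, δ = min (ε / 4) (1 / 4) := ⟨_, rfl⟩
  have hδ0 : 0 < δ := by rw [hδ]; exact lt_min (by linarith) (by norm_num)
  have hδ1 : δ ≤ ε / 4 := by rw [hδ]; exact min_le_left _ _
  have hδ2 : δ ≤ 1 / 4 := by rw [hδ]; exact min_le_right _ _
  obtain ⟨c, hc0, hc1, hjl⟩ := jl (y := 1 / 2) (by norm_num) le_rfl ct_half m X 10 1 hm hX (by norm_num) one_pos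
  obtain ⟨T1, hT1, hl⟩ := hjl δ hδ0
  obtain ⟨T2, hT2, hu⟩ := ju (y := 1 / 2) (by norm_num) le_rfl ct_half m X 10 δ hm hX (by norm_num) hδ0
  obtain ⟨T3, hT3, hpre⟩ := pre hm hX hδ0
  obtain ⟨T4, hT4, hO⟩ := Om_large (max 4 (2 / δ))
  refine ⟨max (max T1 T2) (max T3 T4), hT1.trans ((le_max_left _ _).trans (le_max_left _ _)), ?_⟩
  intro T τ hT hτ h1 h2 σ hσ0 hσ1
  have g1 : T1 ≤ T := ((le_max_left _ _).trans (le_max_left _ _)).trans hT
  have g2 : T2 ≤ T := ((le_max_right _ _).trans (le_max_left _ _)).trans hT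
  have g3 : T3 ≤ T := ((le_max_left _ _).trans (le_max_right _ _)).trans hT
  have g4 : T4 ≤ T := ((le_max_right _ _).trans (le_max_right _ _)).trans hT
  have hOm := hO T g4
  have hOm1 : 4 ≤ Om T := (le_max_left _ _).trans hOm
  have hOm2 : 2 / δ ≤ Om T := (le_max_right _ _).trans hOm
  rw [div_le_iff₀ hδ0] at hOm2
  obtain ⟨hτ8, p1, p2⟩ := hpre T τ g3 hτ h1 h2
  have hLp : 0 < Om T := by linarith only [hOm1]
  obtain ⟨α, hα⟩ : ∃ α : ℝ, α = σ / (2 * τ) := ⟨_, rfl⟩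
  have hτα : 2 * τ * α = σ := by rw [hα]; field_simp
  have hα0 : 0 < α := by rw [hα]; positivity
  rw [XT_norm τ T σ hτ, ← hα]
  obtain ⟨P, hP⟩ : ∃ P : ℝ, P = 1 / Real.sqrt Real.pi * (2 * Real.sqrt τ)⁻¹ := ⟨_, rfl⟩
  rw [← hP] at p1 p2 ⊢
  have a1 := hl T τ g1 hτ h1 h2 (α : ℂ) (by rw [Complex.ofReal_re, hτα]; exact hσ1)
    (by rw [Complex.ofReal_re, hτα]; linarith only [hσ0, h1, hm])
    (by rw [Complex.ofReal_re, hτα]; linarith only [hσ0, h1, hm])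
    (by rw [Complex.ofReal_im, mul_zero, abs_zero]; exact hc0.le)
  have a2 := hu T τ g2 hτ h1 h2 (α : ℂ) (by rw [Complex.ofReal_re, hτα]; exact hσ1)
  have a3 := hu T τ g2 hτ h1 h2 (-(α : ℂ)) (by
    rw [Complex.neg_re, Complex.ofReal_re, mul_neg, hτα]; linarith only [hσ0])
  rw [Complex.ofReal_re, Complex.ofReal_im] at a1
  rw [Complex.ofReal_re] at a2
  rw [Complex.neg_re, Complex.ofReal_re] at a3
  obtain ⟨L, hL⟩ : ∃ L : ℝ, L = Om T := ⟨_, rfl⟩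
  obtain ⟨H, hH⟩ : ∃ H : ℝ, H = ‖HH (I * T)‖ := ⟨_, rfl⟩
  rw [← hL] at h1 h2 hOm1 hOm2 p1 p2 hLp a1 a2 a3 ⊢
  rw [← hH] at a1 a2 a3 ⊢
  have hH0 : 0 ≤ H := by rw [hH]; exact norm_nonneg _
  clear hl hu hjl hpre hO hOm
  have id1 : τ * (L + α) ^ 2 = τ * L ^ 2 + L * σ + τ * α ^ 2 := by rw [← hτα]; ring
  have id2 : τ * (L + -α) ^ 2 = τ * L ^ 2 - L * σ + τ * α ^ 2 := by rw [← hτα]; ring
  have hb1 : max (τ * (L + α) ^ 2) (L * (1 / 2) + max α 0 * (1 / 2)) = τ * (L + α) ^ 2 := by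
    apply max_eq_left
    rw [max_eq_left hα0.le]
    have : (L + α) * (1 / 2) ≤ (L + α) * (τ * (L + α)) := by
      apply mul_le_mul_of_nonneg_left _ (by positivity)
      linarith only [hτα, h1, hm, hσ0]
    linarith only [this]
  rw [hb1, id1] at a2
  rw [max_eq_right (by linarith only [hα0] : -α ≤ 0), zero_mul, add_zero] at a3
  have e0 : τ * ((L + α) ^ 2 - 0 ^ 2) = τ * L ^ 2 + L * σ + τ * α ^ 2 := by rw [← hτα]; ring
  rw [e0] at a1
  have hb2 : max (τ * (L + -α) ^ 2) (L * (1 / 2)) ≤ τ * L ^ 2 + L * σ + τ * α ^ 2 - L := by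
    apply max_le
    · rw [id2]
      have : L * (3 / 2) ≤ L * σ := mul_le_mul_of_nonneg_left hσ0 hLp.le
      linarith only [this, hLp]
    · have : L * (3 / 2) ≤ L * σ := mul_le_mul_of_nonneg_left hσ0 hLp.le
      have h5 : 0 ≤ τ * L ^ 2 := by positivity
      have h6 : 0 ≤ τ * α ^ 2 := by positivity
      linarith only [this, h5, h6]
  obtain ⟨E, hE⟩ : ∃ E : ℝ, E = τ * L ^ 2 + L * σ + τ * α ^ 2 := ⟨_, rfl⟩
  rw [← hE] at a1 a2 hb2
  have a3' : ‖JT τ T (-(α : ℂ))‖ ≤ Real.exp (E - L + δ * L) * H := by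
    refine a3.trans ?_
    have := Real.exp_le_exp.2 (add_le_add_left hb2 (δ * L))
    gcongr
  have hconj : ‖(starRingEnd ℂ) (JT τ T (-(α : ℂ)))‖ = ‖JT τ T (-(α : ℂ))‖ := Complex.norm_conj _
  have b1 : Real.exp (E - L + δ * L) ≤ Real.exp (E - δ * L) * (1 / 2) := by
    have e : Real.exp (E - L + δ * L) = Real.exp (E - δ * L) * Real.exp (-(L - 2 * δ * L)) := by
      rw [← Real.exp_add]; congr 1; ring
    rw [e]
    apply mul_le_mul_of_nonneg_left _ (Real.exp_pos _).le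
    have h3 : Real.exp (-(L - 2 * δ * L)) ≤ Real.exp (-1) := by
      apply Real.exp_le_exp.2
      have : δ * L ≤ 1 / 4 * L := mul_le_mul_of_nonneg_right hδ2 hLp.le
      linarith only [this, hOm1]
    refine h3.trans ?_
    rw [Real.exp_neg, ← one_div]
    apply one_div_le_one_div_of_le (by norm_num)
    have := Real.exp_one_gt_d9
    linarith
  constructor
  · have c1 : Real.exp (E - δ * L) * H * (1 / 2) ≤ ‖JT τ T (α : ℂ) + (starRingEnd ℂ) (JT τ T (-(α : ℂ)))‖ := by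
      have := norm_sub_le_norm_add (JT τ T (α : ℂ)) ((starRingEnd ℂ) (JT τ T (-(α : ℂ))))
      rw [hconj] at this
      have c2 : Real.exp (E - L + δ * L) * H ≤ Real.exp (E - δ * L) * (1 / 2) * H :=
        mul_le_mul_of_nonneg_right b1 hH0
      linarith only [this, a1, a3', c2]
    have c2 : Real.exp (-(δ * L)) ≤ 1 / 2 := by
      have h3 : Real.exp (-(δ * L)) ≤ Real.exp (-1) := Real.exp_le_exp.2 (by linarith only [hOm2])
      refine h3.trans ?_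
      rw [Real.exp_neg, ← one_div]
      apply one_div_le_one_div_of_le (by norm_num)
      have := Real.exp_one_gt_d9
      linarith
    calc Real.exp (L * (σ + τ * L - ε)) * H
        ≤ Real.exp (-(δ * L) + (-(τ * α ^ 2) + ((E - δ * L) + -(δ * L)))) * H := by
          have : L * (σ + τ * L - ε) ≤ -(δ * L) + (-(τ * α ^ 2) + ((E - δ * L) + -(δ * L))) := by
            rw [hE]
            have : L * (4 * δ) ≤ L * ε := mul_le_mul_of_nonneg_left (by linarith only [hδ1]) hLp.le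
            have h9 : 0 < L * δ := by positivity
            linarith only [this, h9]
          gcongr
      _ = Real.exp (-(δ * L)) * (Real.exp (-(τ * α ^ 2)) * (Real.exp (E - δ * L) * H * Real.exp (-(δ * L)))) := by
          rw [Real.exp_add (-(δ * L)), Real.exp_add (-(τ * α ^ 2)), Real.exp_add (E - δ * L)]
          ring
      _ ≤ Real.exp (-(δ * L)) * (Real.exp (-(τ * α ^ 2)) * ‖JT τ T (α : ℂ) + (starRingEnd ℂ) (JT τ T (-(α : ℂ)))‖) :=
          mul_le_mul_of_nonneg_left (mul_le_mul_of_nonneg_left ((mul_le_mul_of_nonneg_left c2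
            (mul_nonneg (Real.exp_pos _).le hH0)).trans c1) (Real.exp_pos _).le) (Real.exp_pos _).le
      _ ≤ _ := mul_le_mul_of_nonneg_right p1 (mul_nonneg (Real.exp_pos _).le (norm_nonneg _))
  · have c1 : ‖JT τ T (α : ℂ) + (starRingEnd ℂ) (JT τ T (-(α : ℂ)))‖ ≤ Real.exp (E + δ * L) * H * 2 := by
      have := norm_add_le (JT τ T (α : ℂ)) ((starRingEnd ℂ) (JT τ T (-(α : ℂ))))
      rw [hconj] at this
      have c3 : Real.exp (E - L + δ * L) ≤ Real.exp (E + δ * L) :=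
        Real.exp_le_exp.2 (by linarith only [hLp])
      have c2 : Real.exp (E - L + δ * L) * H ≤ Real.exp (E + δ * L) * H :=
        mul_le_mul_of_nonneg_right c3 hH0
      linarith only [this, a2, a3', c2]
    have c2 : 2 ≤ Real.exp (δ * L) := by
      have h3 : Real.exp 1 ≤ Real.exp (δ * L) := Real.exp_le_exp.2 (by linarith only [hOm2])
      have := Real.exp_one_gt_d9
      linarith
    calc P * (Real.exp (-(τ * α ^ 2)) * ‖JT τ T (α : ℂ) + (starRingEnd ℂ) (JT τ T (-(α : ℂ)))‖)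
        ≤ Real.exp (δ * L) * (Real.exp (-(τ * α ^ 2)) * (Real.exp (E + δ * L) * H * 2)) :=
          mul_le_mul p2 (mul_le_mul_of_nonneg_left c1 (Real.exp_pos _).le)
            (mul_nonneg (Real.exp_pos _).le (norm_nonneg _)) (Real.exp_pos _).le
      _ ≤ Real.exp (δ * L) * (Real.exp (-(τ * α ^ 2)) * (Real.exp (E + δ * L) * H * Real.exp (δ * L))) :=
          mul_le_mul_of_nonneg_left (mul_le_mul_of_nonneg_left (mul_le_mul_of_nonneg_left c2
            (mul_nonneg (Real.exp_pos _).le hH0)) (Real.exp_pos _).le) (Real.exp_pos _).le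
      _ = Real.exp (δ * L + (-(τ * α ^ 2) + ((E + δ * L) + δ * L))) * H := by
          rw [Real.exp_add (δ * L), Real.exp_add (-(τ * α ^ 2)), Real.exp_add (E + δ * L)]
          ring
      _ ≤ _ := by
          have : δ * L + (-(τ * α ^ 2) + ((E + δ * L) + δ * L)) ≤ L * (σ + τ * L + ε) := by
            rw [hE]
            have : L * (4 * δ) ≤ L * ε := mul_le_mul_of_nonneg_left (by linarith only [hδ1]) hLp.le
            have h9 : 0 < L * δ := by positivity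
            linarith only [this, h9]
          gcongr

lemma xt_crude (m X : ℝ) (hm : 0 < m) (hX : m ≤ X) : ∃ K T0 : ℝ, 1 ≤ K ∧ 400 ≤ T0 ∧
    ∀ T τ : ℝ, T0 ≤ T → 0 < τ → m ≤ 2 * τ * Om T → 2 * τ * Om T ≤ X → ∀ σ : ℝ, 0 ≤ σ → σ ≤ 10 →
      ‖XT τ (σ + I * T)‖ ≤ Real.exp (K * Om T) * ‖HH (I * T)‖ := by
  obtain ⟨T2, hT2, hu⟩ := ju (y := 1 / 2) (by norm_num) le_rfl ct_half m X 10 1 hm hX (by norm_num) one_pos
  obtain ⟨T3, hT3, hpre⟩ := pre hm hX one_pos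
  obtain ⟨T4, hT4, hO⟩ := Om_large 4
  refine ⟨X + 10 + 1 / m + 4, max T2 (max T3 T4), by
    have : 0 < 1 / m := by positivity
    linarith, hT2.trans (le_max_left _ _), ?_⟩
  intro T τ hT hτ h1 h2 σ hσ0 hσ1
  have g2 : T2 ≤ T := (le_max_left _ _).trans hT
  have g3 : T3 ≤ T := ((le_max_left _ _).trans (le_max_right _ _)).trans hT
  have g4 : T4 ≤ T := ((le_max_right _ _).trans (le_max_right _ _)).trans hT
  have hOm1 := hO T g4
  obtain ⟨hτ8, p1, p2⟩ := hpre T τ g3 hτ h1 h2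
  have hLp : 0 < Om T := by linarith only [hOm1]
  obtain ⟨α, hα⟩ : ∃ α : ℝ, α = σ / (2 * τ) := ⟨_, rfl⟩
  have hτα : 2 * τ * α = σ := by rw [hα]; field_simp
  have hα0 : 0 ≤ α := by rw [hα]; positivity
  rw [XT_norm τ T σ hτ, ← hα]
  obtain ⟨P, hP⟩ : ∃ P : ℝ, P = 1 / Real.sqrt Real.pi * (2 * Real.sqrt τ)⁻¹ := ⟨_, rfl⟩
  rw [← hP] at p1 p2 ⊢
  have a2 := hu T τ g2 hτ h1 h2 (α : ℂ) (by rw [Complex.ofReal_re, hτα]; exact hσ1)
  have a3 := hu T τ g2 hτ h1 h2 (-(α : ℂ)) (by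
    rw [Complex.neg_re, Complex.ofReal_re, mul_neg, hτα]; linarith only [hσ0])
  rw [Complex.ofReal_re] at a2
  rw [Complex.neg_re, Complex.ofReal_re] at a3
  obtain ⟨L, hL⟩ : ∃ L : ℝ, L = Om T := ⟨_, rfl⟩
  obtain ⟨H, hH⟩ : ∃ H : ℝ, H = ‖HH (I * T)‖ := ⟨_, rfl⟩
  rw [← hL] at h1 h2 hOm1 p1 p2 hLp a2 a3 ⊢
  rw [← hH] at a2 a3 ⊢
  have hH0 : 0 ≤ H := by rw [hH]; exact norm_nonneg _
  clear hu hpre hO
  have id1 : τ * (L + α) ^ 2 = τ * L ^ 2 + L * σ + τ * α ^ 2 := by rw [← hτα]; ring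
  have id2 : τ * (L + -α) ^ 2 = τ * L ^ 2 - L * σ + τ * α ^ 2 := by rw [← hτα]; ring
  have q1 : τ * L ^ 2 ≤ L * X := by
    have : L * (2 * τ * L) ≤ L * X := mul_le_mul_of_nonneg_left h2 hLp.le
    have h5 : 0 ≤ τ * L ^ 2 := by positivity
    linarith only [this, h5]
  have q2 : 0 ≤ L * σ := by positivity
  have q3 : L * σ ≤ L * 10 := mul_le_mul_of_nonneg_left hσ1 hLp.le
  have q4 : α * (1 / 2) - τ * α ^ 2 ≤ 1 / (4 * τ) := by
    rw [le_div_iff₀ (by positivity)]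
    have := sq_nonneg (4 * τ * α - 1)
    nlinarith only [this, sq_nonneg (τ * α)]
  have q5 : 1 / (4 * τ) ≤ 1 / m * L := by
    refine (inv_le hτ hm h1 (by norm_num)).trans ?_
    rw [div_mul_eq_mul_div, div_le_div_iff₀ (by positivity) hm]
    have : 0 < L * m := by positivity
    linarith only [this]
  have q6 : 0 ≤ τ * α ^ 2 := by positivity
  have q7 : 0 < 1 / m * L := by positivity
  have q8 : 0 < L * X := by
    have : 0 < X := by linarith only [hm, hX]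
    positivity
  have b2 : max (τ * (L + α) ^ 2) (L * (1 / 2) + max α 0 * (1 / 2)) - τ * α ^ 2 ≤ L * (X + 10 + 1 / m + 1 / 2) := by
    rw [max_eq_left hα0]
    rcases max_cases (τ * (L + α) ^ 2) (L * (1 / 2) + α * (1 / 2)) with ⟨h, -⟩ | ⟨h, -⟩
    · rw [h, id1]; linarith only [q1, q3, q7, hLp]
    · rw [h]; linarith only [q4, q5, q8, hLp]
  have b3 : max (τ * (L + -α) ^ 2) (L * (1 / 2) + max (-α) 0 * (1 / 2)) - τ * α ^ 2 ≤ L * (X + 10 + 1 / m + 1 / 2) := by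
    rw [max_eq_right (by linarith only [hα0] : -α ≤ 0), zero_mul, add_zero]
    rcases max_cases (τ * (L + -α) ^ 2) (L * (1 / 2)) with ⟨h, -⟩ | ⟨h, -⟩
    · rw [h, id2]; linarith only [q1, q2, q7, hLp]
    · rw [h]; linarith only [q6, q7, q8, hLp]
  have hconj : ‖(starRingEnd ℂ) (JT τ T (-(α : ℂ)))‖ = ‖JT τ T (-(α : ℂ))‖ := Complex.norm_conj _
  have n1 := norm_add_le (JT τ T (α : ℂ)) ((starRingEnd ℂ) (JT τ T (-(α : ℂ))))
  rw [hconj] at n1
  have c1 : Real.exp (-(τ * α ^ 2)) * ‖JT τ T (α : ℂ) + (starRingEnd ℂ) (JT τ T (-(α : ℂ)))‖ ≤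
      2 * (Real.exp (L * (X + 10 + 1 / m + 1 / 2) + L) * H) := by
    have d1 : Real.exp (-(τ * α ^ 2)) * ‖JT τ T (α : ℂ)‖ ≤ Real.exp (L * (X + 10 + 1 / m + 1 / 2) + L) * H := by
      refine (mul_le_mul_of_nonneg_left a2 (Real.exp_pos _).le).trans ?_
      rw [← mul_assoc, ← Real.exp_add]
      have : -(τ * α ^ 2) + (max (τ * (L + α) ^ 2) (L * (1 / 2) + max α 0 * (1 / 2)) + 1 * L) ≤
          L * (X + 10 + 1 / m + 1 / 2) + L := by linarith only [b2]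
      gcongr
    have d2 : Real.exp (-(τ * α ^ 2)) * ‖JT τ T (-(α : ℂ))‖ ≤ Real.exp (L * (X + 10 + 1 / m + 1 / 2) + L) * H := by
      refine (mul_le_mul_of_nonneg_left a3 (Real.exp_pos _).le).trans ?_
      rw [← mul_assoc, ← Real.exp_add]
      have : -(τ * α ^ 2) + (max (τ * (L + -α) ^ 2) (L * (1 / 2) + max (-α) 0 * (1 / 2)) + 1 * L) ≤
          L * (X + 10 + 1 / m + 1 / 2) + L := by linarith only [b3]
      gcongr
    have := mul_le_mul_of_nonneg_left n1 (Real.exp_pos (-(τ * α ^ 2))).le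
    linarith only [this, d1, d2]
  have c2 : 2 ≤ Real.exp L := by
    have := Real.add_one_le_exp L
    linarith only [this, hOm1]
  have c3 : 2 * (Real.exp (L * (X + 10 + 1 / m + 1 / 2) + L) * H) ≤
      Real.exp L * (Real.exp (L * (X + 10 + 1 / m + 1 / 2) + L) * H) :=
    mul_le_mul_of_nonneg_right c2 (mul_nonneg (Real.exp_pos _).le hH0)
  calc P * (Real.exp (-(τ * α ^ 2)) * ‖JT τ T (α : ℂ) + (starRingEnd ℂ) (JT τ T (-(α : ℂ)))‖)
      ≤ Real.exp (1 * L) * (Real.exp L * (Real.exp (L * (X + 10 + 1 / m + 1 / 2) + L) * H)) :=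
        mul_le_mul p2 (c1.trans c3) (mul_nonneg (Real.exp_pos _).le (norm_nonneg _)) (Real.exp_pos _).le
    _ = Real.exp (1 * L + (L + (L * (X + 10 + 1 / m + 1 / 2) + L))) * H := by
        rw [← mul_assoc, ← mul_assoc, ← Real.exp_add, ← Real.exp_add]
        congr 2
        ring
    _ ≤ _ := by
        have : 1 * L + (L + (L * (X + 10 + 1 / m + 1 / 2) + L)) ≤ (X + 10 + 1 / m + 4) * L := by
          linarith only [hLp]
        gcongr

end Pool.Agent.W186.HZ
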